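import Pool.Agent.Lib.MP_e9abfe_ag_DMC.SesL

/-!
# DMC, module D2: exact squaring orbits
-/

set_option autoImplicit false

namespace Pool.Agent.DMC

open MvPolynomial Filter Topology

section field

variable {L : Type} [NormedField L] [IsUltrametricDist L] [CharZero L]

omit [CharZero L] in
theorem Boe_norm_two_add {u : L} (hu : ‖u‖ < ‖(2 : L)‖) : ‖2 + u‖ = ‖(2 : L)‖ := by
  rw [IsUltrametricDist.norm_add_eq_max_of_norm_ne_norm hu.ne', max_eq_left hu.le]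

omit [CharZero L] in
/-- the square root near `1` -/
theorem Boe_sqrt [IsAlgClosed L] {s : L} (hs : ‖s - 1‖ < ‖(2 : L)‖ ^ 2) :
    ∃ t : L, t ^ 2 = s ∧ ‖t - 1‖ * ‖(2 : L)‖ = ‖s - 1‖ := by
  obtain ⟨t, ht⟩ := IsAlgClosed.exists_pow_nat_eq s (n := 2) (by norm_num)
  have key : ∀ t : L, t ^ 2 = s → ‖t - 1‖ < ‖(2 : L)‖ → ‖t - 1‖ * ‖(2 : L)‖ = ‖s - 1‖ := by
    intro t ht h1
    have h2 : t + 1 = 2 + (t - 1) := by ring
    have h3 : s - 1 = (t - 1) * (t + 1) := by rw [← ht]; ring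
    rw [h3, norm_mul, h2, Boe_norm_two_add h1]
  by_cases h1 : ‖t - 1‖ < ‖(2 : L)‖
  · exact ⟨t, ht, key t ht h1⟩
  · have h2 : ‖-t - 1‖ < ‖(2 : L)‖ := by
      have h3 : s - 1 = (t - 1) * (t + 1) := by rw [← ht]; ring
      have h4 : -t - 1 = -(t + 1) := by ring
      rw [h3, norm_mul] at hs
      rw [h4, norm_neg]
      by_contra h5
      push Not at h1 h5
      have h6 := mul_le_mul h1 h5 (norm_nonneg _) (norm_nonneg _)
      rw [← pow_two] at h6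
      exact absurd hs (not_lt.2 h6)
    have h3 : (-t) ^ 2 = s := by rw [neg_sq, ht]
    exact ⟨-t, h3, key (-t) h3 h2⟩

omit [CharZero L] in
theorem Boe_diff {t t' : L} (ht : ‖t - 1‖ < ‖(2 : L)‖) (ht' : ‖t' - 1‖ < ‖(2 : L)‖) :
    ‖t - t'‖ * ‖(2 : L)‖ = ‖t ^ 2 - t' ^ 2‖ := by
  have h1 : t ^ 2 - t' ^ 2 = (t - t') * (2 + ((t - 1) + (t' - 1))) := by ring
  have h2 : ‖(t - 1) + (t' - 1)‖ < ‖(2 : L)‖ :=
    (IsUltrametricDist.norm_add_le_max _ _).trans_lt (max_lt ht ht')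
  rw [h1, norm_mul, Boe_norm_two_add h2]

open Classical in
/-- the principal square root -/
noncomputable def Boe_R [IsAlgClosed L] (s : L) : L :=
  if h : ‖s - 1‖ < ‖(2 : L)‖ ^ 2 then (Boe_sqrt h).choose else 1

omit [CharZero L] in
theorem Boe_R_sq [IsAlgClosed L] {s : L} (hs : ‖s - 1‖ < ‖(2 : L)‖ ^ 2) : Boe_R s ^ 2 = s := by
  rw [Boe_R, dif_pos hs]
  exact (Boe_sqrt hs).choose_spec.1

omit [CharZero L] in
theorem Boe_R_norm [IsAlgClosed L] {s : L} (hs : ‖s - 1‖ < ‖(2 : L)‖ ^ 2) :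
    ‖Boe_R s - 1‖ * ‖(2 : L)‖ = ‖s - 1‖ := by
  rw [Boe_R, dif_pos hs]
  exact (Boe_sqrt hs).choose_spec.2

theorem Boe_lim {K b ρ : ℝ} (hK : 0 ≤ K) (hb : 0 < b) (hρ : 0 < ρ) (hρ1 : ρ < 1) (n : ℕ) :
    Tendsto (fun m => b ^ m * (K * ρ ^ 2 ^ (n + m))) atTop (𝓝 0) := by
  obtain ⟨M, hM⟩ := exists_pow_lt_of_lt_one (inv_pos.2 hb) hρ1
  have h1 : b * ρ ^ M < 1 := by
    calc b * ρ ^ M < b * b⁻¹ := mul_lt_mul_of_pos_left hM hb
      _ = 1 := mul_inv_cancel₀ hb.ne'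
  have h2 : Tendsto (fun m : ℕ => K * (b * ρ ^ M) ^ m) atTop (𝓝 0) := by
    have := (tendsto_pow_atTop_nhds_zero_of_lt_one (by positivity) h1).const_mul K
    rwa [mul_zero] at this
  have h3 : ∀ᶠ m : ℕ in atTop, M * m ≤ 2 ^ (n + m) := by
    have h4 := tendsto_pow_const_div_const_pow_of_one_lt 1 (by norm_num : (1 : ℝ) < 2)
    have h5 := h4.eventually (gt_mem_nhds (show (0 : ℝ) < 1 / (M + 1) by positivity))
    filter_upwards [h5] with m hm
    rw [pow_one, div_lt_div_iff₀ (by positivity) (by positivity), one_mul] at hm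
    have h6 : (M : ℝ) * m ≤ 2 ^ m := by
      have : (0 : ℝ) ≤ m := Nat.cast_nonneg m
      nlinarith
    have h7 : M * m ≤ 2 ^ m := by exact_mod_cast h6
    exact h7.trans (Nat.pow_le_pow_right (by norm_num) (by omega))
  refine squeeze_zero' (Eventually.of_forall fun m => by positivity) ?_ h2
  filter_upwards [h3] with m hm
  have h4 : ρ ^ 2 ^ (n + m) ≤ ρ ^ (M * m) := pow_le_pow_of_le_one hρ.le hρ1.le hm
  calc b ^ m * (K * ρ ^ 2 ^ (n + m)) ≤ b ^ m * (K * ρ ^ (M * m)) := by gcongr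
    _ = K * (b * ρ ^ M) ^ m := by rw [mul_pow, pow_mul]; ring

/-- approximations of the solution of `t n ^ 2 = t (n + 1) * (1 + e n)` -/
noncomputable def Boe_w [IsAlgClosed L] (e : ℕ → L) : ℕ → ℕ → L
  | 0, _ => 1
  | m + 1, n => Boe_R (Boe_w e m (n + 1) * (1 + e n))

omit [IsUltrametricDist L] [CharZero L] in
/-- a squaring orbit with a given value -/
theorem Boe_extend [IsAlgClosed L] (n₀ : ℕ) (A : L) (hA : A ≠ 0) :
    ∃ Y : ℕ → L, Y n₀ = A ∧ (∀ n, Y (n + 1) = Y n ^ 2) ∧ ∀ n, Y n ≠ 0 := by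
  induction n₀ generalizing A with
  | zero =>
    refine ⟨fun n => A ^ 2 ^ n, by simp, fun n => ?_, fun n => pow_ne_zero _ hA⟩
    change A ^ 2 ^ (n + 1) = (A ^ 2 ^ n) ^ 2
    rw [← pow_mul, pow_succ]
  | succ n₀ ih =>
    obtain ⟨B, hB⟩ := IsAlgClosed.exists_pow_nat_eq A (n := 2) (by norm_num)
    have hB0 : B ≠ 0 := by
      rintro rfl
      apply hA
      rw [← hB]
      ring
    obtain ⟨Y, h1, h2, h3⟩ := ih B hB0
    exact ⟨Y, by rw [h2, h1, hB], h2, h3⟩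

/-- the solution of `t n ^ 2 = t (n + 1) * (1 + e n)` for large `n` -/
theorem Boe_sol [CompleteSpace L] [IsAlgClosed L] (h2 : ‖(2 : L)‖ < 1) {e : ℕ → L} {θ : ℕ → ℝ}
    {n₀ : ℕ} (he : ∀ n, n₀ ≤ n → ‖e n‖ ≤ ‖(2 : L)‖ * θ n)
    (hθ : ∀ n, n₀ ≤ n → θ (n + 1) ≤ ‖(2 : L)‖ * θ n) (hθ1 : ∀ n, n₀ ≤ n → θ n < ‖(2 : L)‖)
    (hθ0 : ∀ n, 0 ≤ θ n)
    (hlim : ∀ n, Tendsto (fun m => (‖(2 : L)‖⁻¹) ^ m * θ (n + m)) atTop (𝓝 0)) :
    ∃ t : ℕ → L, (∀ n, n₀ ≤ n → t n ^ 2 = t (n + 1) * (1 + e n)) ∧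
      ∀ n, n₀ ≤ n → ‖t n - 1‖ ≤ θ n := by
  have ha : 0 < ‖(2 : L)‖ := norm_pos_iff.2 two_ne_zero
  set a : ℝ := ‖(2 : L)‖ with hadef
  -- the argument of the square root
  have harg : ∀ (u : L) n, n₀ ≤ n → ‖u - 1‖ ≤ θ (n + 1) → ‖u * (1 + e n) - 1‖ ≤ a * θ n := by
    intro u n hn hu
    have h3 : u * (1 + e n) - 1 = (u - 1) * (1 + e n) + e n := by ring
    have h4 : ‖e n‖ ≤ 1 := by
      refine (he n hn).trans ?_
      have h5 := hθ1 n hn
      nlinarith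
    have h5 : ‖1 + e n‖ ≤ 1 := by
      refine (IsUltrametricDist.norm_add_le_max _ _).trans (max_le ?_ h4)
      rw [norm_one]
    rw [h3]
    refine (IsUltrametricDist.norm_add_le_max _ _).trans (max_le ?_ (he n hn))
    rw [norm_mul]
    calc ‖u - 1‖ * ‖1 + e n‖ ≤ ‖u - 1‖ * 1 := mul_le_mul_of_nonneg_left h5 (norm_nonneg _)
      _ = ‖u - 1‖ := mul_one _
      _ ≤ θ (n + 1) := hu
      _ ≤ a * θ n := hθ n hn
  have hsmall : ∀ n, n₀ ≤ n → a * θ n < a ^ 2 := by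
    intro n hn
    rw [pow_two]
    exact mul_lt_mul_of_pos_left (hθ1 n hn) ha
  have hw : ∀ m n, n₀ ≤ n → ‖Boe_w e m n - 1‖ ≤ θ n := by
    intro m
    induction m with
    | zero =>
      intro n hn
      rw [Boe_w, sub_self, norm_zero]
      exact hθ0 n
    | succ m ih =>
      intro n hn
      have h3 := harg _ n hn (ih (n + 1) (by omega))
      have h4 := Boe_R_norm (h3.trans_lt (hsmall n hn))
      rw [Boe_w]
      rw [← h4, mul_comm] at h3
      exact le_of_mul_le_mul_left h3 ha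
  have hwsq : ∀ m n, n₀ ≤ n → Boe_w e (m + 1) n ^ 2 = Boe_w e m (n + 1) * (1 + e n) := by
    intro m n hn
    rw [Boe_w]
    exact Boe_R_sq ((harg _ n hn (hw m (n + 1) (by omega))).trans_lt (hsmall n hn))
  have hdiff : ∀ m n, n₀ ≤ n → ‖Boe_w e (m + 1) n - Boe_w e m n‖ ≤ a⁻¹ ^ m * θ (n + m) := by
    intro m
    induction m with
    | zero =>
      intro n hn
      have h3 := hw 1 n hn
      rw [pow_zero, one_mul, add_zero]
      exact h3
    | succ m ih =>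
      intro n hn
      have h3 := Boe_diff ((hw (m + 2) n hn).trans_lt (hθ1 n hn))
        ((hw (m + 1) n hn).trans_lt (hθ1 n hn))
      rw [hwsq (m + 1) n hn, hwsq m n hn, ← sub_mul, norm_mul] at h3
      have h4 : ‖1 + e n‖ ≤ 1 := by
        refine (IsUltrametricDist.norm_add_le_max _ _).trans (max_le ?_ ?_)
        · rw [norm_one]
        · refine (he n hn).trans ?_
          have h5 := hθ1 n hn
          nlinarith
      have h5 := ih (n + 1) (by omega)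
      have h6 : ‖Boe_w e (m + 2) n - Boe_w e (m + 1) n‖ * a ≤ a⁻¹ ^ m * θ (n + 1 + m) := by
        rw [h3]
        calc _ ≤ ‖Boe_w e (m + 1) (n + 1) - Boe_w e m (n + 1)‖ * 1 :=
              mul_le_mul_of_nonneg_left h4 (norm_nonneg _)
          _ ≤ _ := by rw [mul_one]; exact h5
      rw [pow_succ, show n + (m + 1) = n + 1 + m by ring]
      calc ‖Boe_w e (m + 2) n - Boe_w e (m + 1) n‖
          = a⁻¹ * (‖Boe_w e (m + 2) n - Boe_w e (m + 1) n‖ * a) := by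
            field_simp
        _ ≤ a⁻¹ * (a⁻¹ ^ m * θ (n + 1 + m)) :=
            mul_le_mul_of_nonneg_left h6 (inv_nonneg.2 ha.le)
        _ = _ := by ring
  have hcauchy : ∀ n, n₀ ≤ n → ∃ l, Tendsto (fun m => Boe_w e m n) atTop (𝓝 l) := by
    intro n hn
    apply cauchySeq_tendsto_of_complete
    apply NonarchimedeanAddGroup.cauchySeq_of_tendsto_sub_nhds_zero
    rw [tendsto_zero_iff_norm_tendsto_zero]
    exact squeeze_zero (fun _ => norm_nonneg _) (fun m => hdiff m n hn) (hlim n)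
  choose! t ht using hcauchy
  refine ⟨t, fun n hn => ?_, fun n hn => ?_⟩
  · have h3 : Tendsto (fun m => Boe_w e (m + 1) n ^ 2) atTop (𝓝 (t n ^ 2)) :=
      ((ht n hn).comp (tendsto_add_atTop_nat 1)).pow 2
    have h4 : Tendsto (fun m => Boe_w e m (n + 1) * (1 + e n)) atTop (𝓝 (t (n + 1) * (1 + e n))) :=
      (ht (n + 1) (by omega)).mul_const _
    have h5 : (fun m => Boe_w e (m + 1) n ^ 2) = fun m => Boe_w e m (n + 1) * (1 + e n) := by
      funext m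
      exact hwsq m n hn
    rw [h5] at h3
    exact tendsto_nhds_unique h3 h4
  · have h3 : Tendsto (fun m => ‖Boe_w e m n - 1‖) atTop (𝓝 ‖t n - 1‖) :=
      ((ht n hn).sub_const 1).norm
    exact le_of_tendsto' h3 fun m => hw m n hn

theorem boettcher [CompleteSpace L] [IsAlgClosed L] (h2 : ‖(2 : L)‖ < 1) {x e : ℕ → L}
    (hx : ∀ n, x n ≠ 0) (hrec : ∀ n, x (n + 1) = x n ^ 2 * (1 + e n)) (he : Ses e) :
    ∃ X : ℕ → L, (∀ n, X n ≠ 0) ∧ (∀ n, X (n + 1) = X n ^ 2) ∧ Ses fun n => x n / X n - 1 := by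
  have ha : 0 < ‖(2 : L)‖ := norm_pos_iff.2 two_ne_zero
  obtain ⟨C, ρ, hC, hρ, hρ1, hb⟩ := he
  -- large indices
  have hpow : Tendsto (fun n : ℕ => ρ ^ 2 ^ n) atTop (𝓝 0) :=
    (tendsto_pow_atTop_nhds_zero_of_lt_one hρ.le hρ1).comp
      (tendsto_pow_atTop_atTop_of_one_lt (by norm_num : 1 < 2))
  have hθt : Tendsto (fun n : ℕ => C / ‖(2 : L)‖ * ρ ^ 2 ^ n) atTop (𝓝 0) := by
    have := hpow.const_mul (C / ‖(2 : L)‖)
    rwa [mul_zero] at this
  obtain ⟨n₁, hn₁⟩ := (eventually_atTop.1 (hpow.eventually (ge_mem_nhds ha)))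
  obtain ⟨n₂, hn₂⟩ := (eventually_atTop.1 (hθt.eventually (gt_mem_nhds ha)))
  obtain ⟨t, ht, ht1⟩ := Boe_sol h2 (e := e) (θ := fun n => C / ‖(2 : L)‖ * ρ ^ 2 ^ n)
    (n₀ := max n₁ n₂) (fun n _ => by
      refine (hb n).trans (le_of_eq ?_)
      field_simp) (fun n hn => by
      have h3 := hn₁ n (le_of_max_le_left hn)
      change C / ‖(2 : L)‖ * ρ ^ 2 ^ (n + 1) ≤ ‖(2 : L)‖ * (C / ‖(2 : L)‖ * ρ ^ 2 ^ n)
      have h4 : ρ ^ 2 ^ (n + 1) = ρ ^ 2 ^ n * ρ ^ 2 ^ n := by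
        rw [← pow_add, ← two_mul, pow_succ']
      rw [h4]
      have h5 : 0 ≤ C / ‖(2 : L)‖ * ρ ^ 2 ^ n := by positivity
      nlinarith [mul_le_mul_of_nonneg_left h3 h5]) (fun n hn => hn₂ n (le_of_max_le_right hn))
    (fun n => by positivity) (fun n => Boe_lim (by positivity) (inv_pos.2 ha) hρ hρ1 n)
  set n₀ := max n₁ n₂
  have htne : ∀ n, n₀ ≤ n → ‖t n‖ = 1 := by
    intro n hn
    have h3 : ‖t n - 1‖ < 1 := (ht1 n hn).trans_lt ((hn₂ n (le_of_max_le_right hn)).trans h2)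
    have h4 : t n = 1 + (t n - 1) := by ring
    rw [h4, IsUltrametricDist.norm_add_eq_max_of_norm_ne_norm (by rw [norm_one]; exact h3.ne'),
      norm_one, max_eq_left h3.le]
  obtain ⟨X, hX0, hX, hXne⟩ := Boe_extend n₀ (x n₀ * t n₀) (mul_ne_zero (hx _) (by
    rw [← norm_ne_zero_iff, htne n₀ le_rfl]
    exact one_ne_zero))
  have hXn : ∀ n, n₀ ≤ n → X n = x n * t n := by
    intro n hn
    induction n, hn using Nat.le_induction with
    | base => exact hX0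
    | succ n hn ih =>
      rw [hX, ih, hrec, mul_pow, ht n hn]
      ring
  refine ⟨X, hXne, hX, ses_of_eventually (n₀ := n₀) (C := C / ‖(2 : L)‖) hρ hρ1 fun n hn => ?_⟩
  have h3 : x n / X n - 1 = (1 - t n) / t n := by
    have h4 : t n ≠ 0 := by
      rw [← norm_ne_zero_iff, htne n hn]
      exact one_ne_zero
    rw [hXn n hn]
    field_simp [hx n]
  rw [h3, norm_div, htne n hn, div_one, norm_sub_rev]
  exact ht1 n hn

/-- the dominating coordinate of an orbit -/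
theorem orb_boettcher [CompleteSpace L] [IsAlgClosed L] (h2 : ‖(2 : L)‖ < 1) {x y z : ℕ → L}
    (h : Orb x y z) : ∃ X : ℕ → L, Sq X ∧ (∀ n, ‖X n‖ = ‖x n‖) ∧ Ses fun n => x n / X n - 1 := by
  have hnx := h.norm_x
  have hpos : ∀ n, 0 < ‖x n‖ := fun n => by
    rw [hnx]
    have := h.one_lt
    positivity
  have hx : ∀ n, x n ≠ 0 := fun n => norm_pos_iff.1 (hpos n)
  obtain ⟨X, hX0, hX, hs⟩ := boettcher h2 (x := x) (e := fun n => y n / x n ^ 2) hx (fun n => by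
      rw [h.x_succ]
      field_simp [hx n]) (by
      refine ⟨1, ‖x 0‖⁻¹, one_pos, inv_pos.2 (one_pos.trans h.one_lt), inv_lt_one_of_one_lt₀ h.one_lt,
        fun n => ?_⟩
      rw [norm_div, norm_pow, one_mul, inv_pow, ← hnx n, div_le_iff₀ (pow_pos (hpos n) 2)]
      refine (h.norm_y n).trans (le_of_eq ?_)
      field_simp [(hpos n).ne'])
  obtain ⟨n₁, hn₁⟩ := hs.lt one_pos
  have hlarge : ∀ n, n₁ ≤ n → ‖X n‖ = ‖x n‖ := by
    intro n hn
    have h3 := hn₁ n hn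
    have h4 : x n / X n = 1 + (x n / X n - 1) := by ring
    have h5 : ‖x n / X n‖ = 1 := by
      rw [h4, IsUltrametricDist.norm_add_eq_max_of_norm_ne_norm (by rw [norm_one]; exact h3.ne'),
        norm_one, max_eq_left h3.le]
    rw [norm_div, div_eq_one_iff_eq (norm_ne_zero_iff.2 (hX0 n))] at h5
    exact h5.symm
  have hXk : ∀ n k, X (n + k) = X n ^ 2 ^ k := by
    intro n k
    induction k with
    | zero => simp
    | succ k ih => rw [← add_assoc, hX, ih, ← pow_mul, pow_succ]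
  have hall : ∀ n, ‖X n‖ = ‖x n‖ := by
    intro n
    have h3 := hlarge (n + n₁) (by omega)
    rw [hXk, norm_pow, hnx, pow_add, pow_mul, ← hnx n] at h3
    exact (pow_left_inj₀ (norm_nonneg _) (norm_nonneg _) (by positivity)).1 h3
  exact ⟨X, ⟨hX, by rw [hall]; exact h.one_lt⟩, hall, hs⟩

end field

end Pool.Agent.DMC
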