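import Pool.Agent.Lib.MP_e9abfe_ag_DMC.Defs

/-!
# Zero is not periodic (module D5)
-/

set_option autoImplicit false

namespace Pool.Agent.DMC

open MvPolynomial

section field

variable {L : Type} [NormedField L] [IsUltrametricDist L] [CharZero L]

/-- the orbit of zero under `m ↦ m ^ 2 + 1` -/
def nzM : ℕ → ℕ
  | 0 => 0
  | k + 1 => nzM k ^ 2 + 1

theorem nz_one {c : ℕ → L} {N : ℕ} (hN : 0 < N) (hper : ∀ n, c (n + N) = c n)
    (hrec : ∀ n, c (n + 1) = c n ^ 2 + 1) (n : ℕ) : c n ≠ 0 := by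
  intro h0
  have h1 : ∀ k, c (n + k) = nzM k := by
    intro k
    induction k with
    | zero => simpa [nzM] using h0
    | succ k ih =>
      rw [← add_assoc, hrec, ih, nzM]
      push_cast
      ring
  have h2 := h1 N
  rw [hper, h0] at h2
  obtain ⟨k, rfl⟩ : ∃ k, N = k + 1 := ⟨N - 1, by omega⟩
  have h3 : nzM (k + 1) = 0 := by exact_mod_cast h2.symm
  rw [nzM] at h3
  omega

theorem nz_two {b c : ℕ → L} {N : ℕ} (hN : 0 < N) (hb : ∀ n, b (n + N) = b n)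
    (hc : ∀ n, c (n + 1) = c n ^ 2) (hc0 : ∀ n, c n ≠ 0)
    (hrec : ∀ n, b (n + 1) = b n ^ 2 + c n) (n : ℕ) : b n ≠ 0 := by
  intro h0
  have hck : ∀ k, c (n + k) = c n ^ 2 ^ k := by
    intro k
    induction k with
    | zero => simp
    | succ k ih => rw [← add_assoc, hc, ih, ← pow_mul, pow_succ]
  have h1 : ∀ k, b (n + k + 1) = nzM (k + 1) * c n ^ 2 ^ k := by
    intro k
    induction k with
    | zero =>
      rw [add_zero, hrec, h0]
      simp [nzM]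
    | succ k ih =>
      have e : nzM (k + 1 + 1) = nzM (k + 1) ^ 2 + 1 := rfl
      rw [hrec, show n + (k + 1) = n + k + 1 by ring, ih, show n + k + 1 = n + (k + 1) by ring, hck,
        e, pow_succ 2 k, pow_mul]
      push_cast
      ring
  obtain ⟨k, rfl⟩ : ∃ k, N = k + 1 := ⟨N - 1, by omega⟩
  have h2 := h1 k
  rw [add_assoc, hb, h0] at h2
  rcases mul_eq_zero.1 h2.symm with h3 | h3
  · have h4 : nzM (k + 1) = 0 := by exact_mod_cast h3
    rw [nzM] at h4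
    omega
  · exact pow_ne_zero _ (hc0 n) h3

omit [CharZero L] in
theorem nz_int {c : L} (hc : ‖c‖ ≤ 1) (P : Polynomial ℤ) : ‖Polynomial.aeval c P‖ ≤ 1 := by
  induction P using Polynomial.induction_on' with
  | add p q hp hq =>
    rw [map_add]
    exact (IsUltrametricDist.norm_add_le_max _ _).trans (max_le hp hq)
  | monomial n a =>
    rw [Polynomial.aeval_monomial, norm_mul, norm_pow]
    have h1 : ‖algebraMap ℤ L a‖ ≤ 1 := by
      rw [eq_intCast]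
      exact IsUltrametricDist.norm_intCast_le_one L a
    exact mul_le_one₀ h1 (by positivity) (pow_le_one₀ (norm_nonneg _) hc)

omit [CharZero L] in
theorem nz_add {a b : L} {r : ℝ} (ha : ‖a‖ ≤ r) (hb : ‖b‖ ≤ r) : ‖a + b‖ ≤ r :=
  (IsUltrametricDist.norm_add_le_max _ _).trans (max_le ha hb)

omit [CharZero L] in
/-- one step of squaring with a small perturbation -/
theorem nz_step {A d : L} {r : ℝ} (hA : ‖A‖ ≤ 1) (hd : ‖d‖ ≤ r)
    (hd2 : ‖d‖ ≤ ‖(2 : L)‖) : ‖2 * A * d + d ^ 2‖ ≤ ‖(2 : L)‖ * r := by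
  refine nz_add ?_ ?_
  · rw [norm_mul, norm_mul]
    calc ‖(2 : L)‖ * ‖A‖ * ‖d‖ ≤ ‖(2 : L)‖ * 1 * r := by gcongr
      _ = ‖(2 : L)‖ * r := by ring
  · rw [norm_pow, pow_two]
    gcongr

/-- the fourth iterate -/
theorem nz_four (h2 : ‖(2 : L)‖ < 1) {b c : ℕ → L} (hc1 : ∀ n, ‖c n‖ ≤ 1)
    (hc : ∀ n, c (n + 1) = c n ^ 2 + 1) (hrec : ∀ n, b (n + 1) = b n ^ 2 + c n) (n : ℕ)
    (hb : ‖b n‖ ≤ ‖(2 : L)‖) :
    ‖b (n + 4) - 2 * (13 * c n ^ 8 + 32 * c n ^ 6 + 37 * c n ^ 4 + 22 * c n ^ 2 + 7)‖ ≤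
      ‖(2 : L)‖ ^ 5 := by
  set t := ‖(2 : L)‖ with ht
  have ht0 : 0 < t := norm_pos_iff.2 two_ne_zero
  set d2 : L := b n ^ 4 + 2 * b n ^ 2 * c n with hd2
  have hc2 := hc (n + 1)
  have hc3 := hc (n + 2)
  rw [hc n] at hc2
  rw [show n + 1 + 1 = n + 2 by ring] at hc2
  rw [hc2, show n + 2 + 1 = n + 3 by ring] at hc3
  have e1 := hrec n
  have e2 : b (n + 2) = (2 * c n ^ 2 + 1) + d2 := by
    rw [show n + 2 = n + 1 + 1 by ring, hrec, hrec, hc, hd2]
    ring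
  set d3 : L := 2 * (2 * c n ^ 2 + 1) * d2 + d2 ^ 2 with hd3
  have e3 : b (n + 3) = (5 * c n ^ 4 + 6 * c n ^ 2 + 3) + d3 := by
    rw [show n + 3 = n + 2 + 1 by ring, hrec, e2, hc2, hd3]
    ring
  set d4 : L := 2 * (5 * c n ^ 4 + 6 * c n ^ 2 + 3) * d3 + d3 ^ 2 with hd4
  have e4 : b (n + 4) - 2 * (13 * c n ^ 8 + 32 * c n ^ 6 + 37 * c n ^ 4 + 22 * c n ^ 2 + 7) = d4 := by
    rw [show n + 4 = n + 3 + 1 by ring, hrec, e3, hc3, hd4]
    ring
  rw [e4]
  have g2 : ‖d2‖ ≤ t ^ 3 := by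
    refine nz_add ?_ ?_
    · rw [norm_pow]
      calc ‖b n‖ ^ 4 ≤ t ^ 4 := by gcongr
        _ ≤ t ^ 3 := pow_le_pow_of_le_one ht0.le h2.le (by norm_num)
    · rw [norm_mul, norm_mul, norm_pow]
      calc ‖(2 : L)‖ * ‖b n‖ ^ 2 * ‖c n‖ ≤ t * t ^ 2 * 1 := by
            gcongr
            exact hc1 n
        _ = t ^ 3 := by ring
  have k3 : t ^ 3 ≤ t := by
    calc t ^ 3 ≤ t ^ 1 := pow_le_pow_of_le_one ht0.le h2.le (by norm_num)
      _ = t := pow_one t
  have g3 : ‖d3‖ ≤ t ^ 4 := by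
    have hA : ‖(2 * c n ^ 2 + 1 : L)‖ ≤ 1 := by
      have := nz_int (hc1 n) (2 * Polynomial.X ^ 2 + 1)
      simp only [map_add, map_mul, map_pow, Polynomial.aeval_X, map_ofNat, map_one] at this
      exact this
    have := nz_step hA g2 (g2.trans k3)
    calc ‖d3‖ ≤ t * t ^ 3 := this
      _ = t ^ 4 := by ring
  have k4 : t ^ 4 ≤ t := by
    calc t ^ 4 ≤ t ^ 1 := pow_le_pow_of_le_one ht0.le h2.le (by norm_num)
      _ = t := pow_one t
  have hA : ‖(5 * c n ^ 4 + 6 * c n ^ 2 + 3 : L)‖ ≤ 1 := by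
    have := nz_int (hc1 n) (5 * Polynomial.X ^ 4 + 6 * Polynomial.X ^ 2 + 3)
    simp only [map_add, map_mul, map_pow, Polynomial.aeval_X, map_ofNat] at this
    exact this
  have := nz_step hA g3 (g3.trans k4)
  calc ‖d4‖ ≤ t * t ^ 4 := this
    _ = t ^ 5 := by ring

/-- the value of `e` at a periodic point -/
theorem nz_e (h2 : ‖(2 : L)‖ < 1) {c : ℕ → L} {N : ℕ} (hN : 0 < N) (hcp : ∀ n, c (n + N) = c n)
    (hc1 : ∀ n, ‖c n‖ ≤ 1) (hc : ∀ n, c (n + 1) = c n ^ 2 + 1) (n : ℕ) :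
    ‖(2 : L)‖ ^ 2 ≤ ‖(13 * c n ^ 8 + 32 * c n ^ 6 + 37 * c n ^ 4 + 22 * c n ^ 2 + 7 : L)‖ := by
  set t := ‖(2 : L)‖ with ht
  have ht0 : 0 < t := norm_pos_iff.2 two_ne_zero
  by_cases h1 : ‖c n ^ 2 + c n + 1‖ = 1
  · have e1 : (13 * c n ^ 8 + 32 * c n ^ 6 + 37 * c n ^ 4 + 22 * c n ^ 2 + 7 : L) =
        (c n ^ 2 + c n + 1) ^ 4 + 2 * (6 * c n ^ 8 - 2 * c n ^ 7 + 11 * c n ^ 6 - 8 * c n ^ 5 +
          9 * c n ^ 4 - 8 * c n ^ 3 + 6 * c n ^ 2 - 2 * c n + 3) := by ring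
    have e2 : ‖(2 * (6 * c n ^ 8 - 2 * c n ^ 7 + 11 * c n ^ 6 - 8 * c n ^ 5 +
          9 * c n ^ 4 - 8 * c n ^ 3 + 6 * c n ^ 2 - 2 * c n + 3) : L)‖ < 1 := by
      rw [norm_mul]
      have := nz_int (hc1 n) (6 * Polynomial.X ^ 8 - 2 * Polynomial.X ^ 7 + 11 * Polynomial.X ^ 6 -
        8 * Polynomial.X ^ 5 + 9 * Polynomial.X ^ 4 - 8 * Polynomial.X ^ 3 +
        6 * Polynomial.X ^ 2 - 2 * Polynomial.X + 3)
      simp only [map_add, map_sub, map_mul, map_pow, Polynomial.aeval_X, map_ofNat] at this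
      calc _ ≤ t * 1 := by gcongr
        _ = t := mul_one t
        _ < 1 := h2
    rw [e1]
    have e3 : ‖(c n ^ 2 + c n + 1) ^ 4‖ = 1 := by rw [norm_pow, h1, one_pow]
    have e4 : ‖(c n ^ 2 + c n + 1) ^ 4 + 2 * (6 * c n ^ 8 - 2 * c n ^ 7 + 11 * c n ^ 6 -
        8 * c n ^ 5 + 9 * c n ^ 4 - 8 * c n ^ 3 + 6 * c n ^ 2 - 2 * c n + 3)‖ = 1 := by
      rw [IsUltrametricDist.norm_add_eq_max_of_norm_ne_norm (by rw [e3]; exact e2.ne'), e3]
      exact max_eq_left e2.le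
    rw [e4]
    exact pow_le_one₀ ht0.le h2.le
  · have h1' : ‖c n ^ 2 + c n + 1‖ < 1 := by
      refine lt_of_le_of_ne ?_ h1
      have := nz_int (hc1 n) (Polynomial.X ^ 2 + Polynomial.X + 1)
      simpa using this
    set r := ‖c (n + 1) - c n‖ with hr
    have hr1 : r < 1 := by
      have e1 : c (n + 1) - c n = (c n ^ 2 + c n + 1) + (-(2 * c n)) := by
        rw [hc]
        ring
      rw [hr, e1]
      refine lt_of_le_of_lt (IsUltrametricDist.norm_add_le_max _ _) (max_lt h1' ?_)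
      rw [norm_neg, norm_mul]
      calc ‖(2 : L)‖ * ‖c n‖ ≤ t * 1 := by
            gcongr
            exact hc1 n
        _ = t := mul_one t
        _ < 1 := h2
    have hr0 : 0 ≤ r := norm_nonneg _
    set μ := max t r with hμ
    have hμ1 : μ < 1 := max_lt h2 hr1
    have hμ0 : 0 < μ := lt_max_of_lt_left ht0
    have hk : ∀ k, ‖c (n + k + 1) - c (n + k)‖ ≤ r * μ ^ k := by
      intro k
      induction k with
      | zero => simp [hr]
      | succ k ih =>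
        have e1 : c (n + (k + 1) + 1) - c (n + (k + 1)) =
            (c (n + k + 1) - c (n + k)) * (2 * c (n + k) + (c (n + k + 1) - c (n + k))) := by
          rw [hc (n + (k + 1)), show n + (k + 1) = n + k + 1 by ring]
          nth_rewrite 2 [hc (n + k)]
          ring
        have e2 : ‖2 * c (n + k) + (c (n + k + 1) - c (n + k))‖ ≤ μ := by
          refine nz_add ?_ ?_
          · rw [norm_mul]
            calc ‖(2 : L)‖ * ‖c (n + k)‖ ≤ t * 1 := by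
                  gcongr
                  exact hc1 _
              _ = t := mul_one t
              _ ≤ μ := le_max_left _ _
          · refine ih.trans (le_trans ?_ (le_max_right t r))
            exact mul_le_of_le_one_right hr0 (pow_le_one₀ hμ0.le hμ1.le)
        rw [e1, norm_mul, pow_succ, ← mul_assoc]
        gcongr
    have hr00 : r = 0 := by
      by_contra hne
      have hrpos : 0 < r := lt_of_le_of_ne hr0 (Ne.symm hne)
      have h3 := hk N
      rw [show n + N + 1 = n + 1 + N by ring, hcp, hcp, ← hr] at h3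
      have h4 : r * μ ^ N < r * 1 := by
        gcongr
        exact pow_lt_one₀ hμ0.le hμ1 hN.ne'
      linarith
    have hcc : c n ^ 2 - c n + 1 = 0 := by
      have h3 : c (n + 1) - c n = 0 := norm_eq_zero.1 (hr.symm.trans hr00)
      rw [hc] at h3
      linear_combination h3
    have e1 : (13 * c n ^ 8 + 32 * c n ^ 6 + 37 * c n ^ 4 + 22 * c n ^ 2 + 7 : L) =
        2 * (2 - c n) := by
      linear_combination (13 * c n ^ 6 + 13 * c n ^ 5 + 32 * c n ^ 4 + 19 * c n ^ 3 +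
        24 * c n ^ 2 + 5 * c n + 3) * hcc
    have hcn : ‖c n‖ = 1 := by
      have h3 : c n * (1 - c n) = 1 := by linear_combination -hcc
      have h4 : ‖c n‖ * ‖1 - c n‖ = 1 := by rw [← norm_mul, h3, norm_one]
      have h5 : ‖1 - c n‖ ≤ 1 := by
        rw [sub_eq_add_neg]
        exact nz_add norm_one.le (by rw [norm_neg]; exact hc1 n)
      refine le_antisymm (hc1 n) ?_
      nlinarith [norm_nonneg (c n), norm_nonneg (1 - c n), hc1 n]
    have h6 : ‖2 - c n‖ = 1 := by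
      rw [sub_eq_add_neg, IsUltrametricDist.norm_add_eq_max_of_norm_ne_norm
        (by rw [norm_neg, hcn]; exact h2.ne), norm_neg, hcn]
      exact max_eq_right h2.le
    rw [e1, norm_mul, h6, mul_one]
    calc t ^ 2 ≤ t ^ 1 := pow_le_pow_of_le_one ht0.le h2.le (by norm_num)
      _ = t := pow_one t

theorem nz_three (h2 : ‖(2 : L)‖ < 1) {b c : ℕ → L} {N : ℕ} (hN : 0 < N)
    (hb : ∀ n, b (n + N) = b n) (hcp : ∀ n, c (n + N) = c n) (hb1 : ∀ n, ‖b n‖ ≤ 1)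
    (hc1 : ∀ n, ‖c n‖ ≤ 1) (hc : ∀ n, c (n + 1) = c n ^ 2 + 1)
    (hrec : ∀ n, b (n + 1) = b n ^ 2 + c n) (n : ℕ) : b n ≠ 0 := by
  intro h0
  have ht0 : 0 < ‖(2 : L)‖ := norm_pos_iff.2 two_ne_zero
  have hle : ∀ j, ‖b (n + 4 * j)‖ ≤ ‖(2 : L)‖ := by
    intro j
    induction j with
    | zero =>
      rw [mul_zero, add_zero, h0, norm_zero]
      exact ht0.le
    | succ j ih =>
      have h1 := nz_four h2 hc1 hc hrec _ ih
      rw [show n + 4 * (j + 1) = n + 4 * j + 4 by ring]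
      set w : L := 2 * (13 * c (n + 4 * j) ^ 8 + 32 * c (n + 4 * j) ^ 6 + 37 * c (n + 4 * j) ^ 4 +
        22 * c (n + 4 * j) ^ 2 + 7) with hw
      have h3 : b (n + 4 * j + 4) = w + (b (n + 4 * j + 4) - w) := by ring
      rw [h3]
      refine nz_add ?_ ?_
      · rw [hw, norm_mul]
        have := nz_int (hc1 (n + 4 * j)) (13 * Polynomial.X ^ 8 + 32 * Polynomial.X ^ 6 +
          37 * Polynomial.X ^ 4 + 22 * Polynomial.X ^ 2 + 7)
        simp only [map_add, map_mul, map_pow, Polynomial.aeval_X, map_ofNat] at this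
        exact mul_le_of_le_one_right ht0.le this
      · refine h1.trans ?_
        calc ‖(2 : L)‖ ^ 5 ≤ ‖(2 : L)‖ ^ 1 := pow_le_pow_of_le_one ht0.le h2.le (by norm_num)
          _ = ‖(2 : L)‖ := pow_one _
  have hper : ∀ j, b (n + N * j) = b n := by
    intro j
    induction j with
    | zero => simp
    | succ j ih => rw [show n + N * (j + 1) = n + N * j + N by ring, hb, ih]
  obtain ⟨k, rfl⟩ : ∃ k, N = k + 1 := ⟨N - 1, by omega⟩
  have h1 := nz_four h2 hc1 hc hrec _ (hle k)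
  have h3 : b (n + 4 * k + 4) = 0 := by
    rw [show n + 4 * k + 4 = n + (k + 1) * 4 by ring, hper, h0]
  have h4 := nz_e h2 hN hcp hc1 hc (n + 4 * k)
  rw [h3, zero_sub, norm_neg, norm_mul] at h1
  have h5 : ‖(2 : L)‖ * ‖(2 : L)‖ ^ 2 ≤ ‖(2 : L)‖ ^ 5 :=
    le_trans (mul_le_mul_of_nonneg_left h4 ht0.le) h1
  have h6 : ‖(2 : L)‖ ^ 5 < ‖(2 : L)‖ ^ 3 := pow_lt_pow_right_of_lt_one₀ ht0 h2 (by norm_num)
  nlinarith

end field

end Pool.Agent.DMC
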