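import Pool.Agent.Lib.MP_e9abfe_ag_DMC.Defs

/-!
# The contraction argument (module D4 of project DMC)

If a sequence `t` in the closed unit disc follows the periodic family of maps `v ↦ v ^ 2 + κ n`
up to super-exponentially small errors, and some polynomial is super-exponentially small along
`t` on an infinite set of indices, then `t` is asymptotic to a periodic orbit of the family.
-/

set_option autoImplicit false

namespace Pool.Agent.DMC

section field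

variable {L : Type} [NormedField L] [IsUltrametricDist L] [CharZero L]

/-- orbit of `u` under the maps `v ↦ v ^ 2 + κ n`, started at time `n` -/
def perF (κ : ℕ → L) (n : ℕ) : ℕ → L → L
  | 0, u => u
  | j + 1, u => perF κ n j u ^ 2 + κ (n + j)

omit [IsUltrametricDist L] [CharZero L] in
theorem perF_zero (κ : ℕ → L) (n : ℕ) (u : L) : perF κ n 0 u = u := rfl

omit [IsUltrametricDist L] [CharZero L] in
theorem perF_succ (κ : ℕ → L) (n j : ℕ) (u : L) :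
    perF κ n (j + 1) u = perF κ n j u ^ 2 + κ (n + j) := rfl

omit [IsUltrametricDist L] [CharZero L] in
theorem perF_add (κ : ℕ → L) (n i j : ℕ) (u : L) :
    perF κ n (i + j) u = perF κ (n + i) j (perF κ n i u) := by
  induction j with
  | zero => rfl
  | succ j ih =>
    rw [← Nat.add_assoc, perF_succ, perF_succ, ih, Nat.add_assoc]

omit [IsUltrametricDist L] [CharZero L] in
theorem perF_congr {κ : ℕ → L} {n m : ℕ} (h : ∀ j, κ (n + j) = κ (m + j)) (j : ℕ) (u : L) :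
    perF κ n j u = perF κ m j u := by
  induction j with
  | zero => rfl
  | succ j ih => rw [perF_succ, perF_succ, ih, h]

omit [NormedField L] [IsUltrametricDist L] [CharZero L] in
theorem perKappa_congr {κ : ℕ → L} {N₀ : ℕ} (hκ : ∀ n, κ (n + N₀) = κ n) {n m : ℕ}
    (h : n % N₀ = m % N₀) (j : ℕ) : κ (n + j) = κ (m + j) := by
  have hp : Function.Periodic κ N₀ := hκ
  rw [← hp.map_mod_nat (n + j), ← hp.map_mod_nat (m + j)]
  have : (n + j) % N₀ = (m + j) % N₀ := by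
    rw [Nat.add_mod, h, ← Nat.add_mod]
  rw [this]

omit [CharZero L] in
theorem perF_le_one {κ : ℕ → L} (hκ1 : ∀ n, ‖κ n‖ ≤ 1) (n j : ℕ) {u : L} (hu : ‖u‖ ≤ 1) :
    ‖perF κ n j u‖ ≤ 1 := by
  induction j with
  | zero => exact hu
  | succ j ih =>
    rw [perF_succ]
    refine (IsUltrametricDist.norm_add_le_max _ _).trans (max_le ?_ (hκ1 _))
    rw [norm_pow]
    exact pow_le_one₀ (norm_nonneg _) ih

omit [CharZero L] in
theorem per_add_le_one {u v : L} (hu : ‖u‖ ≤ 1) (hv : ‖v‖ ≤ 1) : ‖u + v‖ ≤ 1 :=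
  (IsUltrametricDist.norm_add_le_max _ _).trans (max_le hu hv)

omit [CharZero L] in
theorem perF_lip {κ : ℕ → L} (hκ1 : ∀ n, ‖κ n‖ ≤ 1) (n j : ℕ) {u v : L} (hu : ‖u‖ ≤ 1)
    (hv : ‖v‖ ≤ 1) : ‖perF κ n j u - perF κ n j v‖ ≤ ‖u - v‖ := by
  induction j with
  | zero => exact le_rfl
  | succ j ih =>
    rw [perF_succ, perF_succ]
    have h : perF κ n j u ^ 2 + κ (n + j) - (perF κ n j v ^ 2 + κ (n + j)) =
        (perF κ n j u - perF κ n j v) * (perF κ n j u + perF κ n j v) := by ring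
    rw [h, norm_mul]
    calc ‖perF κ n j u - perF κ n j v‖ * ‖perF κ n j u + perF κ n j v‖
        ≤ ‖u - v‖ * 1 := mul_le_mul ih
          (per_add_le_one (perF_le_one hκ1 n j hu) (perF_le_one hκ1 n j hv)) (norm_nonneg _)
          (norm_nonneg _)
      _ = ‖u - v‖ := mul_one _

omit [CharZero L] in
/-- the sum of two close points is small -/
theorem per_add_lt (h2 : ‖(2 : L)‖ < 1) {u v : L} (hv : ‖v‖ ≤ 1) (huv : ‖u - v‖ < 1) :
    ‖u + v‖ ≤ max ‖(2 : L)‖ ‖u - v‖ ∧ ‖u + v‖ < 1 := by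
  have h : ‖u + v‖ ≤ max ‖(2 : L)‖ ‖u - v‖ := by
    have e : u + v = 2 * v + (u - v) := by ring
    rw [e]
    refine (IsUltrametricDist.norm_add_le_max _ _).trans (max_le_max ?_ le_rfl)
    rw [norm_mul]
    calc ‖(2 : L)‖ * ‖v‖ ≤ ‖(2 : L)‖ * 1 := mul_le_mul_of_nonneg_left hv (norm_nonneg _)
      _ = ‖(2 : L)‖ := mul_one _
  exact ⟨h, h.trans_lt (max_lt h2 huv)⟩

omit [CharZero L] in
theorem perF_strict (h2 : ‖(2 : L)‖ < 1) {κ : ℕ → L} (hκ1 : ∀ n, ‖κ n‖ ≤ 1) (n : ℕ) {j : ℕ}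
    (hj : 0 < j) {u v : L} (hu : ‖u‖ ≤ 1) (hv : ‖v‖ ≤ 1) (huv : ‖u - v‖ < 1) (hne : u ≠ v) :
    ‖perF κ n j u - perF κ n j v‖ < ‖u - v‖ := by
  obtain ⟨i, rfl⟩ : ∃ i, j = 1 + i := ⟨j - 1, by omega⟩
  rw [perF_add, perF_add]
  refine (perF_lip hκ1 _ _ (perF_le_one hκ1 n 1 hu) (perF_le_one hκ1 n 1 hv)).trans_lt ?_
  have e : perF κ n 1 u - perF κ n 1 v = (u - v) * (u + v) := by
    rw [show (1 : ℕ) = 0 + 1 from rfl, perF_succ, perF_succ, perF_zero, perF_zero]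
    ring
  rw [e, norm_mul]
  have hpos : 0 < ‖u - v‖ := norm_pos_iff.2 (sub_ne_zero.2 hne)
  calc ‖u - v‖ * ‖u + v‖ < ‖u - v‖ * 1 :=
        mul_lt_mul_of_pos_left (per_add_lt h2 hv huv).2 hpos
    _ = ‖u - v‖ := mul_one _

omit [CharZero L] in
/-- shadowing -/
theorem perF_shadow {t κ : ℕ → L} (hκ1 : ∀ n, ‖κ n‖ ≤ 1) (ht : ∀ n, ‖t n‖ ≤ 1) {n : ℕ} {M : ℝ}
    (he : ∀ i, n ≤ i → ‖t (i + 1) - (t i ^ 2 + κ i)‖ ≤ M) {u : L} (hu : ‖u‖ ≤ 1)
    (h0 : ‖u - t n‖ ≤ M) (j : ℕ) : ‖perF κ n j u - t (n + j)‖ ≤ M := by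
  induction j with
  | zero => exact h0
  | succ j ih =>
    rw [perF_succ]
    have e : perF κ n j u ^ 2 + κ (n + j) - t (n + (j + 1)) =
        (perF κ n j u - t (n + j)) * (perF κ n j u + t (n + j)) +
          -(t (n + j + 1) - (t (n + j) ^ 2 + κ (n + j))) := by
      rw [show n + (j + 1) = n + j + 1 from rfl]
      ring
    rw [e]
    refine (IsUltrametricDist.norm_add_le_max _ _).trans (max_le ?_ ?_)
    · rw [norm_mul]
      have hM : 0 ≤ M := (norm_nonneg _).trans h0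
      calc ‖perF κ n j u - t (n + j)‖ * ‖perF κ n j u + t (n + j)‖ ≤ M * 1 :=
            mul_le_mul ih (per_add_le_one (perF_le_one hκ1 n j hu) (ht _)) (norm_nonneg _) hM
        _ = M := mul_one _
    · rw [norm_neg]
      exact he _ (Nat.le_add_right _ _)

/-- an infinite set of naturals meets some residue class in an infinite set -/
theorem per_pigeon {S : Set ℕ} (hS : S.Infinite) {K : ℕ} (hK : 0 < K) :
    ∃ c : ℕ, (S ∩ {n | n % K = c}).Infinite := by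
  by_contra hcon
  push Not at hcon
  apply hS
  have hsub : S ⊆ ⋃ c ∈ Finset.range K, (S ∩ {n | n % K = c}) := by
    intro n hn
    simp only [Set.mem_iUnion, Finset.mem_range]
    exact ⟨n % K, Nat.mod_lt _ hK, hn, rfl⟩
  refine Set.Finite.subset (Set.Finite.biUnion (Finset.finite_toSet _) ?_) hsub
  intro c _
  exact hcon c

theorem per_exists_ge {S : Set ℕ} (hS : S.Infinite) (n : ℕ) : ∃ m ∈ S, n ≤ m := by
  obtain ⟨m, hm, hnm⟩ := hS.exists_gt n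
  exact ⟨m, hm, hnm.le⟩

theorem per_pow_le {ρ : ℝ} (hρ : 0 < ρ) (hρ1 : ρ < 1) {n m : ℕ} (h : n ≤ m) :
    ρ ^ 2 ^ m ≤ ρ ^ 2 ^ n :=
  pow_le_pow_of_le_one hρ.le hρ1.le (Nat.pow_le_pow_right (by norm_num) h)

theorem per_small {C ρ : ℝ} (hC : 0 < C) (hρ : 0 < ρ) (hρ1 : ρ < 1) {ε : ℝ} (hε : 0 < ε) :
    ∃ n₀ : ℕ, ∀ n, n₀ ≤ n → C * ρ ^ 2 ^ n < ε := by
  obtain ⟨n₀, hn₀⟩ := exists_pow_lt_of_lt_one (div_pos hε hC) hρ1
  refine ⟨n₀, fun n hn => ?_⟩
  have h1 : ρ ^ 2 ^ n ≤ ρ ^ n₀ :=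
    pow_le_pow_of_le_one hρ.le hρ1.le (hn.trans (Nat.lt_two_pow_self).le)
  have h2 : ρ ^ 2 ^ n < ε / C := h1.trans_lt hn₀
  rwa [lt_div_iff₀ hC, mul_comm] at h2

omit [IsUltrametricDist L] [CharZero L] in
theorem per_ses_of_eventually {f : ℕ → L} {n₀ : ℕ} {C ρ : ℝ} (hC : 0 < C) (hρ : 0 < ρ)
    (hρ1 : ρ < 1) (h : ∀ n, n₀ ≤ n → ‖f n‖ ≤ C * ρ ^ 2 ^ n) : Ses f := by
  have hs : 0 ≤ ∑ i ∈ Finset.range n₀, ‖f i‖ / ρ ^ 2 ^ i :=
    Finset.sum_nonneg fun i _ => div_nonneg (norm_nonneg _) (pow_nonneg hρ.le _)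
  refine ⟨C + ∑ i ∈ Finset.range n₀, ‖f i‖ / ρ ^ 2 ^ i, ρ, by linarith, hρ, hρ1, fun n => ?_⟩
  have hp : 0 < ρ ^ 2 ^ n := pow_pos hρ _
  by_cases hn : n₀ ≤ n
  · refine (h n hn).trans ?_
    exact mul_le_mul_of_nonneg_right (by linarith) hp.le
  · push Not at hn
    have h1 : ‖f n‖ / ρ ^ 2 ^ n ≤ ∑ i ∈ Finset.range n₀, ‖f i‖ / ρ ^ 2 ^ i :=
      Finset.single_le_sum (f := fun i => ‖f i‖ / ρ ^ 2 ^ i)
        (fun i _ => div_nonneg (norm_nonneg _) (pow_nonneg hρ.le _)) (Finset.mem_range.2 hn)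
    have h2 : ‖f n‖ = ‖f n‖ / ρ ^ 2 ^ n * ρ ^ 2 ^ n := by field_simp
    rw [h2]
    exact mul_le_mul_of_nonneg_right (by linarith) hp.le

omit [IsUltrametricDist L] [CharZero L] in
/-- a polynomial which is small along `t` produces a root to which `t` is close -/
theorem per_root [IsAlgClosed L] {t : ℕ → L} (d : ℕ) : ∀ (Q : Polynomial L), Q ≠ 0 →
    Q.natDegree = d → ∀ S : Set ℕ, S.Infinite → SesOn S (fun n => Q.eval (t n)) →
      ∃ (β : L) (T : Set ℕ), T.Infinite ∧ T ⊆ S ∧ SesOn T (fun n => t n - β) := by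
  induction d with
  | zero =>
    intro Q hQ hd S hS hses
    exfalso
    obtain ⟨C, ρ, hC, hρ, hρ1, hb⟩ := hses
    have hc : Q = Polynomial.C (Q.coeff 0) := Polynomial.eq_C_of_natDegree_eq_zero hd
    have hq : Q.coeff 0 ≠ 0 := by
      intro h0
      rw [h0, Polynomial.C_0] at hc
      exact hQ hc
    obtain ⟨n₀, hn₀⟩ := per_small hC hρ hρ1 (norm_pos_iff.2 hq)
    obtain ⟨m, hm, hnm⟩ := per_exists_ge hS n₀
    have h1 : ‖Q.eval (t m)‖ ≤ C * ρ ^ 2 ^ m := hb m hm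
    have h2 := hn₀ m hnm
    rw [show Q.eval (t m) = Q.coeff 0 by
      conv_lhs => rw [hc]
      rw [Polynomial.eval_C]] at h1
    linarith
  | succ d ih =>
    intro Q hQ hd S hS hses
    have hdeg : Q.degree ≠ 0 := by
      intro h0
      have := Polynomial.natDegree_eq_zero_iff_degree_le_zero.2 h0.le
      omega
    obtain ⟨r, hr⟩ := IsAlgClosed.exists_root Q hdeg
    obtain ⟨Q', hQ'⟩ := Polynomial.dvd_iff_isRoot.2 hr
    have hQ'0 : Q' ≠ 0 := by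
      rintro rfl
      rw [mul_zero] at hQ'
      exact hQ hQ'
    have hdQ' : Q'.natDegree = d := by
      have := Polynomial.natDegree_mul (Polynomial.X_sub_C_ne_zero r) hQ'0
      rw [← hQ', hd, Polynomial.natDegree_X_sub_C] at this
      omega
    obtain ⟨C, ρ, hC, hρ, hρ1, hb⟩ := hses
    have hsq : ∀ n : ℕ, (Real.sqrt C * Real.sqrt ρ ^ 2 ^ n) * (Real.sqrt C * Real.sqrt ρ ^ 2 ^ n) =
        C * ρ ^ 2 ^ n := by
      intro n
      calc (Real.sqrt C * Real.sqrt ρ ^ 2 ^ n) * (Real.sqrt C * Real.sqrt ρ ^ 2 ^ n)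
          = (Real.sqrt C * Real.sqrt C) * (Real.sqrt ρ * Real.sqrt ρ) ^ 2 ^ n := by
            rw [mul_pow]; ring
        _ = C * ρ ^ 2 ^ n := by rw [Real.mul_self_sqrt hC.le, Real.mul_self_sqrt hρ.le]
    have hsC : 0 < Real.sqrt C := Real.sqrt_pos.2 hC
    have hsρ : 0 < Real.sqrt ρ := Real.sqrt_pos.2 hρ
    have hsρ1 : Real.sqrt ρ < 1 := by
      rw [Real.sqrt_lt' one_pos]
      simpa using hρ1
    have hsplit : S ⊆ {n ∈ S | ‖t n - r‖ ≤ Real.sqrt C * Real.sqrt ρ ^ 2 ^ n} ∪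
        {n ∈ S | ‖Q'.eval (t n)‖ ≤ Real.sqrt C * Real.sqrt ρ ^ 2 ^ n} := by
      intro n hn
      by_contra hcon
      simp only [Set.mem_union, Set.mem_ofPred_eq, hn, true_and, not_or, not_le] at hcon
      have h1 : ‖Q.eval (t n)‖ ≤ C * ρ ^ 2 ^ n := hb n hn
      have h2 : Q.eval (t n) = (t n - r) * Q'.eval (t n) := by
        conv_lhs => rw [hQ']
        rw [Polynomial.eval_mul, Polynomial.eval_sub, Polynomial.eval_X, Polynomial.eval_C]
      rw [h2, norm_mul, ← hsq n] at h1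
      have hpos : 0 < Real.sqrt C * Real.sqrt ρ ^ 2 ^ n := mul_pos hsC (pow_pos hsρ _)
      have h3 := mul_lt_mul'' hcon.1 hcon.2 hpos.le hpos.le
      linarith
    have hor : {n ∈ S | ‖t n - r‖ ≤ Real.sqrt C * Real.sqrt ρ ^ 2 ^ n}.Infinite ∨
        {n ∈ S | ‖Q'.eval (t n)‖ ≤ Real.sqrt C * Real.sqrt ρ ^ 2 ^ n}.Infinite := by
      by_contra hcon
      simp only [not_or, Set.not_infinite] at hcon
      exact hS ((hcon.1.union hcon.2).subset hsplit)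
    rcases hor with h | h
    · exact ⟨r, _, h, fun n hn => hn.1, Real.sqrt C, Real.sqrt ρ, hsC, hsρ, hsρ1,
        fun n hn => hn.2⟩
    · obtain ⟨β, T, hT, hTS, hses⟩ := ih Q' hQ'0 hdQ' _ h
        ⟨Real.sqrt C, Real.sqrt ρ, hsC, hsρ, hsρ1, fun n hn => hn.2⟩
      exact ⟨β, T, hT, fun n hn => (hTS hn).1, hses⟩

omit [IsUltrametricDist L] [CharZero L] in
/-- iterating a periodic return map -/
theorem perF_mul {κ : ℕ → L} {N₀ : ℕ} (hκ : ∀ n, κ (n + N₀) = κ n) {K : ℕ} (hK : N₀ ∣ K)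
    (n i : ℕ) (u : L) : perF κ n (K * (i + 1)) u = perF κ n K (perF κ n (K * i) u) := by
  rw [Nat.mul_succ, perF_add]
  refine perF_congr (fun j => perKappa_congr hκ ?_ j) K _
  obtain ⟨q, rfl⟩ := hK
  rw [Nat.mul_assoc, Nat.add_mul_mod_self_left]

omit [IsUltrametricDist L] [CharZero L] in
theorem perF_mul_fix {κ : ℕ → L} {N₀ : ℕ} (hκ : ∀ n, κ (n + N₀) = κ n) {K : ℕ} (hK : N₀ ∣ K)
    (n : ℕ) {u : L} (hu : perF κ n K u = u) (i : ℕ) : perF κ n (K * i) u = u := by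
  induction i with
  | zero => rfl
  | succ i ih => rw [perF_mul hκ hK, ih, hu]

omit [CharZero L] in
theorem perF_dist (h2 : ‖(2 : L)‖ < 1) {κ : ℕ → L} (hκ1 : ∀ n, ‖κ n‖ ≤ 1) {N₀ : ℕ}
    (hκ : ∀ n, κ (n + N₀) = κ n) {K : ℕ} (hK : N₀ ∣ K) (hK0 : 0 < K) (n : ℕ) {u : L}
    (hu : ‖u‖ ≤ 1) (hne : perF κ n K u ≠ u) (hlt : ‖perF κ n K u - u‖ < 1) (i : ℕ) :
    ‖perF κ n (K * (i + 1)) u - u‖ = ‖perF κ n K u - u‖ := by
  induction i with
  | zero => rw [Nat.zero_add, Nat.mul_one]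
  | succ i ih =>
    rw [perF_mul hκ hK]
    set w := perF κ n (K * (i + 1)) u with hw
    have hpos : 0 < ‖perF κ n K u - u‖ := norm_pos_iff.2 (sub_ne_zero.2 hne)
    have hwu : w ≠ u := by
      intro h
      rw [h, sub_self, norm_zero] at ih
      linarith
    have h1 : ‖perF κ n K w - perF κ n K u‖ < ‖w - u‖ :=
      perF_strict h2 hκ1 n hK0 (perF_le_one hκ1 _ _ hu) hu (by rw [ih]; exact hlt) hwu
    have e : perF κ n K w - u = (perF κ n K w - perF κ n K u) + (perF κ n K u - u) := by ring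
    rw [e, IsUltrametricDist.norm_add_eq_max_of_norm_ne_norm (by rw [ih] at h1; exact h1.ne)]
    rw [ih] at h1
    exact max_eq_right h1.le

theorem periodic_of_rel [IsAlgClosed L] (h2 : ‖(2 : L)‖ < 1) {t κ : ℕ → L} {N₀ : ℕ}
    (hN₀ : 0 < N₀) (hκ : ∀ n, κ (n + N₀) = κ n) (hκ1 : ∀ n, ‖κ n‖ ≤ 1) (ht : ∀ n, ‖t n‖ ≤ 1)
    (hrec : Ses fun n => t (n + 1) - (t n ^ 2 + κ n)) {Q : Polynomial L} (hQ : Q ≠ 0) {S : Set ℕ}
    (hS : S.Infinite) (hSQ : SesOn S fun n => Q.eval (t n)) :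
    ∃ (N : ℕ) (b : ℕ → L), 0 < N ∧ N₀ ∣ N ∧ (∀ n, b (n + N) = b n) ∧
      (∀ n, b (n + 1) = b n ^ 2 + κ n) ∧ (∀ n, ‖b n‖ ≤ 1) ∧
      (∀ ε : ℝ, 0 < ε → ∃ n₀ : ℕ, ∀ n, n₀ ≤ n → ‖t n - b n‖ < ε) ∧
      ((∀ n, b n ≠ 0) → Ses fun n => t n - b n) := by
  obtain ⟨β, T₀, hT₀, -, hses⟩ := per_root Q.natDegree Q hQ rfl S hS hSQ
  obtain ⟨c, hT₁⟩ := per_pigeon hT₀ hN₀
  set T : Set ℕ := T₀ ∩ {n | n % N₀ = c} with hTdef
  obtain ⟨C₁, ρ₁, hC₁, hρ₁, hρ₁1, hb₁⟩ := hses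
  obtain ⟨C₂, ρ₂, hC₂, hρ₂, hρ₂1, hb₂⟩ := hrec
  -- common constants
  obtain ⟨C, ρ, hC, hρ, hρ1, hTb, hεb⟩ : ∃ C ρ : ℝ, 0 < C ∧ 0 < ρ ∧ ρ < 1 ∧
      (∀ n ∈ T, ‖t n - β‖ ≤ C * ρ ^ 2 ^ n) ∧
      (∀ n, ‖t (n + 1) - (t n ^ 2 + κ n)‖ ≤ C * ρ ^ 2 ^ n) := by
    refine ⟨max C₁ C₂, max ρ₁ ρ₂, lt_max_of_lt_left hC₁, lt_max_of_lt_left hρ₁,
      max_lt hρ₁1 hρ₂1, fun n hn => (hb₁ n hn.1).trans ?_, fun n => (hb₂ n).trans ?_⟩
    · exact mul_le_mul (le_max_left _ _) (pow_le_pow_left₀ hρ₁.le (le_max_left _ _) _)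
        (pow_nonneg hρ₁.le _) (hC₁.le.trans (le_max_left _ _))
    · exact mul_le_mul (le_max_right _ _) (pow_le_pow_left₀ hρ₂.le (le_max_right _ _) _)
        (pow_nonneg hρ₂.le _) (hC₁.le.trans (le_max_left _ _))
  have hE : ∀ {n m : ℕ}, n ≤ m → C * ρ ^ 2 ^ m ≤ C * ρ ^ 2 ^ n := fun h =>
    mul_le_mul_of_nonneg_left (per_pow_le hρ hρ1 h) hC.le
  have hTc : ∀ n ∈ T, n % N₀ = c := fun n hn => hn.2
  -- starting point
  obtain ⟨m₀, hm₀⟩ := per_small hC hρ hρ1 one_pos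
  obtain ⟨n₁, hn₁, hn₁m⟩ := per_exists_ge hT₁ m₀
  have hη : C * ρ ^ 2 ^ n₁ < 1 := hm₀ n₁ hn₁m
  have hβ : ‖β‖ ≤ 1 := by
    have e : β = t n₁ + -(t n₁ - β) := by ring
    rw [e]
    refine per_add_le_one (ht _) ?_
    rw [norm_neg]
    exact ((hTb n₁ hn₁).trans_lt hη).le
  -- almost periodicity
  have hret : ∀ n ∈ T, ∀ m ∈ T, n ≤ m → ‖perF κ n (m - n) β - β‖ ≤ C * ρ ^ 2 ^ n := by
    intro n hn m hm hnm
    have h1 : ‖perF κ n (m - n) β - t (n + (m - n))‖ ≤ C * ρ ^ 2 ^ n :=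
      perF_shadow hκ1 ht (fun i hi => (hεb i).trans (hE hi)) hβ
        (by rw [norm_sub_rev]; exact hTb n hn) _
    rw [Nat.add_sub_cancel' hnm] at h1
    have e : perF κ n (m - n) β - β = (perF κ n (m - n) β - t m) + (t m - β) := by ring
    rw [e]
    exact (IsUltrametricDist.norm_add_le_max _ _).trans (max_le h1 ((hTb m hm).trans (hE hnm)))
  -- the period
  obtain ⟨n₂, hn₂, hn₁₂⟩ := hT₁.exists_gt n₁
  set N := n₂ - n₁ with hN
  have hNpos : 0 < N := by omega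
  have hNN₀ : N₀ ∣ N := by
    have := (Nat.modEq_iff_dvd' hn₁₂.le).1 (show n₁ % N₀ = n₂ % N₀ by
      rw [hTc n₁ hn₁, hTc n₂ hn₂])
    exact this
  have hfix : perF κ n₁ N β = β := by
    by_contra hne
    have hlt : ‖perF κ n₁ N β - β‖ < 1 := (hret n₁ hn₁ n₂ hn₂ hn₁₂.le).trans_lt hη
    have hpos : 0 < ‖perF κ n₁ N β - β‖ := norm_pos_iff.2 (sub_ne_zero.2 hne)
    obtain ⟨c', hT'⟩ := per_pigeon hT₁ hNpos
    obtain ⟨m₁, hm₁⟩ := per_small hC hρ hρ1 hpos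
    obtain ⟨n, hn, hnm⟩ := per_exists_ge hT' m₁
    obtain ⟨m, hm, hlt'⟩ := hT'.exists_gt n
    have hdvd : N ∣ m - n := (Nat.modEq_iff_dvd' hlt'.le).1 (show n % N = m % N by
      rw [hn.2, hm.2])
    obtain ⟨q, hq⟩ := hdvd
    obtain ⟨i, rfl⟩ : ∃ i, q = i + 1 := by
      refine ⟨q - 1, ?_⟩
      rcases Nat.eq_zero_or_pos q with h0 | h0
      · rw [h0, Nat.mul_zero] at hq
        omega
      · omega
    have h1 := hret n hn.1 m hm.1 hlt'.le
    rw [hq, perF_congr (fun j => perKappa_congr hκ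
      (show n % N₀ = n₁ % N₀ by rw [hTc n hn.1, hTc n₁ hn₁]) j)] at h1
    rw [perF_dist h2 hκ1 hκ hNN₀ hNpos n₁ hβ hne hlt i] at h1
    exact absurd (hm₁ n hnm) (not_lt.2 h1)
  -- the periodic orbit
  have hn₁N : n₁ + n₁ * (N - 1) = n₁ * N := by
    obtain ⟨N', hN'⟩ : ∃ N', N = N' + 1 := ⟨N - 1, by omega⟩
    rw [hN', Nat.add_sub_cancel]
    ring
  let b : ℕ → L := fun n => perF κ n₁ (n + n₁ * (N - 1)) β
  have hbdef : ∀ n, b n = perF κ n₁ (n + n₁ * (N - 1)) β := fun n => rfl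
  have hbper : ∀ n, b (n + N) = b n := by
    intro n
    rw [hbdef, hbdef, show n + N + n₁ * (N - 1) = N + (n + n₁ * (N - 1)) by ring, perF_add, hfix]
    refine perF_congr (fun j => perKappa_congr hκ ?_ j) _ _
    obtain ⟨q, hq⟩ := hNN₀
    rw [hq, Nat.add_mul_mod_self_left]
  have hbrec : ∀ n, b (n + 1) = b n ^ 2 + κ n := by
    intro n
    rw [hbdef, hbdef, show n + 1 + n₁ * (N - 1) = (n + n₁ * (N - 1)) + 1 by ring, perF_succ]
    have e : n₁ + (n + n₁ * (N - 1)) = n + n₁ * N := by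
      rw [← hn₁N]; ring
    rw [e]
    have hmod : (n + n₁ * N) % N₀ = n % N₀ := by
      obtain ⟨q, hq⟩ := hNN₀
      rw [hq, show n + n₁ * (N₀ * q) = n + N₀ * (n₁ * q) by ring, Nat.add_mul_mod_self_left]
    have := perKappa_congr hκ hmod 0
    rw [Nat.add_zero, Nat.add_zero] at this
    rw [this]
  have hble : ∀ n, ‖b n‖ ≤ 1 := fun n => perF_le_one hκ1 _ _ hβ
  have hbn₁ : b n₁ = β := by
    rw [hbdef, hn₁N, Nat.mul_comm]
    exact perF_mul_fix hκ hNN₀ n₁ hfix n₁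
  have hbF : ∀ n j, b (n + j) = perF κ n j (b n) := by
    intro n j
    induction j with
    | zero => rfl
    | succ j ih => rw [← Nat.add_assoc, hbrec, ih, perF_succ]
  -- the difference
  have hd : ∀ n, t (n + 1) - b (n + 1) = (t n - b n) * (t n + b n) +
      (t (n + 1) - (t n ^ 2 + κ n)) := by
    intro n
    rw [hbrec]
    ring
  set η : ℝ := C * ρ ^ 2 ^ n₁ with hηdef
  have hη0 : 0 < η := mul_pos hC (pow_pos hρ _)
  set θ : ℝ := max ‖(2 : L)‖ η with hθ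
  have hθ1 : θ < 1 := max_lt h2 hη
  have hθ0 : 0 ≤ θ := hη0.le.trans (le_max_right _ _)
  have hdη : ∀ j, ‖t (n₁ + j) - b (n₁ + j)‖ ≤ η := by
    intro j
    induction j with
    | zero =>
      rw [Nat.add_zero, hbn₁]
      exact hTb n₁ hn₁
    | succ j ih =>
      rw [← Nat.add_assoc, hd]
      refine (IsUltrametricDist.norm_add_le_max _ _).trans (max_le ?_ ?_)
      · rw [norm_mul]
        calc _ ≤ η * 1 := mul_le_mul ih (per_add_le_one (ht _) (hble _)) (norm_nonneg _) hη0.le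
          _ = η := mul_one _
      · exact (hεb _).trans (hE (Nat.le_add_right _ _))
  have hdstep : ∀ n, n₁ ≤ n → ‖t (n + 1) - b (n + 1)‖ ≤
      max (θ * ‖t n - b n‖) (C * ρ ^ 2 ^ n) := by
    intro n hn
    obtain ⟨j, rfl⟩ := Nat.exists_eq_add_of_le hn
    rw [hd]
    refine (IsUltrametricDist.norm_add_le_max _ _).trans (max_le_max ?_ (hεb _))
    rw [norm_mul, mul_comm]
    refine mul_le_mul_of_nonneg_right ?_ (norm_nonneg _)
    refine (per_add_lt h2 (hble _) ((hdη j).trans_lt hη)).1.trans ?_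
    exact max_le_max le_rfl (hdη j)
  have hdlim : ∀ ε : ℝ, 0 < ε → ∃ n₀ : ℕ, ∀ n, n₀ ≤ n → ‖t n - b n‖ < ε := by
    intro ε hε
    obtain ⟨m₁, hm₁⟩ := per_small hC hρ hρ1 (half_pos hε)
    obtain ⟨k, hk⟩ := exists_pow_lt_of_lt_one (half_pos hε) hθ1
    have hind : ∀ j, ‖t (max n₁ m₁ + j) - b (max n₁ m₁ + j)‖ ≤ max (θ ^ j) (ε / 2) := by
      intro j
      induction j with
      | zero =>
        rw [pow_zero]
        refine le_max_of_le_left ?_
        obtain ⟨i, hi⟩ := Nat.exists_eq_add_of_le (le_max_left n₁ m₁)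
        rw [Nat.add_zero, hi]
        exact ((hdη i).trans_lt hη).le
      | succ j ih =>
        rw [← Nat.add_assoc]
        refine (hdstep _ (by omega)).trans (max_le ?_ ?_)
        · calc θ * ‖t (max n₁ m₁ + j) - b (max n₁ m₁ + j)‖ ≤ θ * max (θ ^ j) (ε / 2) :=
                mul_le_mul_of_nonneg_left ih hθ0
            _ = max (θ * θ ^ j) (θ * (ε / 2)) := mul_max_of_nonneg _ _ hθ0
            _ ≤ max (θ ^ (j + 1)) (ε / 2) := by
                refine max_le_max (le_of_eq (pow_succ' θ j).symm) ?_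
                exact mul_le_of_le_one_left (half_pos hε).le hθ1.le
        · exact le_max_of_le_right (hm₁ _ (by omega)).le
    refine ⟨max n₁ m₁ + k, fun n hn => ?_⟩
    obtain ⟨i, rfl⟩ := Nat.exists_eq_add_of_le hn
    rw [Nat.add_assoc]
    refine (hind (k + i)).trans_lt (max_lt ?_ (half_lt_self hε))
    have : θ ^ (k + i) ≤ θ ^ k := pow_le_pow_of_le_one hθ0 hθ1.le (Nat.le_add_right _ _)
    linarith
  refine ⟨N, b, hNpos, hNN₀, hbper, hbrec, hble, hdlim, fun hb0 => ?_⟩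
  -- on `T` the orbit is at `β`
  have hbT : ∀ n ∈ T, n₁ ≤ n → b n = β := by
    intro n hn hnn
    by_contra hne
    have hclose : ‖b n - β‖ < 1 := by
      have e : b n - β = -(t n - b n) + (t n - β) := by ring
      rw [e]
      refine (IsUltrametricDist.norm_add_le_max _ _).trans_lt (max_lt ?_ ?_)
      · rw [norm_neg]
        obtain ⟨j, rfl⟩ := Nat.exists_eq_add_of_le hnn
        exact (hdη j).trans_lt hη
      · exact ((hTb n hn).trans (hE hnn)).trans_lt hη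
    have h1 := perF_strict h2 hκ1 n hNpos (hble n) hβ hclose hne
    rw [← hbF, hbper] at h1
    have h3 : perF κ n N β = β := by
      rw [perF_congr (fun j => perKappa_congr hκ
        (show n % N₀ = n₁ % N₀ by rw [hTc n hn, hTc n₁ hn₁]) j)]
      exact hfix
    rw [h3] at h1
    exact lt_irrefl _ h1
  -- lower bound for the periodic orbit
  obtain ⟨μ, hμ0, hμ⟩ : ∃ μ : ℝ, 0 < μ ∧ ∀ n, μ ≤ ‖2 * b n‖ := by
    have h20 : (0 : ℝ) < ‖(2 : L)‖ := norm_pos_iff.2 two_ne_zero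
    obtain ⟨k, -, hk⟩ := Finset.exists_min_image (Finset.range N) (fun n => ‖b n‖)
      ⟨0, Finset.mem_range.2 hNpos⟩
    refine ⟨‖(2 : L)‖ * ‖b k‖, mul_pos h20 (norm_pos_iff.2 (hb0 k)), fun n => ?_⟩
    rw [norm_mul]
    refine mul_le_mul_of_nonneg_left ?_ h20.le
    have hp : Function.Periodic b N := hbper
    rw [← hp.map_mod_nat n]
    exact hk _ (Finset.mem_range.2 (Nat.mod_lt _ hNpos))
  obtain ⟨k₁, hk₁⟩ := hdlim μ hμ0
  obtain ⟨k₂, hk₂⟩ := per_small one_pos hρ hρ1 hμ0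
  set n₃ := max n₁ (max k₁ k₂) with hn₃
  set C' : ℝ := max C (C / μ) with hC'
  have hC'0 : 0 < C' := lt_max_of_lt_left hC
  have hback : ∀ n, n₃ ≤ n → ‖t n - b n‖ ≤
      max ‖t (n + 1) - b (n + 1)‖ (C * ρ ^ 2 ^ n) / μ := by
    intro n hn
    have h1 : ‖t n - b n‖ < ‖2 * b n‖ := (hk₁ n (by omega)).trans_le (hμ n)
    have h3 : ‖t n + b n‖ = ‖2 * b n‖ := by
      have e : t n + b n = (t n - b n) + 2 * b n := by ring
      rw [e, IsUltrametricDist.norm_add_eq_max_of_norm_ne_norm h1.ne]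
      exact max_eq_right h1.le
    rw [le_div_iff₀ hμ0]
    calc ‖t n - b n‖ * μ ≤ ‖t n - b n‖ * ‖t n + b n‖ := by
          rw [h3]
          exact mul_le_mul_of_nonneg_left (hμ n) (norm_nonneg _)
      _ = ‖(t (n + 1) - b (n + 1)) + -(t (n + 1) - (t n ^ 2 + κ n))‖ := by
          rw [hd n, ← norm_mul]
          congr 1
          ring
      _ ≤ max ‖t (n + 1) - b (n + 1)‖ ‖-(t (n + 1) - (t n ^ 2 + κ n))‖ :=
          IsUltrametricDist.norm_add_le_max _ _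
      _ ≤ max ‖t (n + 1) - b (n + 1)‖ (C * ρ ^ 2 ^ n) := by
          rw [norm_neg]
          exact max_le_max le_rfl (hεb n)
  have hmain : ∀ m ∈ T, ∀ j n, n₃ ≤ n → n + j = m → ‖t n - b n‖ ≤ C' * ρ ^ 2 ^ n := by
    intro m hm j
    induction j with
    | zero =>
      intro n hn hnm
      rw [Nat.add_zero] at hnm
      subst hnm
      rw [hbT n hm (by omega)]
      exact (hTb n hm).trans (mul_le_mul_of_nonneg_right (le_max_left _ _) (pow_nonneg hρ.le _))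
    | succ j ih =>
      intro n hn hnm
      have h1 := ih (n + 1) (by omega) (by omega)
      refine (hback n hn).trans ?_
      rw [div_le_iff₀ hμ0]
      have hp : 0 < ρ ^ 2 ^ n := pow_pos hρ _
      refine max_le (h1.trans ?_) ?_
      · have e : ρ ^ 2 ^ (n + 1) = ρ ^ 2 ^ n * ρ ^ 2 ^ n := by
          rw [← pow_add]
          congr 1
          ring
        rw [e, ← mul_assoc]
        refine mul_le_mul_of_nonneg_left ?_ (mul_pos hC'0 hp).le
        have := hk₂ n (by omega)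
        rw [one_mul] at this
        exact this.le
      · have h4 : C ≤ C' * μ := by
          have : C / μ ≤ C' := le_max_right _ _
          rwa [div_le_iff₀ hμ0] at this
        calc C * ρ ^ 2 ^ n ≤ (C' * μ) * ρ ^ 2 ^ n := mul_le_mul_of_nonneg_right h4 hp.le
          _ = C' * ρ ^ 2 ^ n * μ := by ring
  refine per_ses_of_eventually (n₀ := n₃) hC'0 hρ hρ1 fun n hn => ?_
  obtain ⟨m, hm, hnm⟩ := per_exists_ge hT₁ n
  obtain ⟨j, hj⟩ := Nat.exists_eq_add_of_le hnm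
  exact hmain m hm j n hn hj.symm

end field

end Pool.Agent.DMC
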