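import Pool.Agent.Lib.MP_e9abfe_ag_DMC.Defs

/-!
# DMC, D1: calculus of super-exponentially small sequences; basic facts on orbits
-/

set_option autoImplicit false
set_option linter.unusedSectionVars false
set_option linter.unusedTactic false

namespace Pool.Agent.DMC

open MvPolynomial

section field

variable {L : Type} [NormedField L] [IsUltrametricDist L] [CharZero L]

theorem ses_of_eventually {f : ℕ → L} {n₀ : ℕ} {C ρ : ℝ} (hρ : 0 < ρ) (hρ1 : ρ < 1)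
    (h : ∀ n, n₀ ≤ n → ‖f n‖ ≤ C * ρ ^ 2 ^ n) : Ses f := by
  have hp : ∀ n : ℕ, 0 < ρ ^ 2 ^ n := fun n => pow_pos hρ _
  let g : ℕ → ℝ := fun n => ‖f n‖ / ρ ^ 2 ^ n
  have hg : ∀ n, 0 ≤ g n := fun n => div_nonneg (norm_nonneg _) (hp n).le
  refine ⟨max C 0 + (∑ i ∈ Finset.range n₀, g i) + 1, ρ, ?_, hρ, hρ1, ?_⟩
  · have := Finset.sum_nonneg (s := Finset.range n₀) (fun i _ => hg i)
    have := le_max_right C 0
    linarith
  · intro n
    have hs := Finset.sum_nonneg (s := Finset.range n₀) (fun i _ => hg i)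
    have hm := le_max_right C 0
    have hm' := le_max_left C 0
    rcases le_or_gt n₀ n with hn | hn
    · refine (h n hn).trans (mul_le_mul_of_nonneg_right ?_ (hp n).le)
      linarith
    · have h1 : g n ≤ ∑ i ∈ Finset.range n₀, g i :=
        Finset.single_le_sum (fun i _ => hg i) (Finset.mem_range.2 hn)
      have h2 : ‖f n‖ = g n * ρ ^ 2 ^ n := by
        simp only [g]
        field_simp [(hp n).ne']
      rw [h2]
      refine mul_le_mul_of_nonneg_right ?_ (hp n).le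
      linarith

theorem Ses.on {f : ℕ → L} (h : Ses f) (S : Set ℕ) : SesOn S f := by
  obtain ⟨C, ρ, hC, hρ, hρ1, h⟩ := h
  exact ⟨C, ρ, hC, hρ, hρ1, fun n _ => h n⟩

theorem SesL_of_univ {f : ℕ → L} (h : SesOn Set.univ f) : Ses f := by
  obtain ⟨C, ρ, hC, hρ, hρ1, h⟩ := h
  exact ⟨C, ρ, hC, hρ, hρ1, fun n => h n trivial⟩

theorem SesOn.mono {S : Set ℕ} {f g : ℕ → L} (h : SesOn S f) (hg : ∀ n ∈ S, ‖g n‖ ≤ ‖f n‖) :
    SesOn S g := by
  obtain ⟨C, ρ, hC, hρ, hρ1, h⟩ := h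
  exact ⟨C, ρ, hC, hρ, hρ1, fun n hn => (hg n hn).trans (h n hn)⟩

theorem Ses.mono {f g : ℕ → L} (h : Ses f) (hg : ∀ n, ‖g n‖ ≤ ‖f n‖) : Ses g :=
  SesL_of_univ ((h.on Set.univ).mono fun n _ => hg n)

theorem SesOn.subset {S T : Set ℕ} {f : ℕ → L} (h : SesOn S f) (hT : T ⊆ S) : SesOn T f := by
  obtain ⟨C, ρ, hC, hρ, hρ1, h⟩ := h
  exact ⟨C, ρ, hC, hρ, hρ1, fun n hn => h n (hT hn)⟩

theorem SesOn.add {S : Set ℕ} {f g : ℕ → L} (hf : SesOn S f) (hg : SesOn S g) :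
    SesOn S fun n => f n + g n := by
  obtain ⟨C, ρ, hC, hρ, hρ1, hf⟩ := hf
  obtain ⟨D, σ, hD, hσ, hσ1, hg⟩ := hg
  refine ⟨C + D, max ρ σ, by positivity, lt_max_of_lt_left hρ, max_lt hρ1 hσ1, fun n hn => ?_⟩
  have h1 : ρ ^ 2 ^ n ≤ (max ρ σ) ^ 2 ^ n := pow_le_pow_left₀ hρ.le (le_max_left _ _) _
  have h2 : σ ^ 2 ^ n ≤ (max ρ σ) ^ 2 ^ n := pow_le_pow_left₀ hσ.le (le_max_right _ _) _
  calc ‖f n + g n‖ ≤ ‖f n‖ + ‖g n‖ := norm_add_le _ _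
    _ ≤ C * ρ ^ 2 ^ n + D * σ ^ 2 ^ n := add_le_add (hf n hn) (hg n hn)
    _ ≤ C * (max ρ σ) ^ 2 ^ n + D * (max ρ σ) ^ 2 ^ n :=
        add_le_add (mul_le_mul_of_nonneg_left h1 hC.le) (mul_le_mul_of_nonneg_left h2 hD.le)
    _ = (C + D) * (max ρ σ) ^ 2 ^ n := by ring

theorem Ses.add {f g : ℕ → L} (hf : Ses f) (hg : Ses g) : Ses fun n => f n + g n :=
  SesL_of_univ ((hf.on Set.univ).add (hg.on Set.univ))

theorem Ses.neg {f : ℕ → L} (hf : Ses f) : Ses fun n => -f n :=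
  hf.mono fun n => by rw [norm_neg]

/-- exponential growth is beaten by super-exponential decay -/
theorem SesL_bound {r B : ℝ} (hr : 0 < r) (hr1 : r < 1) (hB : 0 ≤ B) :
    ∃ M : ℝ, 0 < M ∧ ∀ n : ℕ, B ^ n * r ^ 2 ^ n ≤ M := by
  -- `B * r ^ 2 ^ n ≤ 1` eventually, so `a n = B ^ n * r ^ 2 ^ n` is eventually decreasing
  have htend : Filter.Tendsto (fun n : ℕ => B * r ^ 2 ^ n) Filter.atTop (nhds (B * 0)) := by
    refine Filter.Tendsto.const_mul B ?_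
    exact (tendsto_pow_atTop_nhds_zero_of_lt_one hr.le hr1).comp
      (tendsto_pow_atTop_atTop_of_one_lt (by norm_num : (1 : ℕ) < 2))
  rw [mul_zero] at htend
  obtain ⟨n₀, hn₀⟩ := Filter.eventually_atTop.1
    (htend.eventually (gt_mem_nhds (show (0 : ℝ) < 1 by norm_num)))
  let a : ℕ → ℝ := fun n => B ^ n * r ^ 2 ^ n
  have ha : ∀ n, 0 ≤ a n := fun n => mul_nonneg (pow_nonneg hB _) (pow_pos hr _).le
  have hstep : ∀ n, n₀ ≤ n → a (n + 1) ≤ a n := by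
    intro n hn
    have h1 : a (n + 1) = a n * (B * r ^ 2 ^ n) := by
      simp only [a]
      rw [pow_succ B n, pow_succ 2 n, pow_mul, sq]
      ring
    rw [h1]
    exact mul_le_of_le_one_right (ha n) (hn₀ n hn).le
  have hdec : ∀ k, a (n₀ + k) ≤ a n₀ := by
    intro k
    induction k with
    | zero => exact le_refl _
    | succ k ih => exact (hstep (n₀ + k) (Nat.le_add_right _ _)).trans ih
  refine ⟨(∑ i ∈ Finset.range (n₀ + 1), a i) + 1, ?_, fun n => ?_⟩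
  · have := Finset.sum_nonneg (s := Finset.range (n₀ + 1)) (fun i _ => ha i)
    linarith
  · have key : ∀ m, m ≤ n₀ → a m ≤ ∑ i ∈ Finset.range (n₀ + 1), a i := fun m hm =>
      Finset.single_le_sum (fun i _ => ha i) (Finset.mem_range.2 (Nat.lt_succ_of_le hm))
    rcases le_total n₀ n with hn | hn
    · obtain ⟨k, rfl⟩ := Nat.exists_eq_add_of_le hn
      have := hdec k
      have := key n₀ le_rfl
      change a (n₀ + k) ≤ _
      linarith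
    · have := key n hn
      change a n ≤ _
      linarith

/-- product with a sequence of at most exponential growth -/
theorem Ses.mul_bdd {f g : ℕ → L} (hf : Ses f) {A B : ℝ} (hg : ∀ n, ‖g n‖ ≤ A * B ^ n) :
    Ses fun n => f n * g n := by
  obtain ⟨C, ρ, hC, hρ, hρ1, hf⟩ := hf
  obtain ⟨σ, hσ1, hσ2⟩ := exists_between hρ1
  have hσ : 0 < σ := hρ.trans hσ1
  have hr : 0 < ρ / σ := div_pos hρ hσ
  have hr1 : ρ / σ < 1 := (div_lt_one hσ).2 hσ1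
  obtain ⟨M, hM, hbd⟩ := SesL_bound hr hr1 (abs_nonneg B)
  refine ⟨C * (|A| + 1) * M, σ, by positivity, hσ, hσ2, fun n => ?_⟩
  have h1 : ‖g n‖ ≤ (|A| + 1) * |B| ^ n := by
    calc ‖g n‖ ≤ A * B ^ n := hg n
      _ ≤ |A * B ^ n| := le_abs_self _
      _ = |A| * |B| ^ n := by rw [abs_mul, abs_pow]
      _ ≤ (|A| + 1) * |B| ^ n := by
        refine mul_le_mul_of_nonneg_right (by linarith) (pow_nonneg (abs_nonneg _) _)
  have h2 : ρ ^ 2 ^ n = (ρ / σ) ^ 2 ^ n * σ ^ 2 ^ n := by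
    rw [← mul_pow, div_mul_cancel₀ _ hσ.ne']
  rw [norm_mul]
  calc ‖f n‖ * ‖g n‖ ≤ (C * ρ ^ 2 ^ n) * ((|A| + 1) * |B| ^ n) :=
        mul_le_mul (hf n) h1 (norm_nonneg _) (by positivity)
    _ = C * (|A| + 1) * (|B| ^ n * (ρ / σ) ^ 2 ^ n) * σ ^ 2 ^ n := by rw [h2]; ring
    _ ≤ C * (|A| + 1) * M * σ ^ 2 ^ n := by
        refine mul_le_mul_of_nonneg_right ?_ (pow_pos hσ _).le
        exact mul_le_mul_of_nonneg_left (hbd n) (by positivity)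

theorem Ses.shift {f : ℕ → L} (hf : Ses f) (m : ℕ) : Ses fun n => f (n + m) := by
  obtain ⟨C, ρ, hC, hρ, hρ1, hf⟩ := hf
  refine ⟨C, ρ, hC, hρ, hρ1, fun n => (hf (n + m)).trans ?_⟩
  refine mul_le_mul_of_nonneg_left ?_ hC.le
  exact pow_le_pow_of_le_one hρ.le hρ1.le (Nat.pow_le_pow_right (by norm_num) (by omega))

theorem SesOn.root {S : Set ℕ} {f : ℕ → L} {d : ℕ} (hd : 0 < d)
    (h : SesOn S fun n => f n ^ d) : SesOn S f := by
  obtain ⟨C, ρ, hC, hρ, hρ1, h⟩ := h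
  have hd' : (0 : ℝ) < d := by exact_mod_cast hd
  have hi : (0 : ℝ) < (d : ℝ)⁻¹ := inv_pos.2 hd'
  refine ⟨C ^ ((d : ℝ)⁻¹), ρ ^ ((d : ℝ)⁻¹), Real.rpow_pos_of_pos hC _,
    Real.rpow_pos_of_pos hρ _, Real.rpow_lt_one hρ.le hρ1 hi, fun n hn => ?_⟩
  have h1 : ‖f n‖ ^ d ≤ C * ρ ^ 2 ^ n := by
    have := h n hn
    simpa [norm_pow] using this
  have h2 : (C ^ ((d : ℝ)⁻¹) * (ρ ^ ((d : ℝ)⁻¹)) ^ 2 ^ n) ^ d = C * ρ ^ 2 ^ n := by
    rw [mul_pow, Real.rpow_inv_natCast_pow hC.le hd.ne', ← pow_mul, mul_comm (2 ^ n) d, pow_mul,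
      Real.rpow_inv_natCast_pow hρ.le hd.ne']
  have h3 : 0 ≤ C ^ ((d : ℝ)⁻¹) * (ρ ^ ((d : ℝ)⁻¹)) ^ 2 ^ n := by positivity
  rw [← h2] at h1
  exact (pow_le_pow_iff_left₀ (norm_nonneg _) h3 hd.ne').1 h1

/-- `n`-th roots of small sequences are small -/
theorem Ses.root {f : ℕ → L} {d : ℕ} (hd : 0 < d) (h : Ses fun n => f n ^ d) : Ses f :=
  SesL_of_univ ((h.on Set.univ).root hd)

/-- small sequences tend to zero, uniformly on `S` -/
theorem SesOn.lt {S : Set ℕ} {f : ℕ → L} (h : SesOn S f) {ε : ℝ} (hε : 0 < ε) :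
    ∃ n₀ : ℕ, ∀ n ∈ S, n₀ ≤ n → ‖f n‖ < ε := by
  obtain ⟨C, ρ, hC, hρ, hρ1, h⟩ := h
  have htend : Filter.Tendsto (fun n : ℕ => C * ρ ^ 2 ^ n) Filter.atTop (nhds (C * 0)) := by
    refine Filter.Tendsto.const_mul C ?_
    exact (tendsto_pow_atTop_nhds_zero_of_lt_one hρ.le hρ1).comp
      (tendsto_pow_atTop_atTop_of_one_lt (by norm_num : (1 : ℕ) < 2))
  rw [mul_zero] at htend
  obtain ⟨n₀, hn₀⟩ := Filter.eventually_atTop.1 (htend.eventually (gt_mem_nhds hε))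
  exact ⟨n₀, fun n hn hn' => (h n hn).trans_lt (hn₀ n hn')⟩

theorem Ses.lt {f : ℕ → L} (h : Ses f) {ε : ℝ} (hε : 0 < ε) :
    ∃ n₀ : ℕ, ∀ n, n₀ ≤ n → ‖f n‖ < ε := by
  obtain ⟨n₀, hn₀⟩ := (h.on Set.univ).lt hε
  exact ⟨n₀, fun n hn => hn₀ n trivial hn⟩

theorem Sq.pow_eq {U : ℕ → L} (hU : Sq U) (n : ℕ) : U n = U 0 ^ 2 ^ n := by
  induction n with
  | zero => simp
  | succ n ih => rw [hU.succ, ih, ← pow_mul, pow_succ]

theorem Sq.norm {U : ℕ → L} (hU : Sq U) (n : ℕ) : ‖U n‖ = ‖U 0‖ ^ 2 ^ n := by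
  rw [hU.pow_eq n, norm_pow]

theorem Sq.one_lt_norm {U : ℕ → L} (hU : Sq U) (n : ℕ) : 1 < ‖U n‖ := by
  rw [hU.norm n]
  exact one_lt_pow₀ hU.one_lt (by positivity)

theorem Sq.ne {U : ℕ → L} (hU : Sq U) (n : ℕ) : U n ≠ 0 := by
  intro h
  have := hU.one_lt_norm n
  rw [h, norm_zero] at this
  linarith

theorem Sq.ses {U : ℕ → L} (hU : Sq U) : Ses fun n => (U n)⁻¹ := by
  have h0 : 0 < ‖U 0‖ := lt_trans one_pos hU.one_lt
  refine ⟨1, ‖U 0‖⁻¹, one_pos, inv_pos.2 h0, inv_lt_one_of_one_lt₀ hU.one_lt, fun n => ?_⟩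
  rw [norm_inv, hU.norm n, one_mul, inv_pow]

theorem Sq.large {U : ℕ → L} (hU : Sq U) (B : ℝ) : ∃ n₀ : ℕ, ∀ n, n₀ ≤ n → B ≤ ‖U n‖ := by
  have htend : Filter.Tendsto (fun n : ℕ => ‖U 0‖ ^ 2 ^ n) Filter.atTop Filter.atTop :=
    (tendsto_pow_atTop_atTop_of_one_lt hU.one_lt).comp
      (tendsto_pow_atTop_atTop_of_one_lt (by norm_num : (1 : ℕ) < 2))
  obtain ⟨n₀, hn₀⟩ := Filter.eventually_atTop.1 (htend.eventually (Filter.eventually_ge_atTop B))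
  exact ⟨n₀, fun n hn => by rw [hU.norm n]; exact hn₀ n hn⟩

/-- a root of a squaring orbit is a squaring orbit -/
theorem Sq.root [IsAlgClosed L] {U : ℕ → L} (hU : Sq U) {d : ℕ} (hd : 0 < d) :
    ∃ V : ℕ → L, Sq V ∧ ∀ n, V n ^ d = U n := by
  obtain ⟨v, hv⟩ := IsAlgClosed.exists_pow_nat_eq (U 0) hd
  refine ⟨fun n => v ^ 2 ^ n, ⟨fun n => ?_, ?_⟩, fun n => ?_⟩
  · change v ^ 2 ^ (n + 1) = (v ^ 2 ^ n) ^ 2
    rw [← pow_mul, pow_succ]
  · change 1 < ‖v ^ 2 ^ 0‖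
    rw [pow_zero, pow_one]
    by_contra hcon
    push Not at hcon
    have h1 : ‖U 0‖ ≤ 1 := by
      rw [← hv, norm_pow]
      exact pow_le_one₀ (norm_nonneg _) hcon
    exact absurd hU.one_lt (not_lt.2 h1)
  · change (v ^ 2 ^ n) ^ d = U n
    rw [← pow_mul, mul_comm, pow_mul, hv, hU.pow_eq n]

theorem SesL_orb {x y z : ℕ → L} (h : Orb x y z) (n : ℕ) :
    ‖x n‖ = ‖x 0‖ ^ 2 ^ n ∧ ‖y n‖ ≤ ‖x n‖ ∧ ‖z n‖ ≤ ‖x n‖ ∧ 1 < ‖x n‖ := by
  induction n with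
  | zero => exact ⟨by simp, h.y_le, h.z_le, h.one_lt⟩
  | succ n ih =>
    obtain ⟨h1, h2, h3, h4⟩ := ih
    have hlt : ‖x n‖ < ‖x n‖ ^ 2 := by nlinarith
    have hx : ‖x (n + 1)‖ = ‖x n‖ ^ 2 := by
      rw [h.x_succ]
      have hne : ‖x n ^ 2‖ ≠ ‖y n‖ := by
        rw [norm_pow]
        exact (h2.trans_lt hlt).ne'
      rw [IsUltrametricDist.norm_add_eq_max_of_norm_ne_norm hne, norm_pow]
      exact max_eq_left (h2.trans hlt.le)
    have hy : ‖y (n + 1)‖ ≤ ‖x (n + 1)‖ := by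
      rw [hx, h.y_succ]
      refine (IsUltrametricDist.norm_add_le_max _ _).trans (max_le ?_ (h3.trans hlt.le))
      rw [norm_pow]
      exact pow_le_pow_left₀ (norm_nonneg _) h2 2
    have hz : ‖z (n + 1)‖ ≤ ‖x (n + 1)‖ := by
      rw [hx, h.z_succ]
      refine (IsUltrametricDist.norm_add_le_max _ _).trans (max_le ?_ hlt.le)
      rw [norm_pow]
      exact pow_le_pow_left₀ (norm_nonneg _) h3 2
    refine ⟨?_, hy, hz, ?_⟩
    · rw [hx, h1, ← pow_mul, pow_succ]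
    · rw [hx]; exact h4.trans hlt

theorem Orb.norm_x {x y z : ℕ → L} (h : Orb x y z) (n : ℕ) : ‖x n‖ = ‖x 0‖ ^ 2 ^ n :=
  (SesL_orb h n).1

theorem Orb.norm_y {x y z : ℕ → L} (h : Orb x y z) (n : ℕ) : ‖y n‖ ≤ ‖x n‖ :=
  (SesL_orb h n).2.1

theorem Orb.norm_z {x y z : ℕ → L} (h : Orb x y z) (n : ℕ) : ‖z n‖ ≤ ‖x n‖ :=
  (SesL_orb h n).2.2.1

theorem Orb.shift {x y z : ℕ → L} (h : Orb x y z) (m : ℕ) :
    Orb (fun n => x (n + m)) (fun n => y (n + m)) (fun n => z (n + m)) where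
  x_succ n := by
    have := h.x_succ (n + m)
    rwa [show n + m + 1 = n + 1 + m by omega] at this
  y_succ n := by
    have := h.y_succ (n + m)
    rwa [show n + m + 1 = n + 1 + m by omega] at this
  z_succ n := by
    have := h.z_succ (n + m)
    rwa [show n + m + 1 = n + 1 + m by omega] at this
  one_lt := (SesL_orb h (0 + m)).2.2.2
  y_le := h.norm_y (0 + m)
  z_le := h.norm_z (0 + m)

theorem Rel.shift {S : Set ℕ} {x w : ℕ → L} (h : Rel S x w) (m : ℕ) :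
    Rel {n | n + m ∈ S} (fun n => x (n + m)) (fun n => w (n + m)) := by
  obtain ⟨H, hH, h⟩ := h
  exact ⟨H, hH, fun n hn => h (n + m) hn⟩

end field

end Pool.Agent.DMC
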