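import Pool.Agent.Lib.MP_e9abfe_ag_DMC.Defs
import Pool.Agent.Lib.MP_e9abfe_ag_DMC.SesL

/-!
# D3: the leading part of a relation; rational exponents
-/

set_option autoImplicit false

namespace Pool.Agent.DMC

open MvPolynomial

variable {L : Type} [NormedField L] [IsUltrametricDist L] [CharZero L]

omit [CharZero L] in
theorem top_eval (H : MvPolynomial (Fin 2) L) (a b : L) :
    eval ![a, b] H = ∑ m ∈ H.support, H.coeff m * (a ^ m 0 * b ^ m 1) := by
  rw [eval_eq']
  refine Finset.sum_congr rfl fun m _ => ?_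
  simp [Fin.prod_univ_two]

theorem top_ses_zero : Ses fun _ : ℕ => (0 : L) :=
  ⟨1, 1 / 2, one_pos, by norm_num, by norm_num, fun n => by
    simp only [norm_zero]
    positivity⟩

theorem top_ses_sum {ι : Type} (s : Finset ι) {f : ι → ℕ → L} (h : ∀ i ∈ s, Ses (f i)) :
    Ses fun n => ∑ i ∈ s, f i n := by
  classical
  induction s using Finset.induction_on with
  | empty => simpa using top_ses_zero
  | insert a s ha ih =>
    have := (h a (Finset.mem_insert_self a s)).add
      (ih fun i hi => h i (Finset.mem_insert_of_mem hi))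
    simpa [Finset.sum_insert ha] using this

/-- product with a bounded sequence -/
theorem top_mul {f g : ℕ → L} (hf : Ses f) {A : ℝ} (hg : ∀ n, ‖g n‖ ≤ A) :
    Ses fun n => f n * g n :=
  hf.mul_bdd (A := A) (B := 1) fun n => by simpa using hg n

theorem top_bdd {f : ℕ → L} (hf : Ses fun n => f n - 1) : ∃ C : ℝ, 1 ≤ C ∧ ∀ n, ‖f n‖ ≤ C := by
  obtain ⟨C, ρ, hC, hρ, hρ1, h⟩ := hf
  refine ⟨1 + C, by linarith, fun n => ?_⟩
  have h1 : ‖f n - 1‖ ≤ C := (h n).trans (by
    have : ρ ^ 2 ^ n ≤ 1 := pow_le_one₀ hρ.le hρ1.le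
    nlinarith)
  calc ‖f n‖ = ‖1 + (f n - 1)‖ := by congr 1; ring
    _ ≤ ‖(1 : L)‖ + ‖f n - 1‖ := norm_add_le _ _
    _ ≤ 1 + C := by rw [norm_one]; linarith

theorem top_pow {f : ℕ → L} (hf : Ses fun n => f n - 1) (k : ℕ) : Ses fun n => f n ^ k - 1 := by
  obtain ⟨C, hC1, hC⟩ := top_bdd hf
  induction k with
  | zero => simpa using top_ses_zero
  | succ k ih =>
    have := (top_mul hf (g := fun n => f n ^ k) (A := C ^ k) fun n => by
      rw [norm_pow]
      exact pow_le_pow_left₀ (norm_nonneg _) (hC n) k).add ih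
    refine this.mono fun n => le_of_eq ?_
    congr 1
    ring

theorem top_rel {x w U : ℕ → L} {p s : ℕ} (hp : 0 < p) (hU : Sq U)
    (hx : Ses fun n => x n / U n ^ p - 1) (hw : ∀ n, ‖w n‖ ≤ ‖U n‖ ^ s) {S : Set ℕ}
    (h : Rel S x w) : ∃ Q : Polynomial L, Q ≠ 0 ∧ SesOn S fun n => Q.eval (w n / U n ^ s) := by
  classical
  obtain ⟨H, hH, hS⟩ := h
  set wt : (Fin 2 →₀ ℕ) → ℕ := fun m => p * m 0 + s * m 1 with hwt
  set D : ℕ := H.support.sup wt with hD
  have hne : H.support.Nonempty := by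
    rw [Finset.nonempty_iff_ne_empty]
    exact fun h0 => hH (by rwa [support_eq_empty] at h0)
  obtain ⟨ms, hms, hmsD⟩ := Finset.exists_mem_eq_sup H.support hne wt
  set Q : Polynomial L := ∑ m ∈ H.support.filter (fun m => wt m = D),
    Polynomial.monomial (m 1) (H.coeff m) with hQ
  refine ⟨Q, ?_, ?_⟩
  · intro h0
    have h1 : Q.coeff (ms 1) = H.coeff ms := by
      rw [hQ, Polynomial.finsetSum_coeff,
        Finset.sum_eq_single_of_mem ms (Finset.mem_filter.mpr ⟨hms, hmsD.symm⟩)]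
      · simp
      · intro m hm hne'
        rw [Polynomial.coeff_monomial, if_neg]
        intro h1
        apply hne'
        have h2 := (Finset.mem_filter.mp hm).2
        have h3 : wt m = wt ms := h2.trans hmsD
        have h4 : m 0 = ms 0 := by
          simp only [hwt, h1] at h3
          have : p * m 0 = p * ms 0 := by omega
          exact Nat.eq_of_mul_eq_mul_left hp this
        ext i
        fin_cases i
        · exact h4
        · exact h1
    rw [h0, Polynomial.coeff_zero] at h1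
    exact (mem_support_iff.mp hms) h1.symm
  · set u : ℕ → L := fun n => x n / U n ^ p with hu
    set t : ℕ → L := fun n => w n / U n ^ s with ht
    have hU0 : ∀ n, U n ≠ 0 := hU.ne
    have hU1 : ∀ n, 1 < ‖U n‖ := hU.one_lt_norm
    have htb : ∀ n, ‖t n‖ ≤ 1 := fun n => by
      simp only [ht, norm_div, norm_pow]
      exact (div_le_one (pow_pos (by linarith [hU1 n]) _)).mpr (hw n)
    obtain ⟨C, hC1, hC⟩ := top_bdd hx
    have key : Ses fun n => Q.eval (t n) - eval ![x n, w n] H / U n ^ D := by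
      have e : ∀ n, Q.eval (t n) - eval ![x n, w n] H / U n ^ D =
          ∑ m ∈ H.support, if wt m = D then (u n ^ m 0 - 1) * (-(H.coeff m * t n ^ m 1))
            else (U n)⁻¹ * (-(H.coeff m * (u n ^ m 0 * t n ^ m 1) *
              (U n ^ wt m / U n ^ (D - 1)))) := by
        intro n
        rw [top_eval, hQ, Polynomial.eval_finsetSum, Finset.sum_filter, Finset.sum_div,
          ← Finset.sum_sub_distrib]
        refine Finset.sum_congr rfl fun m hm => ?_
        have hxe : x n = u n * U n ^ p := by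
          simp only [hu]
          field_simp [hU0 n]
        have hwe : w n = t n * U n ^ s := by
          simp only [ht]
          field_simp [hU0 n]
        have hle : wt m ≤ D := Finset.le_sup (f := wt) hm
        have e1 : x n ^ m 0 * w n ^ m 1 = u n ^ m 0 * t n ^ m 1 * U n ^ wt m := by
          rw [hxe, hwe]
          simp only [hwt]
          rw [pow_add, pow_mul, pow_mul, mul_pow, mul_pow]
          ring
        rw [e1]
        have hUD : U n ^ D ≠ 0 := pow_ne_zero _ (hU0 n)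
        split_ifs with hc
        · rw [Polynomial.eval_monomial, hc]
          field_simp
          ring
        · have hD1 : U n ^ D = U n * U n ^ (D - 1) := by
            rw [← pow_succ']
            congr 1
            omega
          rw [hD1]
          have hUD1 : U n ^ (D - 1) ≠ 0 := pow_ne_zero _ (hU0 n)
          have := hU0 n
          field_simp
          ring
      simp_rw [e]
      refine top_ses_sum H.support fun m hm => ?_
      have hle : wt m ≤ D := Finset.le_sup (f := wt) hm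
      split_ifs with hc
      · refine top_mul (top_pow hx _) (A := ‖H.coeff m‖) fun n => ?_
        rw [norm_neg, norm_mul, norm_pow]
        exact mul_le_of_le_one_right (norm_nonneg _) (pow_le_one₀ (norm_nonneg _) (htb n))
      · refine top_mul hU.ses (A := ‖H.coeff m‖ * (C ^ m 0 * 1) * 1) fun n => ?_
        have h1 : ‖u n ^ m 0‖ ≤ C ^ m 0 := by
          rw [norm_pow]
          exact pow_le_pow_left₀ (norm_nonneg _) (hC n) _
        have h2 : ‖t n ^ m 1‖ ≤ 1 := by
          rw [norm_pow]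
          exact pow_le_one₀ (norm_nonneg _) (htb n)
        have h3 : ‖U n ^ wt m / U n ^ (D - 1)‖ ≤ 1 := by
          rw [norm_div, norm_pow, norm_pow, div_le_one (pow_pos (by linarith [hU1 n]) _)]
          exact pow_le_pow_right₀ (hU1 n).le (by omega)
        rw [norm_neg, norm_mul, norm_mul, norm_mul]
        exact mul_le_mul (mul_le_mul_of_nonneg_left (mul_le_mul h1 h2 (norm_nonneg _)
          (by positivity)) (norm_nonneg _)) h3 (norm_nonneg _) (by positivity)
    obtain ⟨C', ρ, hC', hρ, hρ1, hk⟩ := key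
    refine ⟨C', ρ, hC', hρ, hρ1, fun n hn => ?_⟩
    have h1 : ‖Q.eval (t n) - eval ![x n, w n] H / U n ^ D‖ ≤ C' * ρ ^ 2 ^ n := hk n
    rw [hS n hn, zero_div, sub_zero] at h1
    exact h1

/-- comparison of double exponentials -/
theorem top_dexp {a b A B : ℝ} (ha : 0 ≤ a) (hab : a < b) (hB : 0 < B) :
    ∃ n₀ : ℕ, ∀ n, n₀ ≤ n → A * a ^ 2 ^ n < B * b ^ 2 ^ n := by
  have hb : 0 < b := lt_of_le_of_lt ha hab
  have hr0 : 0 ≤ a / b := div_nonneg ha hb.le
  have hr1 : a / b < 1 := (div_lt_one hb).mpr hab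
  have h1 : Filter.Tendsto (fun n : ℕ => (a / b) ^ 2 ^ n) Filter.atTop (nhds 0) :=
    (tendsto_pow_atTop_nhds_zero_of_lt_one hr0 hr1).comp
      (tendsto_pow_atTop_atTop_of_one_lt (by norm_num : (1 : ℕ) < 2))
  have h2 : Filter.Tendsto (fun n : ℕ => A * (a / b) ^ 2 ^ n) Filter.atTop (nhds 0) := by
    simpa using h1.const_mul A
  obtain ⟨n₀, hn₀⟩ := Filter.eventually_atTop.mp (h2.eventually_lt_const hB)
  refine ⟨n₀, fun n hn => ?_⟩
  have h3 := hn₀ n hn
  have h4 : 0 < b ^ 2 ^ n := pow_pos hb _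
  rw [div_pow, mul_div_assoc', div_lt_iff₀ h4] at h3
  exact h3

/-- rational exponents -/
theorem rat_exp {x w U : ℕ → L} {p : ℕ} (hp : 0 < p) (hU : Sq U)
    (hx : ∀ n, ‖x n‖ = ‖U n‖ ^ p) {ζ : ℝ} (hζ : 1 < ζ) (hw : ∀ n, ‖w n‖ = ζ ^ 2 ^ n) {S : Set ℕ}
    (hS : S.Infinite) (h : Rel S x w) : ∃ a d : ℕ, 0 < a ∧ 0 < d ∧ ζ ^ d = ‖U 0‖ ^ a := by
  classical
  obtain ⟨H, hH, hHS⟩ := h
  set α : ℝ := ‖U 0‖ ^ p with hα
  have hα1 : 1 < α := one_lt_pow₀ hU.one_lt hp.ne'
  set V : (Fin 2 →₀ ℕ) → ℝ := fun m => α ^ m 0 * ζ ^ m 1 with hV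
  have hVpos : ∀ m, 0 < V m := fun m => by positivity
  have hne : H.support.Nonempty := by
    rw [Finset.nonempty_iff_ne_empty]
    exact fun h0 => hH (by rwa [support_eq_empty] at h0)
  -- norm of a term
  have hterm : ∀ (m : Fin 2 →₀ ℕ) (n : ℕ),
      ‖H.coeff m * (x n ^ m 0 * w n ^ m 1)‖ = ‖H.coeff m‖ * V m ^ 2 ^ n := by
    intro m n
    rw [norm_mul, norm_mul, norm_pow, norm_pow, hx, hw, hU.norm]
    simp only [hV, hα]
    rw [mul_pow]
    congr 2 <;> ring
  -- two monomials with the same value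
  have hdup : ∃ m ∈ H.support, ∃ m' ∈ H.support, m ≠ m' ∧ V m = V m' := by
    by_contra hcon
    push Not at hcon
    obtain ⟨ms, hms, hmax⟩ := Finset.exists_max_image H.support V hne
    have hlt : ∀ m ∈ H.support, m ≠ ms → V m < V ms := fun m hm hne' =>
      lt_of_le_of_ne (hmax m hm) (hcon m hm ms hms hne')
    have hev : ∀ m ∈ H.support, m ≠ ms → ∃ n₀ : ℕ, ∀ n, n₀ ≤ n →
        ‖H.coeff m * (x n ^ m 0 * w n ^ m 1)‖ < ‖H.coeff ms * (x n ^ ms 0 * w n ^ ms 1)‖ := by
      intro m hm hne'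
      obtain ⟨n₀, hn₀⟩ := top_dexp (A := ‖H.coeff m‖) (B := ‖H.coeff ms‖) (hVpos m).le
        (hlt m hm hne') (norm_pos_iff.mpr (mem_support_iff.mp hms))
      exact ⟨n₀, fun n hn => by rw [hterm, hterm]; exact hn₀ n hn⟩
    choose! N hN using hev
    obtain ⟨n, hn, hnS⟩ : ∃ n, H.support.sup N ≤ n ∧ n ∈ S := by
      obtain ⟨n, hnS, hn⟩ := hS.exists_gt (H.support.sup N)
      exact ⟨n, hn.le, hnS⟩
    have h0 := hHS n hnS
    rw [top_eval, ← Finset.add_sum_erase _ _ hms] at h0
    have h1 : ‖∑ m ∈ H.support.erase ms, H.coeff m * (x n ^ m 0 * w n ^ m 1)‖ <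
        ‖H.coeff ms * (x n ^ ms 0 * w n ^ ms 1)‖ := by
      have hpos : 0 < ‖H.coeff ms * (x n ^ ms 0 * w n ^ ms 1)‖ := by
        rw [hterm]
        exact mul_pos (norm_pos_iff.mpr (mem_support_iff.mp hms)) (pow_pos (hVpos ms) _)
      rcases (H.support.erase ms).eq_empty_or_nonempty with he | he
      · rw [he, Finset.sum_empty, norm_zero]
        exact hpos
      · obtain ⟨m, hm, hle⟩ := IsUltrametricDist.exists_norm_finsetSum_le_of_nonempty he
          (fun m => H.coeff m * (x n ^ m 0 * w n ^ m 1))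
        refine hle.trans_lt (hN m (Finset.mem_of_mem_erase hm) (Finset.ne_of_mem_erase hm) n ?_)
        exact (Finset.le_sup (f := N) (Finset.mem_of_mem_erase hm)).trans hn
    have h2 : H.coeff ms * (x n ^ ms 0 * w n ^ ms 1) =
        -∑ m ∈ H.support.erase ms, H.coeff m * (x n ^ m 0 * w n ^ m 1) := by
      exact eq_neg_of_add_eq_zero_left h0
    rw [h2, norm_neg] at h1
    exact lt_irrefl _ h1
  obtain ⟨m, -, m', -, hmm, hVV⟩ := hdup
  -- conclusion
  have main : ∀ m m' : Fin 2 →₀ ℕ, m 0 < m' 0 → V m = V m' →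
      ∃ a d : ℕ, 0 < a ∧ 0 < d ∧ ζ ^ d = ‖U 0‖ ^ a := by
    intro m m' h0 hVV
    simp only [hV] at hVV
    have hlt : m' 1 < m 1 := by
      by_contra hcon
      push Not at hcon
      have h1 : ζ ^ m 1 ≤ ζ ^ m' 1 := pow_le_pow_right₀ hζ.le hcon
      have h2 : α ^ m 0 < α ^ m' 0 := pow_lt_pow_right₀ hα1 h0
      have h3 : 0 < ζ ^ m 1 := by positivity
      have h4 : 0 < α ^ m 0 := by positivity
      nlinarith
    refine ⟨p * (m' 0 - m 0), m 1 - m' 1, Nat.mul_pos hp (by omega), by omega, ?_⟩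
    have hζ0 : 0 < ζ ^ m' 1 := by positivity
    have hα0 : 0 < α ^ m 0 := by positivity
    have e1 : ζ ^ m 1 = ζ ^ (m 1 - m' 1) * ζ ^ m' 1 := by
      rw [← pow_add]
      congr 1
      omega
    have e2 : α ^ m' 0 = α ^ (m' 0 - m 0) * α ^ m 0 := by
      rw [← pow_add]
      congr 1
      omega
    rw [e1, e2] at hVV
    rw [pow_mul, ← hα]
    have h5 : (α ^ m 0 * ζ ^ m' 1) * ζ ^ (m 1 - m' 1) =
        (α ^ m 0 * ζ ^ m' 1) * α ^ (m' 0 - m 0) := by linarith
    exact mul_left_cancel₀ (mul_pos hα0 hζ0).ne' h5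
  rcases lt_trichotomy (m 0) (m' 0) with h0 | h0 | h0
  · exact main m m' h0 hVV
  · exfalso
    apply hmm
    simp only [hV, h0] at hVV
    have hα0 : 0 < α ^ m' 0 := by positivity
    have h1 : ζ ^ m 1 = ζ ^ m' 1 := mul_left_cancel₀ hα0.ne' hVV
    have h2 : m 1 = m' 1 := pow_right_injective₀ (by linarith) hζ.ne' h1
    ext i
    fin_cases i
    · exact h0
    · exact h2
  · exact main m' m h0 hVV.symm

end Pool.Agent.DMC
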