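import Pool.Agent.Lib.MP_e9abfe_ag_DMC.SesL
import Pool.Agent.Lib.MP_e9abfe_ag_DMC.Boe
import Pool.Agent.Lib.MP_e9abfe_ag_DMC.Top
import Pool.Agent.Lib.MP_e9abfe_ag_DMC.Per
import Pool.Agent.Lib.MP_e9abfe_ag_DMC.Nz

/-!
# DMC module D6: leading term of `z`
-/

set_option autoImplicit false

namespace Pool.Agent.DMC

open MvPolynomial

variable {L : Type} [NormedField L] [IsUltrametricDist L] [CharZero L]

theorem AsyZ_norm_one {t b : ℕ → L} {N : ℕ} (hN : 0 < N) (hb : ∀ n, b (n + N) = b n)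
    (ht : ∀ n, ‖t n‖ = 1) (hlim : ∀ ε : ℝ, 0 < ε → ∃ n₀ : ℕ, ∀ n, n₀ ≤ n → ‖t n - b n‖ < ε)
    (n : ℕ) : ‖b n‖ = 1 := by
  obtain ⟨n₀, h⟩ := hlim 1 one_pos
  have h1 : ∀ j, b (n + j * N) = b n := by
    intro j
    induction j with
    | zero => simp
    | succ j ih => rw [show n + (j + 1) * N = n + j * N + N by ring, hb, ih]
  have h2 : n₀ ≤ n + n₀ * N := by
    have : n₀ * 1 ≤ n₀ * N := Nat.mul_le_mul_left _ hN
    omega
  have h3 := h _ h2
  rw [h1] at h3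
  have h4 : b n = t (n + n₀ * N) + -(t (n + n₀ * N) - b n) := by ring
  rw [h4, IsUltrametricDist.norm_add_eq_max_of_norm_ne_norm, ht, norm_neg, max_eq_left h3.le]
  rw [ht, norm_neg]
  exact h3.ne'

theorem AsyZ_caseA [IsAlgClosed L] (h2 : ‖(2 : L)‖ < 1) {x y z X : ℕ → L}
    (h : Orb x y z) (hX : Sq X) (hXn : ∀ n, ‖X n‖ = ‖x n‖) (hXs : Ses fun n => x n / X n - 1)
    (h0 : ‖x 0‖ < ‖z 0‖ ^ 2) {S : Set ℕ} (hS : S.Infinite) (hz : Rel S x z) :
    ∃ (U : ℕ → L) (p s N : ℕ) (c : ℕ → L), AsyZ x z U p s N c := by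
  have hx2 : ∀ n, ‖x (n + 1)‖ = ‖x n‖ ^ 2 := by
    intro n
    rw [h.norm_x (n + 1), h.norm_x n, ← pow_mul, pow_succ]
  have hzn : ∀ n, ‖x n‖ < ‖z n‖ ^ 2 ∧ ‖z n‖ = ‖z 0‖ ^ 2 ^ n := by
    intro n
    induction n with
    | zero => exact ⟨h0, by simp⟩
    | succ n ih =>
      have h3 : ‖z (n + 1)‖ = ‖z n‖ ^ 2 := by
        rw [h.z_succ, IsUltrametricDist.norm_add_eq_max_of_norm_ne_norm, norm_pow,
          max_eq_left ih.1.le]
        rw [norm_pow]
        exact ih.1.ne'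
      constructor
      · rw [h3, hx2]
        exact pow_lt_pow_left₀ ih.1 (norm_nonneg _) two_ne_zero
      · rw [h3, ih.2, ← pow_mul, ← pow_succ]
  have hζ : 1 < ‖z 0‖ := by
    by_contra hcon
    push Not at hcon
    have h3 : ‖z 0‖ ^ 2 ≤ 1 := pow_le_one₀ (norm_nonneg _) hcon
    have := h.one_lt
    linarith
  obtain ⟨a, d, ha, hd, hzd⟩ := rat_exp (p := 1) one_pos hX
    (fun n => by rw [pow_one]; exact (hXn n).symm) hζ (fun n => (hzn n).2) hS hz
  obtain ⟨V, hV, hVd⟩ := hX.root hd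
  have hV0 : 1 < ‖V 0‖ := hV.one_lt
  have hVX : ∀ n, ‖V n‖ ^ d = ‖x n‖ := by
    intro n
    rw [← norm_pow, hVd, hXn]
  have hζa : ‖z 0‖ = ‖V 0‖ ^ a := by
    have h3 : ‖z 0‖ ^ d = (‖V 0‖ ^ a) ^ d := by
      rw [hzd, ← pow_mul, mul_comm a d, pow_mul, hVX, hXn]
    exact (pow_left_inj₀ (norm_nonneg _) (by positivity) hd.ne').1 h3
  have hza : ∀ n, ‖z n‖ = ‖V n‖ ^ a := by
    intro n
    rw [(hzn n).2, hζa, hV.norm n, ← pow_mul, ← pow_mul, mul_comm]
  have hlt : d < 2 * a := by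
    have h3 : ‖V 0‖ ^ d < ‖V 0‖ ^ (2 * a) := by
      rw [hVX, mul_comm, pow_mul, ← hza]
      exact h0
    exact (pow_lt_pow_iff_right₀ hV0).1 h3
  have hle : a ≤ d := by
    have h3 : ‖V 0‖ ^ a ≤ ‖V 0‖ ^ d := by
      rw [hVX, ← hza]
      exact h.z_le
    exact (pow_le_pow_iff_right₀ hV0).1 h3
  have hxs : Ses fun n => x n / V n ^ d - 1 := by
    have h3 : (fun n => x n / V n ^ d - 1) = fun n => x n / X n - 1 := by
      funext n
      rw [hVd]
    rw [h3]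
    exact hXs
  have hVne := hV.ne
  have ht1 : ∀ n, ‖z n / V n ^ a‖ = 1 := by
    intro n
    rw [norm_div, norm_pow, ← hza]
    refine div_self ?_
    rw [hza]
    exact pow_ne_zero _ (norm_ne_zero_iff.2 (hVne n))
  have hrec : Ses fun n => z (n + 1) / V (n + 1) ^ a - ((z n / V n ^ a) ^ 2 + (0 : L)) := by
    refine hV.ses.mono fun n => ?_
    have h3 : z (n + 1) / V (n + 1) ^ a - ((z n / V n ^ a) ^ 2 + (0 : L)) =
        x n / V n ^ (2 * a) := by
      have h4 := hVne n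
      rw [h.z_succ, hV.succ, ← pow_mul, div_pow, ← pow_mul, mul_comm a 2]
      ring
    rw [h3, norm_div, norm_inv, norm_pow, ← hVX, div_le_iff₀ (by
      have := norm_pos_iff.2 (hVne n)
      positivity)]
    have h5 := hV.one_lt_norm n
    have h6 : ‖V n‖ ^ d * ‖V n‖ ≤ ‖V n‖ ^ (2 * a) := by
      rw [← pow_succ]
      exact pow_le_pow_right₀ h5.le hlt
    rw [inv_mul_eq_div, le_div_iff₀ (by linarith)]
    exact h6
  obtain ⟨Q, hQ, hQS⟩ := top_rel hd hV hxs (fun n => (hza n).le) hz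
  obtain ⟨N, b, hN, -, hbp, hbs, hb1, hlim, hses⟩ := periodic_of_rel h2 (N₀ := 1) one_pos
    (κ := fun _ => (0 : L)) (t := fun n => z n / V n ^ a) (fun _ => rfl)
    (fun _ => by rw [norm_zero]; exact zero_le_one) (fun n => (ht1 n).le) hrec hQ hS hQS
  have hbn : ∀ n, ‖b n‖ = 1 := AsyZ_norm_one hN hbp ht1 hlim
  have hb0 : ∀ n, b n ≠ 0 := by
    intro n h3
    have h4 := hbn n
    rw [h3, norm_zero] at h4
    exact zero_ne_one h4
  refine ⟨V, d, a, N, b, ?_⟩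
  exact
    { sq := hV
      p_pos := hd
      s_pos := ha
      N_pos := hN
      p_le := hlt.le
      s_le := hle
      hx := hxs
      z_le := fun n => (hza n).le
      c_per := hbp
      c_le := hb1
      c_ne := hb0
      c_succ := fun n => by rw [hbs, if_neg (by omega)]
      hz := hses hb0 }

theorem AsyZ_caseB [IsAlgClosed L] (h2 : ‖(2 : L)‖ < 1) {x y z X : ℕ → L}
    (h : Orb x y z) (hX : Sq X) (hXn : ∀ n, ‖X n‖ = ‖x n‖) (hXs : Ses fun n => x n / X n - 1)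
    (h0 : ∀ n, ‖z n‖ ^ 2 ≤ ‖x n‖) {S : Set ℕ} (hS : S.Infinite) (hz : Rel S x z) :
    ∃ (U : ℕ → L) (p s N : ℕ) (c : ℕ → L), AsyZ x z U p s N c := by
  obtain ⟨V, hV, hVd⟩ := hX.root two_pos
  have hVne := hV.ne
  have hVX : ∀ n, ‖V n‖ ^ 2 = ‖x n‖ := by
    intro n
    rw [← norm_pow, hVd, hXn]
  have hzV : ∀ n, ‖z n‖ ≤ ‖V n‖ := by
    intro n
    have h3 : ‖z n‖ ^ 2 ≤ ‖V n‖ ^ 2 := (h0 n).trans (hVX n).ge
    exact (pow_le_pow_iff_left₀ (norm_nonneg _) (norm_nonneg _) two_ne_zero).1 h3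
  have hxs : Ses fun n => x n / V n ^ 2 - 1 := by
    have h3 : (fun n => x n / V n ^ 2 - 1) = fun n => x n / X n - 1 := by
      funext n
      rw [hVd]
    rw [h3]
    exact hXs
  have ht1 : ∀ n, ‖z n / V n ^ 1‖ ≤ 1 := by
    intro n
    rw [norm_div, norm_pow, pow_one]
    exact div_le_one_of_le₀ (hzV n) (norm_nonneg _)
  have hrec : Ses fun n => z (n + 1) / V (n + 1) ^ 1 - ((z n / V n ^ 1) ^ 2 + (1 : L)) := by
    have h3 : (fun n => z (n + 1) / V (n + 1) ^ 1 - ((z n / V n ^ 1) ^ 2 + (1 : L))) =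
        fun n => x n / V n ^ 2 - 1 := by
      funext n
      rw [h.z_succ, hV.succ, pow_one, pow_one, div_pow]
      ring
    rw [h3]
    exact hxs
  obtain ⟨Q, hQ, hQS⟩ := top_rel (s := 1) two_pos hV hxs
    (fun n => by rw [pow_one]; exact hzV n) hz
  obtain ⟨N, b, hN, -, hbp, hbs, hb1, hlim, hses⟩ := periodic_of_rel h2 (N₀ := 1) one_pos
    (κ := fun _ => (1 : L)) (t := fun n => z n / V n ^ 1) (fun _ => rfl)
    (fun _ => by rw [norm_one]) ht1 hrec hQ hS hQS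
  have hb0 : ∀ n, b n ≠ 0 := nz_one hN hbp hbs
  refine ⟨V, 2, 1, N, b, ?_⟩
  exact
    { sq := hV
      p_pos := two_pos
      s_pos := one_pos
      N_pos := hN
      p_le := le_rfl
      s_le := by norm_num
      hx := hxs
      z_le := fun n => by rw [pow_one]; exact hzV n
      c_per := hbp
      c_le := hb1
      c_ne := hb0
      c_succ := fun n => by rw [hbs, if_pos rfl]
      hz := hses hb0 }

theorem exists_asyZ [CompleteSpace L] [IsAlgClosed L] (h2 : ‖(2 : L)‖ < 1) {x y z : ℕ → L}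
    (h : Orb x y z) {S : Set ℕ} (hS : S.Infinite) (hz : Rel S x z) :
    ∃ (m : ℕ) (U : ℕ → L) (p s N : ℕ) (c : ℕ → L),
      AsyZ (fun n => x (n + m)) (fun n => z (n + m)) U p s N c := by
  obtain ⟨X, hX, hXn, hXs⟩ := orb_boettcher h2 h
  by_cases hA : ∃ n, ‖x n‖ < ‖z n‖ ^ 2
  · obtain ⟨m, hm⟩ := hA
    have hX' : Sq (fun n => X (n + m)) :=
      { succ := fun n => by
          have h3 := hX.succ (n + m)
          rw [show n + m + 1 = n + 1 + m by ring] at h3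
          exact h3
        one_lt := hX.one_lt_norm (0 + m) }
    have hS' : {n | n + m ∈ S}.Infinite := by
      intro hfin
      apply hS
      refine ((Set.finite_lt_nat m).union (hfin.image fun n => n + m)).subset ?_
      intro n hn
      by_cases hnm : n < m
      · exact Or.inl hnm
      · refine Or.inr ⟨n - m, ?_, Nat.sub_add_cancel (not_lt.1 hnm)⟩
        show n - m + m ∈ S
        rw [Nat.sub_add_cancel (not_lt.1 hnm)]
        exact hn
    obtain ⟨U, p, s, N, c, hU⟩ := AsyZ_caseA h2 (h.shift m) hX' (fun n => hXn (n + m))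
      (hXs.shift m) (by simpa using hm) hS' (hz.shift m)
    exact ⟨m, U, p, s, N, c, hU⟩
  · push Not at hA
    obtain ⟨U, p, s, N, c, hU⟩ := AsyZ_caseB h2 h hX hXn hXs hA hS hz
    exact ⟨0, U, p, s, N, c, hU⟩

end Pool.Agent.DMC
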