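import Pool.Agent.Lib.MP_e9abfe_ag_DMC.SesL
import Pool.Agent.Lib.MP_e9abfe_ag_DMC.Top
import Pool.Agent.Lib.MP_e9abfe_ag_DMC.Per
import Pool.Agent.Lib.MP_e9abfe_ag_DMC.Nz
import Pool.Agent.Lib.MP_e9abfe_ag_DMC.AsyZ

/-!
# Dynamical Mordell-Lang for curves: leading terms of the coordinate `y`
-/

set_option autoImplicit false

namespace Pool.Agent.DMC

open MvPolynomial

variable {L : Type} [NormedField L] [IsUltrametricDist L] [CharZero L]

omit [CharZero L] in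
/-- an element close to `1` has norm `1` -/
theorem asyY_norm_one {a : L} (h : ‖a - 1‖ < 1) : ‖a‖ = 1 := by
  have h1 : ‖(1 : L)‖ = 1 := norm_one
  have h2 : ‖a - 1‖ < ‖(1 : L)‖ := by rwa [h1]
  have h3 : a = 1 + (a - 1) := by ring
  rw [h3, IsUltrametricDist.norm_add_eq_max_of_norm_ne_norm (ne_of_gt h2), max_eq_left h2.le, h1]

omit [CharZero L] in
theorem asyY_norm_add {a b : L} (h : ‖b‖ < ‖a‖) : ‖a + b‖ = ‖a‖ := by
  rw [IsUltrametricDist.norm_add_eq_max_of_norm_ne_norm (ne_of_gt h), max_eq_left h.le]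

/-- `|x n| = |U n| ^ p` -/
theorem asyY_norm_x {x y z U : ℕ → L} {p : ℕ} (ho : Orb x y z) (hU : Sq U)
    (hx : Ses fun n => x n / U n ^ p - 1) (n : ℕ) : ‖x n‖ = ‖U n‖ ^ p := by
  obtain ⟨n₀, hn⟩ := hx.lt one_pos
  have h1 := asyY_norm_one (hn n₀ le_rfl)
  rw [norm_div, norm_pow, div_eq_one_iff_eq (pow_ne_zero _ (norm_ne_zero_iff.2 (hU.ne n₀))),
    ho.norm_x, hU.norm, ← pow_mul, mul_comm, pow_mul] at h1
  have h2 : ‖x 0‖ = ‖U 0‖ ^ p :=
    (pow_left_inj₀ (norm_nonneg _) (pow_nonneg (norm_nonneg _) _) (by positivity)).1 h1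
  rw [ho.norm_x, hU.norm, h2, ← pow_mul, ← pow_mul, mul_comm]

theorem asyY_sq_shift {U : ℕ → L} (hU : Sq U) (m : ℕ) : Sq fun n => U (n + m) where
  succ := fun n => by
    have h := hU.succ (n + m)
    rw [← h]
    congr 1
    ring
  one_lt := by
    simpa using hU.one_lt_norm m

omit [NormedField L] [IsUltrametricDist L] [CharZero L] in
theorem asyY_per {c : ℕ → L} {N N' : ℕ} (h : ∀ n, c (n + N) = c n) (hd : N ∣ N') (n : ℕ) :
    c (n + N') = c n := by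
  obtain ⟨k, rfl⟩ := hd
  induction k with
  | zero => simp
  | succ k ih => rw [mul_add, mul_one, ← add_assoc, h, ih]

/-- the three bounds with a common rate -/
theorem asyY_fin [IsAlgClosed L] {x y z V : ℕ → L} {p q s N : ℕ} {b c : ℕ → L}
    (orb : Orb x y z) (sq : Sq V) (q_pos : 0 < q) (s_pos : 0 < s) (q_le : q ≤ p)
    (s_le : s ≤ 2 * q) (p_le : p ≤ 2 * s) (N_pos : 0 < N) (b_per : ∀ n, b (n + N) = b n)
    (c_per : ∀ n, c (n + N) = c n) (b_ne : ∀ n, b n ≠ 0) (c_ne : ∀ n, c n ≠ 0)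
    (hx : Ses fun n => x n / V n ^ p - 1) (hy : Ses fun n => y n / V n ^ q - b n)
    (hz : Ses fun n => z n / V n ^ s - c n) :
    ∃ (W : ℕ → L) (p q s : ℕ), Asy x y z W p q s N b c := by
  obtain ⟨C₁, ρ₁, hC₁, h₁, h₁', hx⟩ := hx
  obtain ⟨C₂, ρ₂, hC₂, h₂, h₂', hy⟩ := hy
  obtain ⟨C₃, ρ₃, hC₃, h₃, h₃', hz⟩ := hz
  set ρ : ℝ := max ρ₁ (max ρ₂ ρ₃) with hρ
  have hρ0 : 0 < ρ := lt_max_of_lt_left h₁
  have hρ1 : ρ < 1 := max_lt h₁' (max_lt h₂' h₃')
  have hV0 : 0 < ‖V 0‖ := one_pos.trans sq.one_lt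
  obtain ⟨M₀, hM₀⟩ := exists_pow_lt_of_lt_one (inv_pos.2 hV0) hρ1
  set M : ℕ := M₀ + 1 with hM
  have hMpos : 0 < M := Nat.succ_pos _
  have hρM : ρ ^ M * ‖V 0‖ ≤ 1 := by
    have h4 : ρ ^ M ≤ ρ ^ M₀ := pow_le_pow_of_le_one hρ0.le hρ1.le (Nat.le_succ _)
    have h5 : ρ ^ M ≤ ‖V 0‖⁻¹ := h4.trans hM₀.le
    calc ρ ^ M * ‖V 0‖ ≤ ‖V 0‖⁻¹ * ‖V 0‖ := by gcongr
      _ = 1 := inv_mul_cancel₀ hV0.ne'
  obtain ⟨W, hW, hWV⟩ := sq.root hMpos
  have hW0 : ρ * ‖W 0‖ ≤ 1 := by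
    have h6 : (ρ * ‖W 0‖) ^ M ≤ 1 := by
      rw [mul_pow, ← norm_pow, hWV 0]
      exact hρM
    exact (pow_le_one_iff_of_nonneg (by positivity) hMpos.ne').1 h6
  have hrate : ∀ {C ρ' : ℝ}, 0 < C → 0 < ρ' → ρ' ≤ ρ → ∀ n, C * ρ' ^ 2 ^ n ≤ C / ‖W n‖ := by
    intro C ρ' hC hρ' hle n
    have hWn : 0 < ‖W n‖ := one_pos.trans (hW.one_lt_norm n)
    have h7 : ρ' ^ 2 ^ n * ‖W n‖ ≤ 1 := by
      rw [hW.norm, ← mul_pow]
      refine pow_le_one₀ (by positivity) ?_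
      refine le_trans ?_ hW0
      gcongr
    rw [le_div_iff₀ hWn, mul_assoc]
    exact mul_le_of_le_one_right hC.le h7
  have hWp : ∀ (e n : ℕ), W n ^ (M * e) = V n ^ e := fun e n => by rw [pow_mul, hWV]
  refine ⟨W, M * p, M * q, M * s, ?_⟩
  exact
    { orb := orb
      sq := hW
      q_pos := Nat.mul_pos hMpos q_pos
      s_pos := Nat.mul_pos hMpos s_pos
      q_le := Nat.mul_le_mul_left _ q_le
      s_le := by
        calc M * s ≤ M * (2 * q) := Nat.mul_le_mul_left _ s_le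
          _ = 2 * (M * q) := by ring
      p_le := by
        calc M * p ≤ M * (2 * s) := Nat.mul_le_mul_left _ p_le
          _ = 2 * (M * s) := by ring
      N_pos := N_pos
      b_per := b_per
      c_per := c_per
      b_ne := b_ne
      c_ne := c_ne
      hx := ⟨C₁, fun n => by
        rw [hWp]
        exact (hx n).trans (hrate hC₁ h₁ (le_max_left _ _) n)⟩
      hy := ⟨C₂, fun n => by
        rw [hWp]
        exact (hy n).trans (hrate hC₂ h₂ ((le_max_left _ _).trans (le_max_right _ _)) n)⟩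
      hz := ⟨C₃, fun n => by
        rw [hWp]
        exact (hz n).trans (hrate hC₃ h₃ ((le_max_right _ _).trans (le_max_right _ _)) n)⟩ }

/-- case A: `y` dominates `z` -/
theorem asyY_caseA [IsAlgClosed L] (h2 : ‖(2 : L)‖ < 1) {x y z U : ℕ → L}
    {p s N : ℕ} {c : ℕ → L} (h : Orb x y z) (hA : AsyZ x z U p s N c) {S : Set ℕ}
    (hS : S.Infinite) (hy : Rel S x y) (h0 : ‖U 0‖ ^ s < ‖y 0‖ ^ 2) :
    ∃ (W : ℕ → L) (p q s N : ℕ) (b c : ℕ → L), Asy x y z W p q s N b c := by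
  have hU := hA.sq
  have hU1 : 1 < ‖U 0‖ := hU.one_lt
  have hxn := asyY_norm_x h hU hA.hx
  -- the norms of `y`
  have hyn : ∀ n, ‖y n‖ = ‖y 0‖ ^ 2 ^ n ∧ ‖U n‖ ^ s < ‖y n‖ ^ 2 := by
    intro n
    induction n with
    | zero => exact ⟨by simp, h0⟩
    | succ n ih =>
      have h3 : ‖z n‖ < ‖y n ^ 2‖ := by
        rw [norm_pow]
        exact (hA.z_le n).trans_lt ih.2
      have h4 : ‖y (n + 1)‖ = ‖y n‖ ^ 2 := by
        rw [h.y_succ, asyY_norm_add h3, norm_pow]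
      refine ⟨?_, ?_⟩
      · rw [h4, ih.1, ← pow_mul, ← pow_succ]
      · rw [h4, hU.succ, norm_pow, ← pow_mul, mul_comm 2 s, pow_mul]
        exact pow_lt_pow_left₀ ih.2 (by positivity) two_ne_zero
  have hη : 1 < ‖y 0‖ := by
    have h5 : 1 < ‖y 0‖ ^ 2 := (one_le_pow₀ hU1.le).trans_lt h0
    by_contra hc
    push Not at hc
    exact absurd (pow_le_one₀ (norm_nonneg _) hc) (not_le.2 h5)
  obtain ⟨a, d, ha, hd, had⟩ := rat_exp hA.p_pos hU hxn hη (fun n => (hyn n).1) hS hy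
  obtain ⟨V, hV, hVU⟩ := hU.root hd
  have hV1 : 1 < ‖V 0‖ := hV.one_lt
  have hyV0 : ‖y 0‖ = ‖V 0‖ ^ a := by
    have h6 : ‖y 0‖ ^ d = (‖V 0‖ ^ a) ^ d := by
      rw [had, ← hVU 0, norm_pow, ← pow_mul, ← pow_mul, mul_comm]
    exact (pow_left_inj₀ (norm_nonneg _) (by positivity) hd.ne').1 h6
  have hyV : ∀ n, ‖y n‖ = ‖V n‖ ^ a := fun n => by
    rw [(hyn n).1, hyV0, hV.norm n, ← pow_mul, ← pow_mul, mul_comm]
  have hUV : ∀ (e n : ℕ), V n ^ (d * e) = U n ^ e := fun e n => by rw [pow_mul, hVU]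
  have hUVn : ∀ (e n : ℕ), ‖V n‖ ^ (d * e) = ‖U n‖ ^ e := fun e n => by
    rw [← norm_pow, hUV, norm_pow]
  have hsq : d * s < 2 * a := by
    have h7 : ‖V 0‖ ^ (d * s) < ‖V 0‖ ^ (a * 2) := by
      rw [hUVn, pow_mul, ← hyV0]
      exact h0
    have := (pow_lt_pow_iff_right₀ hV1).1 h7
    omega
  have hqp : a ≤ d * p := by
    have h8 : ‖V 0‖ ^ a ≤ ‖V 0‖ ^ (d * p) := by
      rw [hUVn, ← hyV0, ← hxn]
      exact h.y_le
    exact (pow_le_pow_iff_right₀ hV1).1 h8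
  have hx' : Ses fun n => x n / V n ^ (d * p) - 1 := by
    simp_rw [hUV]
    exact hA.hx
  have hz' : Ses fun n => z n / V n ^ (d * s) - c n := by
    simp_rw [hUV]
    exact hA.hz
  have hdp : 0 < d * p := Nat.mul_pos hd hA.p_pos
  obtain ⟨Q, hQ, hSQ⟩ := top_rel hdp hV hx' (fun n => (hyV n).le) hy
  have ht1 : ∀ n, ‖y n / V n ^ a‖ = 1 := fun n => by
    rw [norm_div, norm_pow, hyV n]
    exact div_self (pow_ne_zero _ (norm_ne_zero_iff.2 (hV.ne n)))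
  have hrec : Ses fun n => (fun n => y n / V n ^ a) (n + 1) -
      ((fun n => y n / V n ^ a) n ^ 2 + (fun _ => (0 : L)) n) := by
    refine ⟨1, ‖V 0‖⁻¹, one_pos, inv_pos.2 (one_pos.trans hV1), inv_lt_one_of_one_lt₀ hV1,
      fun n => ?_⟩
    have e1 : (fun n => y n / V n ^ a) (n + 1) -
        ((fun n => y n / V n ^ a) n ^ 2 + (fun _ => (0 : L)) n) = z n / V n ^ (2 * a) := by
      have hVn : V n ≠ 0 := hV.ne n
      simp only [h.y_succ, hV.succ]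
      field_simp
      ring
    refine le_trans (le_of_eq (congrArg norm e1)) ?_
    rw [norm_div, norm_pow, one_mul]
    have hVn : 1 < ‖V n‖ := hV.one_lt_norm n
    have hVn0 : 0 < ‖V n‖ := one_pos.trans hVn
    calc ‖z n‖ / ‖V n‖ ^ (2 * a) ≤ ‖V n‖ ^ (d * s) / ‖V n‖ ^ (2 * a) := by
          rw [hUVn]
          have := hA.z_le n
          gcongr
      _ ≤ ‖V n‖ ^ (d * s) / ‖V n‖ ^ (d * s + 1) := by
          have h9 : ‖V n‖ ^ (d * s + 1) ≤ ‖V n‖ ^ (2 * a) :=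
            pow_le_pow_right₀ hVn.le hsq
          gcongr
      _ = ‖V n‖⁻¹ := by
          rw [pow_succ]
          field_simp
      _ = ‖V 0‖⁻¹ ^ 2 ^ n := by
          rw [hV.norm n, inv_pow]
  obtain ⟨N', b, hN', hNd, hbper, hbrec, hb1, hblim, hbses⟩ :=
    periodic_of_rel h2 (t := fun n => y n / V n ^ a) (κ := fun _ => (0 : L)) hA.N_pos
      (fun _ => rfl) (fun _ => by simp) (fun n => (ht1 n).le) hrec hQ hS hSQ
  have hbne : ∀ n, b n ≠ 0 := by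
    obtain ⟨n₀, hn₀⟩ := hblim 1 one_pos
    intro n hbn
    have h10 : b (n + N' * n₀) = 0 := by
      rw [asyY_per hbper (dvd_mul_right N' n₀) n, hbn]
    have h11 : n₀ ≤ n + N' * n₀ := by nlinarith
    have h12 := hn₀ _ h11
    rw [h10, sub_zero] at h12
    exact absurd (ht1 (n + N' * n₀)) h12.ne
  obtain ⟨W, p', q', s', hW⟩ := asyY_fin h hV ha (Nat.mul_pos hd hA.s_pos) hqp hsq.le
    (by
      calc d * p ≤ d * (2 * s) := Nat.mul_le_mul_left _ hA.p_le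
        _ = 2 * (d * s) := by ring) hN' hbper (asyY_per hA.c_per hNd) hbne hA.c_ne hx'
    (hbses hbne) hz'
  exact ⟨W, p', q', s', N', b, c, hW⟩

/-- case B: `y` is dominated by the square root of `z` -/
theorem asyY_caseB [IsAlgClosed L] (h2 : ‖(2 : L)‖ < 1) {x y z U : ℕ → L}
    {p s N : ℕ} {c : ℕ → L} (h : Orb x y z) (hA : AsyZ x z U p s N c) {S : Set ℕ}
    (hS : S.Infinite) (hy : Rel S x y) (h0 : ∀ n, ‖y n‖ ^ 2 ≤ ‖U n‖ ^ s) :
    ∃ (W : ℕ → L) (p q s N : ℕ) (b c : ℕ → L), Asy x y z W p q s N b c := by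
  have hU := hA.sq
  obtain ⟨V, hV, hVU⟩ := hU.root (d := 2) two_pos
  have hUV : ∀ (e n : ℕ), V n ^ (2 * e) = U n ^ e := fun e n => by rw [pow_mul, hVU]
  have hUVn : ∀ (e n : ℕ), ‖V n‖ ^ (2 * e) = ‖U n‖ ^ e := fun e n => by
    rw [← norm_pow, hUV, norm_pow]
  have hyV : ∀ n, ‖y n‖ ≤ ‖V n‖ ^ s := fun n => by
    have h3 : ‖y n‖ ^ 2 ≤ (‖V n‖ ^ s) ^ 2 := by
      rw [← pow_mul, mul_comm s 2, hUVn]
      exact h0 n
    exact (pow_le_pow_iff_left₀ (norm_nonneg _) (by positivity) two_ne_zero).1 h3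
  have hx' : Ses fun n => x n / V n ^ (2 * p) - 1 := by
    simp_rw [hUV]
    exact hA.hx
  have hz' : Ses fun n => z n / V n ^ (2 * s) - c n := by
    simp_rw [hUV]
    exact hA.hz
  obtain ⟨Q, hQ, hSQ⟩ := top_rel (Nat.mul_pos two_pos hA.p_pos) hV hx' hyV hy
  have ht1 : ∀ n, ‖y n / V n ^ s‖ ≤ 1 := fun n => by
    rw [norm_div, norm_pow]
    exact div_le_one_of_le₀ (hyV n) (by positivity)
  have hrec : Ses fun n => (fun n => y n / V n ^ s) (n + 1) -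
      ((fun n => y n / V n ^ s) n ^ 2 + c n) := by
    refine hz'.mono fun n => le_of_eq ?_
    congr 1
    have hVn : V n ≠ 0 := hV.ne n
    simp only [h.y_succ, hV.succ]
    field_simp
    ring
  obtain ⟨N', b, hN', hNd, hbper, hbrec, hb1, hblim, hbses⟩ :=
    periodic_of_rel h2 (t := fun n => y n / V n ^ s) (κ := c) hA.N_pos
      hA.c_per hA.c_le ht1 hrec hQ hS hSQ
  have hbne : ∀ n, b n ≠ 0 := by
    by_cases hps : p = 2 * s
    · have hc : ∀ n, c (n + 1) = c n ^ 2 + 1 := fun n => by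
        rw [hA.c_succ, if_pos hps]
      exact nz_three h2 hN' hbper (asyY_per hA.c_per hNd) hb1 hA.c_le hc hbrec
    · have hc : ∀ n, c (n + 1) = c n ^ 2 := fun n => by
        rw [hA.c_succ, if_neg hps, add_zero]
      exact nz_two hN' hbper hc hA.c_ne hbrec
  obtain ⟨W, p', q', s', hW⟩ := asyY_fin h hV hA.s_pos (Nat.mul_pos two_pos hA.s_pos)
    (by have := hA.s_le; omega) le_rfl (by have := hA.p_le; omega) hN' hbper
    (asyY_per hA.c_per hNd) hbne hA.c_ne hx' (hbses hbne) hz'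
  exact ⟨W, p', q', s', N', b, c, hW⟩

theorem asyY_asyZ_shift {x z U : ℕ → L} {p s N : ℕ} {c : ℕ → L} (hA : AsyZ x z U p s N c)
    (m : ℕ) : AsyZ (fun n => x (n + m)) (fun n => z (n + m)) (fun n => U (n + m)) p s N
      (fun n => c (n + m)) where
  sq := asyY_sq_shift hA.sq m
  p_pos := hA.p_pos
  s_pos := hA.s_pos
  N_pos := hA.N_pos
  p_le := hA.p_le
  s_le := hA.s_le
  hx := hA.hx.shift m
  z_le := fun n => hA.z_le (n + m)
  c_per := fun n => by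
    have h := hA.c_per (n + m)
    rw [← h]
    congr 1
    ring
  c_le := fun n => hA.c_le (n + m)
  c_ne := fun n => hA.c_ne (n + m)
  c_succ := fun n => by
    have h := hA.c_succ (n + m)
    rw [← h]
    congr 1
    ring
  hz := hA.hz.shift m

theorem asyY_inf {S : Set ℕ} (hS : S.Infinite) (m : ℕ) : {n | n + m ∈ S}.Infinite := by
  rw [Set.infinite_iff_exists_gt] at hS ⊢
  intro a
  obtain ⟨b, hb, hab⟩ := hS (a + m)
  refine ⟨b - m, ?_, by omega⟩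
  have : b - m + m = b := by omega
  show b - m + m ∈ S
  rwa [this]

theorem exists_asy [CompleteSpace L] [IsAlgClosed L] (h2 : ‖(2 : L)‖ < 1) {x y z : ℕ → L}
    (h : Orb x y z) {S : Set ℕ} (hS : S.Infinite) (hy : Rel S x y) (hz : Rel S x z) :
    ∃ (m : ℕ) (U : ℕ → L) (p q s N : ℕ) (b c : ℕ → L),
      Asy (fun n => x (n + m)) (fun n => y (n + m)) (fun n => z (n + m)) U p q s N b c := by
  obtain ⟨m₁, U, p, s, N, c, hA⟩ := exists_asyZ h2 h hS hz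
  by_cases hc : ∃ n, ‖U n‖ ^ s < ‖y (n + m₁)‖ ^ 2
  · obtain ⟨n₀, hn₀⟩ := hc
    have hA' := asyY_asyZ_shift hA n₀
    have ho := (h.shift m₁).shift n₀
    have hS' := asyY_inf (asyY_inf hS m₁) n₀
    have hy' := (hy.shift m₁).shift n₀
    obtain ⟨W, p', q', s', N', b', c', hW⟩ := asyY_caseA h2 ho hA' hS' hy' (by simpa using hn₀)
    refine ⟨n₀ + m₁, W, p', q', s', N', b', c', ?_⟩
    simp only [← add_assoc]
    exact hW
  · push Not at hc
    have ho := h.shift m₁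
    have hS' := asyY_inf hS m₁
    have hy' := hy.shift m₁
    obtain ⟨W, p', q', s', N', b', c', hW⟩ := asyY_caseB h2 ho hA hS' hy' hc
    exact ⟨m₁, W, p', q', s', N', b', c', hW⟩

end Pool.Agent.DMC
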