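import Mathlib

/-!
# Dynamical Mordell-Lang for curves, map `(x² + y, y² + z, z² + x)`: vocabulary

Sequences in a field `L` with a nonarchimedean absolute value.
-/

set_option autoImplicit false

namespace Pool.Agent.DMC

open MvPolynomial

variable {L : Type} [NormedField L]

/-- super-exponentially small on `S` -/
def SesOn (S : Set ℕ) (f : ℕ → L) : Prop :=
  ∃ C ρ : ℝ, 0 < C ∧ 0 < ρ ∧ ρ < 1 ∧ ∀ n ∈ S, ‖f n‖ ≤ C * ρ ^ 2 ^ n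

/-- super-exponentially small -/
def Ses (f : ℕ → L) : Prop :=
  ∃ C ρ : ℝ, 0 < C ∧ 0 < ρ ∧ ρ < 1 ∧ ∀ n, ‖f n‖ ≤ C * ρ ^ 2 ^ n

/-- an orbit of the squaring map which tends to infinity -/
structure Sq (U : ℕ → L) : Prop where
  succ : ∀ n, U (n + 1) = U n ^ 2
  one_lt : 1 < ‖U 0‖

/-- an orbit of `Φ` which tends to infinity and is dominated by the coordinate `x` -/
structure Orb (x y z : ℕ → L) : Prop where
  x_succ : ∀ n, x (n + 1) = x n ^ 2 + y n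
  y_succ : ∀ n, y (n + 1) = y n ^ 2 + z n
  z_succ : ∀ n, z (n + 1) = z n ^ 2 + x n
  one_lt : 1 < ‖x 0‖
  y_le : ‖y 0‖ ≤ ‖x 0‖
  z_le : ‖z 0‖ ≤ ‖x 0‖

/-- a nontrivial polynomial relation between `x n` and `w n`, valid for `n ∈ S` -/
def Rel (S : Set ℕ) (x w : ℕ → L) : Prop :=
  ∃ H : MvPolynomial (Fin 2) L, H ≠ 0 ∧ ∀ n ∈ S, eval ![x n, w n] H = 0

/-- the sequence `z`, to leading order: `z n = U n ^ s * (c n + small)`, `c` exactly periodic -/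
structure AsyZ (x z U : ℕ → L) (p s N : ℕ) (c : ℕ → L) : Prop where
  sq : Sq U
  p_pos : 0 < p
  s_pos : 0 < s
  N_pos : 0 < N
  p_le : p ≤ 2 * s
  s_le : s ≤ p
  hx : Ses fun n => x n / U n ^ p - 1
  z_le : ∀ n, ‖z n‖ ≤ ‖U n‖ ^ s
  c_per : ∀ n, c (n + N) = c n
  c_le : ∀ n, ‖c n‖ ≤ 1
  c_ne : ∀ n, c n ≠ 0
  c_succ : ∀ n, c (n + 1) = c n ^ 2 + if p = 2 * s then 1 else 0
  hz : Ses fun n => z n / U n ^ s - c n

/-- leading terms of the orbit, with exactly periodic coefficients `1, b n, c n` -/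
structure Asy (x y z U : ℕ → L) (p q s N : ℕ) (b c : ℕ → L) : Prop where
  orb : Orb x y z
  sq : Sq U
  q_pos : 0 < q
  s_pos : 0 < s
  q_le : q ≤ p
  s_le : s ≤ 2 * q
  p_le : p ≤ 2 * s
  N_pos : 0 < N
  b_per : ∀ n, b (n + N) = b n
  c_per : ∀ n, c (n + N) = c n
  b_ne : ∀ n, b n ≠ 0
  c_ne : ∀ n, c n ≠ 0
  hx : ∃ C : ℝ, ∀ n, ‖x n / U n ^ p - 1‖ ≤ C / ‖U n‖
  hy : ∃ C : ℝ, ∀ n, ‖y n / U n ^ q - b n‖ ≤ C / ‖U n‖
  hz : ∃ C : ℝ, ∀ n, ‖z n / U n ^ s - c n‖ ≤ C / ‖U n‖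

end Pool.Agent.DMC
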