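import Pool.Agent.Lib.MP_e9abfe_ag_DMC.Defs

/-!
# Algebraic dependence on a curve (module D10 of project DMC)
-/

set_option autoImplicit false

namespace Pool.Agent.DMC

open MvPolynomial

/-- the ring homomorphism `F[X₀, X₁] → F[X₀][X₁]` -/
noncomputable def depPsi (F : Type) [Field F] : MvPolynomial (Fin 2) F →+* Polynomial (Polynomial F) :=
  eval₂Hom (Polynomial.C.comp Polynomial.C) ![Polynomial.C Polynomial.X, Polynomial.X]

theorem dep_psi_injective (F : Type) [Field F] : Function.Injective (depPsi F) := by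
  let θ : Polynomial (Polynomial F) →+* MvPolynomial (Fin 2) F :=
    Polynomial.eval₂RingHom
      (Polynomial.aeval (X 0 : MvPolynomial (Fin 2) F) : Polynomial F →ₐ[F] _).toRingHom (X 1)
  have h : θ.comp (depPsi F) = RingHom.id _ := by
    refine MvPolynomial.ringHom_ext (fun a => ?_) fun i => ?_
    · simp [θ, depPsi, MvPolynomial.algebraMap_eq]
    · fin_cases i
      · simp [θ, depPsi]
      · simp [θ, depPsi]
  intro a b hab
  have h1 := congrArg θ hab
  have h2 : ∀ a, θ (depPsi F a) = a := fun a => DFunLike.congr_fun h a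
  rwa [h2, h2] at h1

theorem dep_alg {F E : Type} [Field F] [CommRing E] [IsDomain E] [Algebra (Polynomial F) E]
    (f : MvPolynomial (Fin 3) F →+* E)
    (hC : ∀ a : F, f (C a) = algebraMap (Polynomial F) E (Polynomial.C a))
    (h0 : f (X 0) = algebraMap (Polynomial F) E Polynomial.X) (i : Fin 3)
    {H : MvPolynomial (Fin 2) F} (hH : H ≠ 0)
    (h : f (aeval ![(X 0 : MvPolynomial (Fin 3) F), X i] H) = 0) :
    IsAlgebraic (Polynomial F) (f (X i)) := by
  refine ⟨depPsi F H, fun h' => hH (dep_psi_injective F (by rw [h', map_zero])), ?_⟩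
  have h1 : ((Polynomial.aeval (f (X i)) : Polynomial (Polynomial F) →ₐ[Polynomial F] E) :
      Polynomial (Polynomial F) →+* E).comp (depPsi F) =
      f.comp (aeval ![(X 0 : MvPolynomial (Fin 3) F), X i] :
        MvPolynomial (Fin 2) F →ₐ[F] _).toRingHom := by
    refine MvPolynomial.ringHom_ext (fun a => ?_) fun j => ?_
    · simp [depPsi, hC, MvPolynomial.algebraMap_eq]
    · fin_cases j
      · simp [depPsi, h0]
      · simp [depPsi]
  have h2 := DFunLike.congr_fun h1 H
  exact h2.trans h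

theorem dep_all {F E : Type} [Field F] [CommRing E] [IsDomain E] [Algebra (Polynomial F) E]
    (f : MvPolynomial (Fin 3) F →+* E)
    (hC : ∀ a : F, f (C a) = algebraMap (Polynomial F) E (Polynomial.C a))
    (hX : ∀ i, IsAlgebraic (Polynomial F) (f (X i))) (Q : MvPolynomial (Fin 3) F) :
    IsAlgebraic (Polynomial F) (f Q) := by
  induction Q using MvPolynomial.induction_on with
  | C a =>
    rw [hC]
    exact isAlgebraic_algebraMap _
  | add p q hp hq =>
    rw [map_add]
    exact hp.add hq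
  | mul_X p i hp =>
    rw [map_mul]
    exact hp.mul (hX i)

theorem alg_dep {F : Type} [Field F] {J : Ideal (MvPolynomial (Fin 3) F)} (hJ : J.IsPrime)
    (hx : ∀ T : Polynomial F, T ≠ 0 → Polynomial.aeval (X 0 : MvPolynomial (Fin 3) F) T ∉ J)
    {H₁ H₂ : MvPolynomial (Fin 2) F} (h₁ : H₁ ≠ 0) (h₂ : H₂ ≠ 0)
    (hH₁ : aeval ![(X 0 : MvPolynomial (Fin 3) F), X 1] H₁ ∈ J)
    (hH₂ : aeval ![(X 0 : MvPolynomial (Fin 3) F), X 2] H₂ ∈ J)
    {Q : MvPolynomial (Fin 3) F} (hQ : Q ∉ J) :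
    ∃ (T : Polynomial F) (R : MvPolynomial (Fin 3) F), T ≠ 0 ∧
      Polynomial.aeval (X 0 : MvPolynomial (Fin 3) F) T - Q * R ∈ J := by
  have hdom : IsDomain (MvPolynomial (Fin 3) F ⧸ J) := Ideal.Quotient.isDomain J
  let f : MvPolynomial (Fin 3) F →+* MvPolynomial (Fin 3) F ⧸ J := Ideal.Quotient.mk J
  let φ : Polynomial F →+* MvPolynomial (Fin 3) F ⧸ J :=
    f.comp (Polynomial.aeval (X 0 : MvPolynomial (Fin 3) F) : Polynomial F →ₐ[F] _).toRingHom
  letI : Algebra (Polynomial F) (MvPolynomial (Fin 3) F ⧸ J) := φ.toAlgebra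
  have hφ : ∀ T, algebraMap (Polynomial F) (MvPolynomial (Fin 3) F ⧸ J) T =
      f (Polynomial.aeval (X 0 : MvPolynomial (Fin 3) F) T) := fun T => rfl
  have hC : ∀ a : F, f (C a) = algebraMap (Polynomial F) (MvPolynomial (Fin 3) F ⧸ J)
      (Polynomial.C a) := fun a => by
    rw [hφ, Polynomial.aeval_C, MvPolynomial.algebraMap_eq]
  have h0 : f (X 0) = algebraMap (Polynomial F) (MvPolynomial (Fin 3) F ⧸ J) Polynomial.X := by
    rw [hφ, Polynomial.aeval_X]
  have hX : ∀ i, IsAlgebraic (Polynomial F) (f (X i)) := by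
    intro i
    fin_cases i
    · change IsAlgebraic (Polynomial F) (f (X 0))
      rw [h0]
      exact isAlgebraic_algebraMap _
    · exact dep_alg f hC h0 1 h₁ (Ideal.Quotient.eq_zero_iff_mem.2 hH₁)
    · exact dep_alg f hC h0 2 h₂ (Ideal.Quotient.eq_zero_iff_mem.2 hH₂)
  have hQ0 : f Q ≠ 0 := fun h => hQ (Ideal.Quotient.eq_zero_iff_mem.1 h)
  obtain ⟨T, hT, R', hR'⟩ := (dep_all f hC hX Q).exists_nonzero_dvd
    (mem_nonZeroDivisors_of_ne_zero hQ0)
  obtain ⟨R, rfl⟩ := Ideal.Quotient.mk_surjective R'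
  refine ⟨T, R, hT, ?_⟩
  rw [← Ideal.Quotient.eq_zero_iff_mem, map_sub, map_mul, sub_eq_zero]
  exact hR'

end Pool.Agent.DMC
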