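import Pool.Agent.Lib.MP_e9abfe_ag_DMC.Defs

/-!
# Embedding into `ℂ_[2]`, transfer of polynomials
-/

set_option autoImplicit false

namespace Pool.Agent.DMC

open MvPolynomial

open Cardinal in
theorem emb_mk_padic : #(Padic 2) ≤ 𝔠 := by
  have h1 : Function.Surjective
      (fun f : CauSeq ℚ (padicNorm 2) => (CauSeq.Completion.mk f : Padic 2)) := fun x =>
    Quotient.inductionOn x fun f => ⟨f, rfl⟩
  refine (mk_le_of_surjective h1).trans ?_
  have h2 : #(CauSeq ℚ (padicNorm 2)) ≤ #(ℕ → ℚ) := mk_le_of_injective Subtype.val_injective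
  refine h2.trans ?_
  rw [← power_def, mk_eq_aleph0 ℚ, mk_eq_aleph0 ℕ, aleph0_power_aleph0]

open Cardinal in
theorem emb_mk_completion (X : Type) [PseudoMetricSpace X]
    (h : #X ≤ 𝔠) : #(UniformSpace.Completion X) ≤ 𝔠 := by
  have h1 : ∀ x : UniformSpace.Completion X, ∃ u : ℕ → X,
      Filter.Tendsto (fun n => (u n : UniformSpace.Completion X)) Filter.atTop (nhds x) := by
    intro x
    have hx : x ∈ closure (Set.range ((↑) : X → UniformSpace.Completion X)) :=
      UniformSpace.Completion.denseRange_coe x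
    obtain ⟨v, hv, hvx⟩ := mem_closure_iff_seq_limit.1 hx
    choose u hu using hv
    exact ⟨u, by simpa only [hu] using hvx⟩
  choose u hu using h1
  have h2 : Function.Injective u := by
    intro x y hxy
    have hy := hu y
    rw [← hxy] at hy
    exact tendsto_nhds_unique (hu x) hy
  refine (mk_le_of_injective h2).trans ?_
  rw [← power_def, mk_eq_aleph0 ℕ]
  refine (power_le_power_right h).trans ?_
  rw [continuum_power_aleph0]

open Cardinal in
theorem emb_mk : #(PadicComplex 2) = #ℂ := by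
  rw [mk_complex]
  apply le_antisymm
  · apply emb_mk_completion
    refine (Algebra.IsAlgebraic.cardinalMk_le_max (Padic 2) (PadicAlgCl 2)).trans ?_
    exact max_le emb_mk_padic aleph0_le_continuum
  · exact continuum_le_cardinal_of_nontriviallyNormedField (PadicComplex 2)

theorem exists_emb (α : Fin 3 → ℂ) : ∃ K : Subfield ℂ, (∀ i, α i ∈ K) ∧
    Nonempty (K →+* PadicComplex 2) := by
  have h : Nonempty (ℂ ≃+* PadicComplex 2) :=
    IsAlgClosed.ringEquiv_of_equiv_of_charZero
      (by rw [Cardinal.mk_complex]; exact Cardinal.aleph0_lt_continuum)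
      (Cardinal.eq.1 emb_mk.symm)
  obtain ⟨e⟩ := h
  exact ⟨⊤, fun i => trivial, ⟨(e : ℂ →+* PadicComplex 2).comp (⊤ : Subfield ℂ).subtype⟩⟩

/-- the `j`-th coordinate of a polynomial -/
noncomputable def embComp {K : Type} [Field K] [Algebra K ℂ] {n : ℕ}
    (j : Module.Basis.ofVectorSpaceIndex K ℂ) (f : MvPolynomial (Fin n) ℂ) :
    MvPolynomial (Fin n) K :=
  ∑ m ∈ f.support, monomial m ((Module.Basis.ofVectorSpace K ℂ).coord j (coeff m f))

theorem embComp_eval {K : Type} [Field K] [Algebra K ℂ] {n : ℕ}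
    (f : MvPolynomial (Fin n) ℂ) (x : Fin n → K) :
    eval (fun i => algebraMap K ℂ (x i)) f = 0 ↔ ∀ j, eval x (embComp j f) = 0 := by
  have h1 : eval (fun i => algebraMap K ℂ (x i)) f
      = ∑ m ∈ f.support, (∏ i, x i ^ m i) • coeff m f := by
    rw [eval_eq']
    apply Finset.sum_congr rfl
    intro m _
    rw [Algebra.smul_def, map_prod, mul_comm]
    congr 1
    apply Finset.prod_congr rfl
    intro i _
    rw [map_pow]
  have h2 : ∀ j, eval x (embComp j f) = (Module.Basis.ofVectorSpace K ℂ).coord j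
      (eval (fun i => algebraMap K ℂ (x i)) f) := by
    intro j
    rw [h1, map_sum, embComp]
    simp only [map_sum]
    apply Finset.sum_congr rfl
    intro m _
    rw [map_smul, smul_eq_mul, eval_monomial, mul_comm]
    congr 1
    rw [Finsupp.prod_fintype]
    intro i
    exact pow_zero _
  simp only [h2]
  exact ((Module.Basis.ofVectorSpace K ℂ).forall_coord_eq_zero_iff).symm

theorem embMap_eval {K L : Type} [Field K] [Field L] (φ : K →+* L) {n : ℕ}
    (g : MvPolynomial (Fin n) K) (x : Fin n → K) :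
    eval (fun i => φ (x i)) (map φ g) = 0 ↔ eval x g = 0 := by
  have h1 : eval (fun i => φ (x i)) (map φ g) = φ (eval x g) := by
    rw [eval_map]
    exact (eval₂_comp_left φ (RingHom.id _) x g).symm
  rw [h1]
  exact map_eq_zero_iff φ φ.injective

theorem transfer {K : Type} [Field K] [Algebra K ℂ] {L : Type} [Field L] (φ : K →+* L) {n : ℕ}
    (S : Set (MvPolynomial (Fin n) ℂ)) : ∃ T : Set (MvPolynomial (Fin n) L), ∀ v : Fin n → K,
      (∀ f ∈ S, eval (fun i => algebraMap K ℂ (v i)) f = 0) ↔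
        ∀ g ∈ T, eval (fun i => φ (v i)) g = 0 := by
  refine ⟨{g | ∃ f ∈ S, ∃ j, g = map φ (embComp (K := K) j f)}, fun v => ⟨?_, ?_⟩⟩
  · rintro h g ⟨f, hf, j, rfl⟩
    exact (embMap_eval φ _ v).2 ((embComp_eval f v).1 (h f hf) j)
  · intro h f hf
    exact (embComp_eval f v).2 fun j => (embMap_eval φ _ v).1 (h _ ⟨f, hf, j, rfl⟩)

theorem transfer_ne {K : Type} [Field K] [Algebra K ℂ] {L : Type} [Field L] (φ : K →+* L) {n : ℕ}
    {H : MvPolynomial (Fin n) ℂ} (hH : H ≠ 0) : ∃ H' : MvPolynomial (Fin n) L, H' ≠ 0 ∧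
      ∀ v : Fin n → K, eval (fun i => algebraMap K ℂ (v i)) H = 0 →
        eval (fun i => φ (v i)) H' = 0 := by
  obtain ⟨m, hm⟩ : ∃ m, coeff m H ≠ 0 := by
    by_contra h
    push Not at h
    exact hH (MvPolynomial.ext _ _ fun m => by rw [h m, coeff_zero])
  obtain ⟨j, hj⟩ : ∃ j, (Module.Basis.ofVectorSpace K ℂ).coord j (coeff m H) ≠ 0 := by
    by_contra h
    push Not at h
    exact hm (((Module.Basis.ofVectorSpace K ℂ).forall_coord_eq_zero_iff).1 h)
  refine ⟨map φ (embComp j H), ?_, fun v hv => (embMap_eval φ _ v).2 ((embComp_eval H v).1 hv j)⟩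
  have h1 : coeff m (embComp j H) = (Module.Basis.ofVectorSpace K ℂ).coord j (coeff m H) := by
    classical
    rw [embComp, coeff_sum]
    simp only [coeff_monomial]
    rw [Finset.sum_ite_eq' H.support m]
    rw [if_pos (mem_support_iff.2 hm)]
  intro h0
  have h2 : coeff m (map φ (embComp j H)) = φ (coeff m (embComp j H)) := coeff_map _ _ _
  rw [h0, coeff_zero, h1] at h2
  exact hj ((map_eq_zero_iff φ φ.injective).1 h2.symm)

end Pool.Agent.DMC
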