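import Pool.Agent.Lib.MP_e9abfe_ag_DMC.Defs

/-!
# Project DMC (MP_e9abfe_ag), module D8: expansions of the orbit to all orders
-/

set_option autoImplicit false

namespace Pool.Agent.DMC

open MvPolynomial

section field

variable {L : Type} [NormedField L] [IsUltrametricDist L] [CharZero L]

omit [IsUltrametricDist L] [CharZero L] in
theorem Expa_norm {U : ℕ → L} (hU : Sq U) (n : ℕ) : ‖U n‖ = ‖U 0‖ ^ 2 ^ n := by
  induction n with
  | zero => rw [pow_zero, pow_one]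
  | succ n ih => rw [hU.succ, norm_pow, ih, ← pow_mul, pow_succ]

omit [IsUltrametricDist L] [CharZero L] in
theorem Expa_one_lt {U : ℕ → L} (hU : Sq U) (n : ℕ) : 1 < ‖U n‖ := by
  rw [Expa_norm hU]
  exact one_lt_pow₀ hU.one_lt (pow_ne_zero _ two_ne_zero)

theorem Expa_per {f : ℕ → ℝ} {N : ℕ} (hN : 0 < N) (h : ∀ n, f (n + N) = f n) :
    ∃ B : ℝ, 0 ≤ B ∧ ∀ n, f n ≤ B := by
  refine ⟨∑ j ∈ Finset.range N, |f j|, Finset.sum_nonneg fun _ _ => abs_nonneg _, fun n => ?_⟩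
  have h1 : f (n % N) = f n := Function.Periodic.map_mod_nat h n
  rw [← h1]
  exact (le_abs_self _).trans (Finset.single_le_sum (f := fun j => |f j|)
    (fun _ _ => abs_nonneg _) (Finset.mem_range.2 (Nat.mod_lt _ hN)))

omit [IsUltrametricDist L] [CharZero L] in
theorem Expa_bd (P : Polynomial L) : ∃ B : ℝ, 0 ≤ B ∧ ∀ u : L, ‖u‖ ≤ 1 → ‖P.eval u‖ ≤ B := by
  refine ⟨∑ j ∈ Finset.range (P.natDegree + 1), ‖P.coeff j‖,
    Finset.sum_nonneg fun _ _ => norm_nonneg _, fun u hu => ?_⟩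
  rw [Polynomial.eval_eq_sum_range]
  refine (norm_sum_le _ _).trans (Finset.sum_le_sum fun j _ => ?_)
  rw [norm_mul, norm_pow]
  exact mul_le_of_le_one_right (norm_nonneg _) (pow_le_one₀ (norm_nonneg _) hu)

omit [IsUltrametricDist L] [CharZero L] in
theorem Expa_divX (P : Polynomial L) (u : L) :
    P.eval u - P.coeff 0 = P.divX.eval u * u := by
  conv_lhs => rw [← Polynomial.divX_mul_X_add P]
  rw [Polynomial.eval_add, Polynomial.eval_mul, Polynomial.eval_X, Polynomial.eval_C]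
  simp

omit [IsUltrametricDist L] [CharZero L] in
/-- a polynomial of order `k` at zero agrees with its term of order `k` up to order `k + 1` -/
theorem Expa_taylor (k : ℕ) (P : Polynomial L) : ∃ B : ℝ, 0 ≤ B ∧
    (Polynomial.X ^ k ∣ P → ∀ u : L, ‖u‖ ≤ 1 →
      ‖P.eval u - P.coeff k * u ^ k‖ ≤ B * ‖u‖ ^ (k + 1)) := by
  by_cases h : Polynomial.X ^ k ∣ P
  · obtain ⟨Q, rfl⟩ := h
    obtain ⟨B, hB, hB2⟩ := Expa_bd Q.divX
    refine ⟨B, hB, fun _ u hu => ?_⟩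
    have h1 : (Polynomial.X ^ k * Q).coeff k = Q.coeff 0 := by
      have := Polynomial.coeff_X_pow_mul Q k 0
      rwa [zero_add] at this
    rw [h1, Polynomial.eval_mul, Polynomial.eval_pow, Polynomial.eval_X]
    have h2 : u ^ k * Q.eval u - Q.coeff 0 * u ^ k = Q.divX.eval u * u ^ (k + 1) := by
      have := Expa_divX Q u
      rw [pow_succ]
      linear_combination u ^ k * this
    rw [h2, norm_mul, norm_pow]
    exact mul_le_mul_of_nonneg_right (hB2 u hu) (pow_nonneg (norm_nonneg _) _)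
  · exact ⟨0, le_rfl, fun h' => absurd h' h⟩

omit [IsUltrametricDist L] [CharZero L] in
/-- a polynomial which is of order `k` along a null sequence is divisible by `X ^ k` -/
theorem Expa_dvd {u : ℕ → L} (hu0 : ∀ n, u n ≠ 0) (hu1 : ∀ n, ‖u n‖ ≤ 1) {S : Set ℕ}
    (hS : ∀ ε : ℝ, 0 < ε → ∃ n ∈ S, ‖u n‖ < ε) (P : Polynomial L) (k : ℕ) {C : ℝ}
    (h : ∀ n ∈ S, ‖P.eval (u n)‖ ≤ C * ‖u n‖ ^ k) : Polynomial.X ^ k ∣ P := by
  induction k with
  | zero =>
    rw [pow_zero]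
    exact one_dvd P
  | succ k ih =>
    have hC : 0 ≤ C := by
      obtain ⟨n, hn, -⟩ := hS 1 one_pos
      have h1 := (norm_nonneg _).trans (h n hn)
      have h2 : 0 < ‖u n‖ ^ (k + 1) := pow_pos (norm_pos_iff.2 (hu0 n)) _
      exact nonneg_of_mul_nonneg_left h1 h2
    obtain ⟨Q, rfl⟩ := ih fun n hn => (h n hn).trans (mul_le_mul_of_nonneg_left
      (pow_le_pow_of_le_one (norm_nonneg _) (hu1 n) (Nat.le_succ k)) hC)
    obtain ⟨B, hB, hB2⟩ := Expa_bd Q.divX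
    have hQ : ∀ n ∈ S, ‖Q.coeff 0‖ ≤ (B + C) * ‖u n‖ := by
      intro n hn
      have h1 := h n hn
      rw [Polynomial.eval_mul, Polynomial.eval_pow, Polynomial.eval_X, norm_mul, norm_pow,
        pow_succ, ← mul_assoc, mul_comm C, mul_assoc] at h1
      have h2 : ‖Q.eval (u n)‖ ≤ C * ‖u n‖ :=
        le_of_mul_le_mul_left h1 (pow_pos (norm_pos_iff.2 (hu0 n)) _)
      have h3 := Expa_divX Q (u n)
      have h4 : Q.coeff 0 = Q.eval (u n) - Q.divX.eval (u n) * u n := by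
        linear_combination -h3
      rw [h4]
      refine (norm_sub_le _ _).trans ?_
      rw [norm_mul, add_mul, add_comm]
      exact add_le_add (mul_le_mul_of_nonneg_right (hB2 _ (hu1 n)) (norm_nonneg _)) h2
    have hQ0 : Q.coeff 0 = 0 := by
      by_contra hne
      have hpos : 0 < ‖Q.coeff 0‖ := norm_pos_iff.2 hne
      have hBC : 0 < B + C + 1 := by linarith
      obtain ⟨n, hn, hlt⟩ := hS (‖Q.coeff 0‖ / (B + C + 1)) (div_pos hpos hBC)
      have h1 := hQ n hn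
      rw [lt_div_iff₀ hBC] at hlt
      have h2 := norm_nonneg (u n)
      nlinarith
    have h5 : Q = Q.divX * Polynomial.X := by
      have := Polynomial.divX_mul_X_add Q
      rw [hQ0, map_zero, add_zero] at this
      exact this.symm
    rw [pow_succ]
    refine mul_dvd_mul_left _ ?_
    rw [h5]
    exact dvd_mul_left _ _

omit [IsUltrametricDist L] in
/-- solution of the linearised recursion -/
theorem Expa_lin {u : ℕ → L} (hu0 : ∀ n, u n ≠ 0) (hu1 : ∀ n, ‖u n‖ ≤ 1) {N : ℕ} (hN : 0 < N)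
    (hS : ∀ (r : ℕ) (ε : ℝ), 0 < ε → ∃ n, n % N = r % N ∧ ‖u n‖ < ε) {w : ℕ → L}
    (hw : ∀ n, w (n + N) = w n) (hw0 : ∀ n, w n ≠ 0) {R : ℕ → Polynomial L}
    (hR : ∀ n, R (n + N) = R n) {e : ℕ → L} {k : ℕ} {C D : ℝ} (hC : 0 ≤ C) (hD : 0 ≤ D)
    (he : ∀ n, ‖e n‖ ≤ C * ‖u n‖ ^ k)
    (h : ∀ n, ‖2 * w n * e n - (R n).eval (u n)‖ ≤ D * ‖u n‖ ^ (k + 1)) :
    ∃ (γ : ℕ → L) (C' : ℝ), 0 ≤ C' ∧ (∀ n, γ (n + N) = γ n) ∧
      ∀ n, ‖e n - γ n * u n ^ k‖ ≤ C' * ‖u n‖ ^ (k + 1) := by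
  have h20 : (2 : L) ≠ 0 := two_ne_zero
  choose B hB hB2 using Expa_taylor (L := L) k
  have hRmod : ∀ n, R (n % N) = R n := fun n => Function.Periodic.map_mod_nat hR n
  have hwmod : ∀ n, w (n % N) = w n := fun n => Function.Periodic.map_mod_nat hw n
  have hdvd : ∀ n, Polynomial.X ^ k ∣ R n := by
    intro n
    refine Expa_dvd hu0 hu1 (S := {j | j % N = n % N}) (hS n) (R n) k
      (C := ‖2 * w n‖ * C + D) ?_
    intro j hj
    have hj' : j % N = n % N := hj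
    have e1 : R n = R j := by rw [← hRmod n, ← hRmod j, hj']
    have e2 : w n = w j := by rw [← hwmod n, ← hwmod j, hj']
    rw [e1, e2]
    have h1 : (R j).eval (u j) = 2 * w j * e j - (2 * w j * e j - (R j).eval (u j)) := by ring
    rw [h1]
    refine (norm_sub_le _ _).trans ?_
    rw [norm_mul (2 * w j), add_mul]
    refine add_le_add ((mul_le_mul_of_nonneg_left (he j) (norm_nonneg _)).trans_eq
      (mul_assoc _ _ _).symm) ((h j).trans ?_)
    exact mul_le_mul_of_nonneg_left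
      (pow_le_pow_of_le_one (norm_nonneg _) (hu1 j) (Nat.le_succ k)) hD
  obtain ⟨C', hC', hC'2⟩ := Expa_per (f := fun n => (D + B (R n)) / ‖2 * w n‖) hN fun n => by
    simp only [hR n, hw n]
  refine ⟨fun n => (R n).coeff k / (2 * w n), C', hC', fun n => by simp only [hR n, hw n],
    fun n => ?_⟩
  have h2w : 2 * w n ≠ 0 := mul_ne_zero h20 (hw0 n)
  have h2w' : 0 < ‖2 * w n‖ := norm_pos_iff.2 h2w
  have h1 : e n - (R n).coeff k / (2 * w n) * u n ^ k =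
      ((2 * w n * e n - (R n).eval (u n)) + ((R n).eval (u n) - (R n).coeff k * u n ^ k)) /
        (2 * w n) := by
    have hwn := hw0 n
    field_simp
    ring
  rw [h1, norm_div]
  have h3 : ‖(2 * w n * e n - (R n).eval (u n)) + ((R n).eval (u n) - (R n).coeff k * u n ^ k)‖ ≤
      (D + B (R n)) * ‖u n‖ ^ (k + 1) := by
    rw [add_mul]
    exact (norm_add_le _ _).trans (add_le_add (h n) (hB2 (R n) (hdvd n) (u n) (hu1 n)))
  calc _ ≤ (D + B (R n)) * ‖u n‖ ^ (k + 1) / ‖2 * w n‖ :=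
        div_le_div_of_nonneg_right h3 h2w'.le
    _ = (D + B (R n)) / ‖2 * w n‖ * ‖u n‖ ^ (k + 1) := by ring
    _ ≤ C' * ‖u n‖ ^ (k + 1) :=
        mul_le_mul_of_nonneg_right (hC'2 n) (pow_nonneg (norm_nonneg _) _)

omit [IsUltrametricDist L] in
/-- the expansion, for an abstract recursion -/
theorem Expa_main {u : ℕ → L} (hu0 : ∀ n, u n ≠ 0) (hu1 : ∀ n, ‖u n‖ ≤ 1)
    (hus : ∀ n, u (n + 1) = u n ^ 2) {N : ℕ} (hN : 0 < N)
    (hS : ∀ (r : ℕ) (ε : ℝ), 0 < ε → ∃ n, n % N = r % N ∧ ‖u n‖ < ε)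
    {v : ℕ → Fin 3 → L} {w : ℕ → Fin 3 → L} {a : Fin 3 → ℕ} (ha : 1 ≤ a 0)
    (hrec : ∀ n i, v (n + 1) i = v n i ^ 2 + u n ^ a i * v n (i + 1))
    (hw : ∀ n, w (n + N) = w n) (hw0 : ∀ n i, w n i ≠ 0) {C₀ : ℝ}
    (h1 : ∀ n i, ‖v n i - w n i‖ ≤ C₀ * ‖u n‖) (k : ℕ) :
    ∃ (G : ℕ → Fin 3 → Polynomial L) (C : ℝ), 0 ≤ C ∧ (∀ n, G (n + N) = G n) ∧
      (∀ n i, (G n i).coeff 0 = w n i) ∧
      ∀ n i, ‖v n i - (G n i).eval (u n)‖ ≤ C * ‖u n‖ ^ (k + 1) := by
  induction k with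
  | zero =>
    refine ⟨fun n i => Polynomial.C (w n i), |C₀|, abs_nonneg _, fun n => by
      simp only [hw n], fun n i => Polynomial.coeff_C_zero, fun n i => ?_⟩
    rw [Polynomial.eval_C, zero_add, pow_one]
    exact (h1 n i).trans (mul_le_mul_of_nonneg_right (le_abs_self _) (norm_nonneg _))
  | succ k ih =>
    obtain ⟨G, C, hC, hG, hG0, herr⟩ := ih
    have hun : ∀ n, 0 ≤ ‖u n‖ := fun n => norm_nonneg _
    -- the errors
    let e : ℕ → Fin 3 → L := fun n i => v n i - (G n i).eval (u n)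
    have he : ∀ n i, ‖e n i‖ ≤ C * ‖u n‖ ^ (k + 1) := herr
    let R : ℕ → Fin 3 → Polynomial L := fun n i =>
      (G (n + 1) i).comp (Polynomial.X ^ 2) - G n i ^ 2 - Polynomial.X ^ a i * G n (i + 1)
    have hR : ∀ n, R (n + N) = R n := by
      intro n
      have h2 : n + N + 1 = n + 1 + N := by ring
      simp only [R, h2, hG]
    -- `G n i` at `u n` is close to `w n i`
    choose B hB hB2 using Expa_taylor (L := L) 0
    obtain ⟨B₁, hB₁, hB₁2⟩ := Expa_per (f := fun n => ∑ i, B (G n i)) hN fun n => by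
      simp only [hG n]
    have hGw : ∀ n i, ‖(G n i).eval (u n) - w n i‖ ≤ B₁ * ‖u n‖ := by
      intro n i
      have h2 := hB2 (G n i) (by rw [pow_zero]; exact one_dvd _) (u n) (hu1 n)
      rw [hG0, pow_zero, mul_one, zero_add, pow_one] at h2
      refine h2.trans (mul_le_mul_of_nonneg_right (le_trans ?_ (hB₁2 n)) (hun n))
      exact Finset.single_le_sum (f := fun i => B (G n i)) (fun j _ => hB _) (Finset.mem_univ i)
    -- the linearised recursion
    have hpow : ∀ n, ‖u n‖ ^ ((k + 1) * 2) ≤ ‖u n‖ ^ (k + 1 + 1) := fun n =>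
      pow_le_pow_of_le_one (hun n) (hu1 n) (by omega)
    have hlin : ∀ n i, ‖2 * w n i * e n i + u n ^ a i * e n (i + 1) - (R n i).eval (u n)‖ ≤
        (‖(2 : L)‖ * B₁ * C + C ^ 2 + C) * ‖u n‖ ^ (k + 1 + 1) := by
      intro n i
      have e1 : (R n i).eval (u n) = (G (n + 1) i).eval (u (n + 1)) - (G n i).eval (u n) ^ 2 -
          u n ^ a i * (G n (i + 1)).eval (u n) := by
        simp only [R, Polynomial.eval_sub, Polynomial.eval_mul, Polynomial.eval_pow,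
          Polynomial.eval_X, Polynomial.eval_comp, hus]
      have e2 : 2 * w n i * e n i + u n ^ a i * e n (i + 1) - (R n i).eval (u n) =
          e (n + 1) i - (2 * ((G n i).eval (u n) - w n i) * e n i + e n i ^ 2) := by
        rw [e1]
        simp only [e]
        rw [hrec n i]
        ring
      rw [e2]
      have h3 : ‖e (n + 1) i‖ ≤ C * ‖u n‖ ^ (k + 1 + 1) := by
        refine (he (n + 1) i).trans (mul_le_mul_of_nonneg_left ?_ hC)
        rw [hus, norm_pow, ← pow_mul, mul_comm]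
        exact hpow n
      have h4 : ‖2 * ((G n i).eval (u n) - w n i) * e n i‖ ≤
          ‖(2 : L)‖ * B₁ * C * ‖u n‖ ^ (k + 1 + 1) := by
        rw [norm_mul, norm_mul]
        calc _ ≤ ‖(2 : L)‖ * (B₁ * ‖u n‖) * (C * ‖u n‖ ^ (k + 1)) := by
              refine mul_le_mul (mul_le_mul_of_nonneg_left (hGw n i) (norm_nonneg _)) (he n i)
                (norm_nonneg _) ?_
              exact mul_nonneg (norm_nonneg _) (mul_nonneg hB₁ (hun n))
          _ = _ := by ring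
      have h5 : ‖e n i ^ 2‖ ≤ C ^ 2 * ‖u n‖ ^ (k + 1 + 1) := by
        rw [norm_pow]
        calc _ ≤ (C * ‖u n‖ ^ (k + 1)) ^ 2 := pow_le_pow_left₀ (norm_nonneg _) (he n i) 2
          _ = C ^ 2 * ‖u n‖ ^ ((k + 1) * 2) := by ring
          _ ≤ _ := mul_le_mul_of_nonneg_left (hpow n) (sq_nonneg C)
      refine (norm_sub_le _ _).trans ?_
      have h6 := norm_add_le (2 * ((G n i).eval (u n) - w n i) * e n i) (e n i ^ 2)
      linarith
    set D : ℝ := ‖(2 : L)‖ * B₁ * C + C ^ 2 + C with hDdef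
    have hD : 0 ≤ D := by positivity
    -- one coordinate
    have step : ∀ (i : Fin 3) (γ' : ℕ → L) (C' : ℝ), 0 ≤ C' → (∀ n, γ' (n + N) = γ' n) →
        (∀ n, ‖u n ^ a i * e n (i + 1) - γ' n * u n ^ (k + 1 + a i)‖ ≤
          C' * ‖u n‖ ^ (k + 1 + 1)) →
        ∃ (γ : ℕ → L) (C'' : ℝ), 0 ≤ C'' ∧ (∀ n, γ (n + N) = γ n) ∧
          ∀ n, ‖e n i - γ n * u n ^ (k + 1)‖ ≤ C'' * ‖u n‖ ^ (k + 1 + 1) := by
      intro i γ' C' hC' hγ' h'
      refine Expa_lin hu0 hu1 hN hS (w := fun n => w n i) (fun n => by simp only [hw n])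
        (fun n => hw0 n i) (R := fun n => R n i - Polynomial.C (γ' n) *
          Polynomial.X ^ (k + 1 + a i)) (fun n => by simp only [hR n, hγ' n]) hC
        (D := D + C') (add_nonneg hD hC') (fun n => he n i) fun n => ?_
      rw [Polynomial.eval_sub, Polynomial.eval_mul, Polynomial.eval_C, Polynomial.eval_pow,
        Polynomial.eval_X, add_mul]
      have e3 : 2 * w n i * e n i - ((R n i).eval (u n) - γ' n * u n ^ (k + 1 + a i)) =
          (2 * w n i * e n i + u n ^ a i * e n (i + 1) - (R n i).eval (u n)) -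
            (u n ^ a i * e n (i + 1) - γ' n * u n ^ (k + 1 + a i)) := by ring
      rw [e3]
      exact (norm_sub_le _ _).trans (add_le_add (hlin n i) (h' n))
    have hua : ∀ n i, ‖u n ^ a i‖ ≤ 1 := fun n i => by
      rw [norm_pow]
      exact pow_le_one₀ (hun n) (hu1 n)
    -- the coordinate `x`
    obtain ⟨γ₀, C₁, hC₁, hγ₀, hγ₀2⟩ := step 0 (fun _ => 0) C hC (fun _ => rfl) fun n => by
      rw [zero_mul, sub_zero, norm_mul, norm_pow]
      calc _ ≤ ‖u n‖ ^ 1 * (C * ‖u n‖ ^ (k + 1)) :=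
            mul_le_mul (pow_le_pow_of_le_one (hun n) (hu1 n) ha) (he n _) (norm_nonneg _)
              (pow_nonneg (hun n) _)
        _ = _ := by ring
    have next : ∀ (i : Fin 3) (γ' : ℕ → L) (C' : ℝ), 0 ≤ C' →
        (∀ n, ‖e n (i + 1) - γ' n * u n ^ (k + 1)‖ ≤ C' * ‖u n‖ ^ (k + 1 + 1)) →
        ∀ n, ‖u n ^ a i * e n (i + 1) - γ' n * u n ^ (k + 1 + a i)‖ ≤
          C' * ‖u n‖ ^ (k + 1 + 1) := by
      intro i γ' C' hC' h' n
      have e4 : u n ^ a i * e n (i + 1) - γ' n * u n ^ (k + 1 + a i) =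
          u n ^ a i * (e n (i + 1) - γ' n * u n ^ (k + 1)) := by
        rw [pow_add]
        ring
      rw [e4, norm_mul]
      calc _ ≤ 1 * (C' * ‖u n‖ ^ (k + 1 + 1)) :=
            mul_le_mul (hua n i) (h' n) (norm_nonneg _) zero_le_one
        _ = _ := one_mul _
    -- the coordinates `z` and `y`
    obtain ⟨γ₂, C₂, hC₂, hγ₂, hγ₂2⟩ := step 2 γ₀ C₁ hC₁ hγ₀ (next 2 γ₀ C₁ hC₁ hγ₀2)
    obtain ⟨γ₁, C₃, hC₃, hγ₁, hγ₁2⟩ := step 1 γ₂ C₂ hC₂ hγ₂ (next 1 γ₂ C₂ hC₂ hγ₂2)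
    refine ⟨fun n i => G n i + Polynomial.C (![γ₀ n, γ₁ n, γ₂ n] i) * Polynomial.X ^ (k + 1),
      C₁ + C₂ + C₃, by positivity, fun n => ?_, fun n i => ?_, fun n i => ?_⟩
    · simp only [hG n, hγ₀ n, hγ₁ n, hγ₂ n]
    · rw [Polynomial.coeff_add, hG0, Polynomial.coeff_C_mul, Polynomial.coeff_X_pow,
        if_neg (by omega), mul_zero, add_zero]
    · have e5 : v n i - (G n i + Polynomial.C (![γ₀ n, γ₁ n, γ₂ n] i) *
          Polynomial.X ^ (k + 1)).eval (u n) = e n i - ![γ₀ n, γ₁ n, γ₂ n] i * u n ^ (k + 1) := by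
        simp only [e, Polynomial.eval_add, Polynomial.eval_mul, Polynomial.eval_C,
          Polynomial.eval_pow, Polynomial.eval_X]
        ring
      rw [e5]
      have hp : 0 ≤ ‖u n‖ ^ (k + 1 + 1) := pow_nonneg (hun n) _
      fin_cases i
      · refine (hγ₀2 n).trans (mul_le_mul_of_nonneg_right ?_ hp)
        linarith
      · refine (hγ₁2 n).trans (mul_le_mul_of_nonneg_right ?_ hp)
        linarith
      · refine (hγ₂2 n).trans (mul_le_mul_of_nonneg_right ?_ hp)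
        linarith

omit [IsUltrametricDist L] [CharZero L] in
theorem Expa_rec {X X₁ Y U : L} (hU : U ≠ 0) (hX : X₁ = X ^ 2 + Y) {p q a : ℕ}
    (h : 2 * p = q + a) :
    X₁ / (U ^ 2) ^ p = (X / U ^ p) ^ 2 + U⁻¹ ^ a * (Y / U ^ q) := by
  have h1 : (U ^ 2) ^ p = U ^ q * U ^ a := by rw [← pow_mul, h, pow_add]
  have h2 : (U ^ p) ^ 2 = U ^ q * U ^ a := by rw [← pow_mul, mul_comm, h, pow_add]
  have h3 : U ^ q ≠ 0 := pow_ne_zero _ hU
  have h4 : U ^ a ≠ 0 := pow_ne_zero _ hU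
  rw [hX, h1, div_pow, h2, inv_pow]
  field_simp

/-! ### D8 Expa.lean: expansions to all orders -/

theorem expand {x y z U : ℕ → L} {p q s N : ℕ} {b c : ℕ → L} (h : Asy x y z U p q s N b c)
    (k : ℕ) : ∃ (G : ℕ → Fin 3 → Polynomial L) (C : ℝ), (∀ n, G (n + N) = G n) ∧
      ∀ n i, ‖![x n / U n ^ p, y n / U n ^ q, z n / U n ^ s] i - (G n i).eval (U n)⁻¹‖ ≤
        C / ‖U n‖ ^ k := by
  have hU := h.sq
  have h1U : ∀ n, 1 < ‖U n‖ := Expa_one_lt hU
  have hU0 : ∀ n, U n ≠ 0 := fun n => norm_pos_iff.1 (zero_lt_one.trans (h1U n))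
  have hu0 : ∀ n, (U n)⁻¹ ≠ 0 := fun n => inv_ne_zero (hU0 n)
  have hu1 : ∀ n, ‖(U n)⁻¹‖ ≤ 1 := fun n => by
    rw [norm_inv]
    exact inv_le_one_of_one_le₀ (h1U n).le
  have hus : ∀ n, (U (n + 1))⁻¹ = (U n)⁻¹ ^ 2 := fun n => by rw [hU.succ, inv_pow]
  have hS : ∀ (r : ℕ) (ε : ℝ), 0 < ε → ∃ n, n % N = r % N ∧ ‖(U n)⁻¹‖ < ε := by
    intro r ε hε
    obtain ⟨j, hj⟩ := pow_unbounded_of_one_lt ε⁻¹ hU.one_lt
    refine ⟨r + N * j, by rw [Nat.add_mul_mod_self_left], ?_⟩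
    rw [norm_inv]
    refine inv_lt_of_inv_lt₀ hε (hj.trans_le ?_)
    rw [Expa_norm hU (r + N * j)]
    refine pow_le_pow_right₀ hU.one_lt.le ?_
    calc j ≤ 1 * j := (one_mul j).ge
      _ ≤ N * j := Nat.mul_le_mul_right _ h.N_pos
      _ ≤ r + N * j := Nat.le_add_left _ _
      _ ≤ 2 ^ (r + N * j) := Nat.lt_two_pow_self.le
  obtain ⟨a₀, ha₀⟩ : ∃ a, 2 * p = q + a := ⟨2 * p - q, by have := h.q_le; omega⟩
  obtain ⟨a₁, ha₁⟩ : ∃ a, 2 * q = s + a := ⟨2 * q - s, by have := h.s_le; omega⟩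
  obtain ⟨a₂, ha₂⟩ : ∃ a, 2 * s = p + a := ⟨2 * s - p, by have := h.p_le; omega⟩
  obtain ⟨C₀, hC₀⟩ := h.hx
  obtain ⟨C₁, hC₁⟩ := h.hy
  obtain ⟨C₂, hC₂⟩ := h.hz
  obtain ⟨G, C, hC, hG, -, herr⟩ := Expa_main (u := fun n => (U n)⁻¹) hu0 hu1 hus h.N_pos hS
    (v := fun n => ![x n / U n ^ p, y n / U n ^ q, z n / U n ^ s])
    (w := fun n => ![1, b n, c n]) (a := ![a₀, a₁, a₂])
    (by
      show 1 ≤ a₀
      have := h.q_le
      have := h.q_pos
      omega)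
    (by
      intro n i
      fin_cases i
      · show x (n + 1) / U (n + 1) ^ p = (x n / U n ^ p) ^ 2 + (U n)⁻¹ ^ a₀ * (y n / U n ^ q)
        rw [hU.succ]
        exact Expa_rec (hU0 n) (h.orb.x_succ n) ha₀
      · show y (n + 1) / U (n + 1) ^ q = (y n / U n ^ q) ^ 2 + (U n)⁻¹ ^ a₁ * (z n / U n ^ s)
        rw [hU.succ]
        exact Expa_rec (hU0 n) (h.orb.y_succ n) ha₁
      · show z (n + 1) / U (n + 1) ^ s = (z n / U n ^ s) ^ 2 + (U n)⁻¹ ^ a₂ * (x n / U n ^ p)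
        rw [hU.succ]
        exact Expa_rec (hU0 n) (h.orb.z_succ n) ha₂)
    (fun n => by simp only [h.b_per, h.c_per])
    (by
      intro n i
      fin_cases i
      · exact one_ne_zero
      · exact h.b_ne n
      · exact h.c_ne n)
    (C₀ := max C₀ (max C₁ C₂))
    (by
      intro n i
      have hi : ‖(U n)⁻¹‖ = 1 / ‖U n‖ := by rw [norm_inv, one_div]
      rw [hi, mul_one_div]
      have hpos : 0 ≤ ‖U n‖ := norm_nonneg _
      fin_cases i
      · exact (hC₀ n).trans (div_le_div_of_nonneg_right (le_max_left _ _) hpos)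
      · exact (hC₁ n).trans (div_le_div_of_nonneg_right
          ((le_max_left _ _).trans (le_max_right _ _)) hpos)
      · exact (hC₂ n).trans (div_le_div_of_nonneg_right
          ((le_max_right _ _).trans (le_max_right _ _)) hpos)) k
  refine ⟨G, C, hG, fun n i => (herr n i).trans ?_⟩
  have h2 : ‖(U n)⁻¹‖ ^ (k + 1) ≤ ‖(U n)⁻¹‖ ^ k :=
    pow_le_pow_of_le_one (norm_nonneg _) (hu1 n) (Nat.le_succ k)
  calc C * ‖(U n)⁻¹‖ ^ (k + 1) ≤ C * ‖(U n)⁻¹‖ ^ k := mul_le_mul_of_nonneg_left h2 hC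
    _ = C / ‖U n‖ ^ k := by rw [norm_inv, inv_pow, div_eq_mul_inv]

end field

end Pool.Agent.DMC
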