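import Pool.Agent.Lib.MP_e9abfe_ag_DMC.Defs
import Pool.Agent.Lib.MP_e9abfe_ag_DMC.Expa

/-!
# Project DMC (MP_e9abfe_ag), module D9: polynomials vanishing infinitely often are flat
-/

set_option autoImplicit false

namespace Pool.Agent.DMC

open MvPolynomial

section field

variable {L : Type} [NormedField L] [IsUltrametricDist L] [CharZero L]

omit [IsUltrametricDist L] [CharZero L] in
/-- homogenisation in negative powers of `U` -/
theorem Flat_hom (e : Fin 3 → ℕ) (P : MvPolynomial (Fin 3) L) :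
    ∃ (D : ℕ) (P' : MvPolynomial (Fin 4) L), ∀ (w : Fin 3 → L) (U : L), U ≠ 0 →
      eval (Fin.cons U⁻¹ fun i => w i / U ^ e i : Fin 4 → L) P' * U ^ D = eval w P := by
  induction P using MvPolynomial.induction_on with
  | C a => exact ⟨0, C a, fun w U _ => by rw [eval_C, eval_C, pow_zero, mul_one]⟩
  | add p q hp hq =>
    obtain ⟨D₁, p', h₁⟩ := hp
    obtain ⟨D₂, q', h₂⟩ := hq
    refine ⟨D₁ + D₂, p' * X 0 ^ D₂ + q' * X 0 ^ D₁, fun w U hU => ?_⟩
    rw [map_add (eval w), ← h₁ w U hU, ← h₂ w U hU, map_add, map_mul, map_mul, map_pow, map_pow,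
      eval_X, Fin.cons_zero, pow_add]
    have h3 : U⁻¹ ^ D₁ * U ^ D₁ = 1 := by rw [← mul_pow, inv_mul_cancel₀ hU, one_pow]
    have h4 : U⁻¹ ^ D₂ * U ^ D₂ = 1 := by rw [← mul_pow, inv_mul_cancel₀ hU, one_pow]
    linear_combination
      eval (Fin.cons U⁻¹ fun i => w i / U ^ e i : Fin 4 → L) p' * U ^ D₁ * h4 +
      eval (Fin.cons U⁻¹ fun i => w i / U ^ e i : Fin 4 → L) q' * U ^ D₂ * h3
  | mul_X p i hp =>
    obtain ⟨D, p', h⟩ := hp
    refine ⟨D + e i, p' * X i.succ, fun w U hU => ?_⟩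
    rw [map_mul (eval w), ← h w U hU, map_mul, eval_X, eval_X, Fin.cons_succ, pow_add]
    have h3 : w i / U ^ e i * U ^ e i = w i := div_mul_cancel₀ _ (pow_ne_zero _ hU)
    linear_combination
      eval (Fin.cons U⁻¹ fun i => w i / U ^ e i : Fin 4 → L) p' * U ^ D * h3

omit [IsUltrametricDist L] [CharZero L] in
/-- polynomials are bounded and Lipschitz on bounded sets -/
theorem Flat_lip {σ : Type} {B : ℝ} (hB : 0 ≤ B) (P : MvPolynomial σ L) :
    ∃ C : ℝ, 0 ≤ C ∧ (∀ v : σ → L, (∀ i, ‖v i‖ ≤ B) → ‖eval v P‖ ≤ C) ∧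
      ∀ (v v' : σ → L) (δ : ℝ), 0 ≤ δ → (∀ i, ‖v i‖ ≤ B) → (∀ i, ‖v' i‖ ≤ B) →
        (∀ i, ‖v i - v' i‖ ≤ δ) → ‖eval v P - eval v' P‖ ≤ C * δ := by
  induction P using MvPolynomial.induction_on with
  | C a =>
    refine ⟨‖a‖, norm_nonneg _, fun v _ => by rw [eval_C], fun v v' δ hδ _ _ _ => ?_⟩
    rw [eval_C, eval_C, sub_self, norm_zero]
    exact mul_nonneg (norm_nonneg _) hδ
  | add p q hp hq =>
    obtain ⟨C₁, h₁, h₁b, h₁l⟩ := hp
    obtain ⟨C₂, h₂, h₂b, h₂l⟩ := hq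
    refine ⟨C₁ + C₂, add_nonneg h₁ h₂, fun v hv => ?_, fun v v' δ hδ hv hv' hd => ?_⟩
    · rw [map_add]
      exact (norm_add_le _ _).trans (add_le_add (h₁b v hv) (h₂b v hv))
    · rw [map_add, map_add, add_sub_add_comm, add_mul]
      exact (norm_add_le _ _).trans (add_le_add (h₁l v v' δ hδ hv hv' hd)
        (h₂l v v' δ hδ hv hv' hd))
  | mul_X p i hp =>
    obtain ⟨C, h, hb, hl⟩ := hp
    refine ⟨C * B + C, add_nonneg (mul_nonneg h hB) h, fun v hv => ?_,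
      fun v v' δ hδ hv hv' hd => ?_⟩
    · rw [map_mul, eval_X, norm_mul]
      exact (mul_le_mul (hb v hv) (hv i) (norm_nonneg _) h).trans (le_add_of_nonneg_right h)
    · rw [map_mul, map_mul, eval_X, eval_X]
      have h1 : eval v p * v i - eval v' p * v' i =
          (eval v p - eval v' p) * v i + eval v' p * (v i - v' i) := by ring
      rw [h1]
      refine (norm_add_le _ _).trans ?_
      rw [norm_mul, norm_mul, add_mul]
      refine add_le_add ?_ (mul_le_mul (hb v' hv') (hd i) (norm_nonneg _) h)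
      calc ‖eval v p - eval v' p‖ * ‖v i‖ ≤ C * δ * B :=
            mul_le_mul (hl v v' δ hδ hv hv' hd) (hv i) (norm_nonneg _) (mul_nonneg h hδ)
        _ = C * B * δ := by ring

omit [IsUltrametricDist L] [CharZero L] in
theorem Flat_eval {σ : Type} (g : σ → Polynomial L) (P : MvPolynomial σ L) (t : L) :
    (aeval g P).eval t = eval (fun i => (g i).eval t) P := by
  induction P using MvPolynomial.induction_on with
  | C a => simp
  | add p q hp hq => rw [map_add, Polynomial.eval_add, hp, hq, map_add]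
  | mul_X p i hp => rw [map_mul, Polynomial.eval_mul, hp, aeval_X, map_mul, eval_X]

omit [IsUltrametricDist L] [CharZero L] in
/-- the inverses of a squaring orbit are small somewhere on every infinite set -/
theorem Flat_small {U : ℕ → L} (hU : Sq U) {S : Set ℕ} (hS : S.Infinite) {ε : ℝ} (hε : 0 < ε) :
    ∃ n ∈ S, ‖(U n)⁻¹‖ < ε := by
  obtain ⟨m, hm⟩ := pow_unbounded_of_one_lt ε⁻¹ hU.one_lt
  obtain ⟨n, hn, hmn⟩ := hS.exists_gt m
  refine ⟨n, hn, ?_⟩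
  have h1 : ε⁻¹ < ‖U n‖ := by
    rw [Expa_norm hU]
    refine hm.trans_le (pow_le_pow_right₀ hU.one_lt.le ?_)
    exact hmn.le.trans Nat.lt_two_pow_self.le
  rw [norm_inv]
  exact inv_lt_of_inv_lt₀ hε h1

/-! ### D9 Flat.lean -/

theorem flat {x y z U : ℕ → L} {p q s N : ℕ} {b c : ℕ → L} (h : Asy x y z U p q s N b c)
    (P : MvPolynomial (Fin 3) L) (r : ℕ)
    (hinf : {n | n % N = r ∧ eval ![x n, y n, z n] P = 0}.Infinite) (k : ℕ) :
    ∃ C : ℝ, ∀ n, n % N = r → ‖eval ![x n, y n, z n] P‖ * ‖U n‖ ^ k ≤ C := by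
  obtain ⟨D, P', hP'⟩ := Flat_hom ![p, q, s] P
  obtain ⟨G, C₀, hG, hC₀⟩ := expand h (k + D)
  have hUn : ∀ n, 1 < ‖U n‖ := Expa_one_lt h.sq
  have hU0 : ∀ n, U n ≠ 0 := fun n => norm_pos_iff.1 (one_pos.trans (hUn n))
  have hu1 : ∀ n, ‖(U n)⁻¹‖ ≤ 1 := fun n => by
    rw [norm_inv]
    exact inv_le_one_of_one_le₀ (hUn n).le
  have hGr : ∀ n, n % N = r → G n = G r := fun n hn => by
    rw [← hn]
    exact (Function.Periodic.map_mod_nat hG n).symm
  choose Bd hBd0 hBd using fun i => Expa_bd (G r i)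
  have hC₀0 : 0 ≤ C₀ := by
    have h1 := (norm_nonneg _).trans (hC₀ 0 0)
    have h2 : 0 < ‖U 0‖ ^ (k + D) := pow_pos (one_pos.trans (hUn 0)) _
    by_contra hneg
    exact absurd h1 (not_le.2 (div_neg_of_neg_of_pos (not_le.1 hneg) h2))
  have hsum : ∀ i, Bd i ≤ ∑ j, Bd j := fun i =>
    Finset.single_le_sum (f := Bd) (fun j _ => hBd0 j) (Finset.mem_univ i)
  have hsum0 : 0 ≤ ∑ j, Bd j := Finset.sum_nonneg fun j _ => hBd0 j
  have hB : 0 ≤ ∑ j, Bd j + C₀ + 1 := by positivity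
  obtain ⟨C₁, hC₁, -, hlip⟩ := Flat_lip hB P'
  -- the one variable polynomial
  obtain ⟨T, hT⟩ : ∃ T : Polynomial L, ∀ t : L,
      T.eval t = eval (Fin.cons t fun i => (G r i).eval t : Fin 4 → L) P' := by
    refine ⟨aeval (Fin.cons Polynomial.X (G r) : Fin 4 → Polynomial L) P', fun t => ?_⟩
    rw [Flat_eval]
    congr 1
    congr 1
    funext i
    refine Fin.cases ?_ (fun i => ?_) i
    · rw [Fin.cons_zero, Fin.cons_zero, Polynomial.eval_X]
    · rw [Fin.cons_succ, Fin.cons_succ]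
  have hw : ∀ n i, ![x n, y n, z n] i / U n ^ (![p, q, s] : Fin 3 → ℕ) i =
      ![x n / U n ^ p, y n / U n ^ q, z n / U n ^ s] i := by
    intro n i
    fin_cases i <;> rfl
  have hkey : ∀ n, n % N = r →
      ‖eval (Fin.cons (U n)⁻¹ fun i => ![x n, y n, z n] i / U n ^ (![p, q, s] : Fin 3 → ℕ) i :
        Fin 4 → L) P' - T.eval (U n)⁻¹‖ ≤ C₁ * C₀ * ‖(U n)⁻¹‖ ^ (k + D) := by
    intro n hn
    have hpow : C₀ / ‖U n‖ ^ (k + D) = C₀ * ‖(U n)⁻¹‖ ^ (k + D) := by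
      rw [norm_inv, inv_pow, div_eq_mul_inv]
    have hle : C₀ / ‖U n‖ ^ (k + D) ≤ C₀ := div_le_self hC₀0 (one_le_pow₀ (hUn n).le)
    have hGb : ∀ i, ‖(G r i).eval (U n)⁻¹‖ ≤ ∑ j, Bd j := fun i =>
      (hBd i _ (hu1 n)).trans (hsum i)
    have hd : ∀ i : Fin 3, ‖![x n, y n, z n] i / U n ^ (![p, q, s] : Fin 3 → ℕ) i -
        (G r i).eval (U n)⁻¹‖ ≤ C₀ / ‖U n‖ ^ (k + D) := by
      intro i
      rw [hw, ← hGr n hn]
      exact hC₀ n i
    rw [hT, mul_assoc, ← hpow]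
    refine hlip _ _ _ (div_nonneg hC₀0 (pow_nonneg (norm_nonneg _) _)) ?_ ?_ ?_
    · intro i
      refine Fin.cases ?_ (fun i => ?_) i
      · rw [Fin.cons_zero]
        linarith [hu1 n]
      · rw [Fin.cons_succ]
        have h1 : ![x n, y n, z n] i / U n ^ (![p, q, s] : Fin 3 → ℕ) i =
            (![x n, y n, z n] i / U n ^ (![p, q, s] : Fin 3 → ℕ) i - (G r i).eval (U n)⁻¹) +
              (G r i).eval (U n)⁻¹ := by ring
        rw [h1]
        refine (norm_add_le _ _).trans ?_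
        linarith [hd i, hGb i]
    · intro i
      refine Fin.cases ?_ (fun i => ?_) i
      · rw [Fin.cons_zero]
        linarith [hu1 n]
      · rw [Fin.cons_succ]
        linarith [hGb i]
    · intro i
      refine Fin.cases ?_ (fun i => ?_) i
      · rw [Fin.cons_zero, Fin.cons_zero, sub_self, norm_zero]
        exact div_nonneg hC₀0 (pow_nonneg (norm_nonneg _) _)
      · rw [Fin.cons_succ, Fin.cons_succ]
        exact hd i
  have hdvd : Polynomial.X ^ (k + D) ∣ T := by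
    refine Expa_dvd (u := fun n => (U n)⁻¹) (fun n => inv_ne_zero (hU0 n)) hu1
      (S := {n | n % N = r ∧ eval ![x n, y n, z n] P = 0})
      (fun ε hε => Flat_small h.sq hinf hε) T (k + D) (C := C₁ * C₀) ?_
    rintro n ⟨hn, hn0⟩
    have h1 := hkey n hn
    have h2 := hP' ![x n, y n, z n] (U n) (hU0 n)
    rw [hn0] at h2
    have h3 := (mul_eq_zero.1 h2).resolve_right (pow_ne_zero _ (hU0 n))
    rw [h3, zero_sub, norm_neg] at h1
    exact h1
  obtain ⟨Q, hQ⟩ := hdvd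
  obtain ⟨BQ, hBQ0, hBQ⟩ := Expa_bd Q
  refine ⟨C₁ * C₀ + BQ, fun n hn => ?_⟩
  have h1 := hkey n hn
  have h2 := hP' ![x n, y n, z n] (U n) (hU0 n)
  have h3 : ‖T.eval (U n)⁻¹‖ ≤ BQ * ‖(U n)⁻¹‖ ^ (k + D) := by
    rw [hQ, Polynomial.eval_mul, Polynomial.eval_pow, Polynomial.eval_X, norm_mul, norm_pow,
      mul_comm]
    exact mul_le_mul_of_nonneg_right (hBQ _ (hu1 n)) (pow_nonneg (norm_nonneg _) _)
  have h4 : ‖eval (Fin.cons (U n)⁻¹ fun i => ![x n, y n, z n] i /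
      U n ^ (![p, q, s] : Fin 3 → ℕ) i : Fin 4 → L) P'‖ ≤
      (C₁ * C₀ + BQ) * ‖(U n)⁻¹‖ ^ (k + D) := by
    have h5 := norm_add_le (eval (Fin.cons (U n)⁻¹ fun i => ![x n, y n, z n] i /
      U n ^ (![p, q, s] : Fin 3 → ℕ) i : Fin 4 → L) P' - T.eval (U n)⁻¹) (T.eval (U n)⁻¹)
    rw [sub_add_cancel] at h5
    rw [add_mul]
    exact h5.trans (add_le_add h1 h3)
  rw [← h2, norm_mul, norm_pow]
  have h6 : ‖(U n)⁻¹‖ ^ (k + D) * (‖U n‖ ^ D * ‖U n‖ ^ k) = 1 := by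
    rw [← pow_add, add_comm D k, ← mul_pow, norm_inv,
      inv_mul_cancel₀ (norm_pos_iff.2 (hU0 n)).ne', one_pow]
  calc _ = ‖eval (Fin.cons (U n)⁻¹ fun i => ![x n, y n, z n] i /
      U n ^ (![p, q, s] : Fin 3 → ℕ) i : Fin 4 → L) P'‖ * (‖U n‖ ^ D * ‖U n‖ ^ k) := by ring
    _ ≤ (C₁ * C₀ + BQ) * ‖(U n)⁻¹‖ ^ (k + D) * (‖U n‖ ^ D * ‖U n‖ ^ k) :=
        mul_le_mul_of_nonneg_right h4 (by positivity)
    _ = C₁ * C₀ + BQ := by rw [mul_assoc, h6, mul_one]

end field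

end Pool.Agent.DMC
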