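import Pool.Agent.Lib.MP_e9abfe_ag_DMC.Defs
import Pool.Agent.Lib.MP_e9abfe_ag_DMC.Dep

/-!
# Module D11 of project DMC: arithmetic progressions
-/

set_option autoImplicit false

namespace Pool.Agent.DMC

open MvPolynomial

section prog

variable {L : Type} [NormedField L] [IsUltrametricDist L] [CharZero L]

/-! ### D11 Prog.lean -/

omit [IsUltrametricDist L] [CharZero L] in
theorem prog_eval {m k : ℕ} (g : Fin m → MvPolynomial (Fin k) L) (v : Fin k → L)
    (P : MvPolynomial (Fin m) L) : eval v (aeval g P) = eval (fun i => eval v (g i)) P := by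
  induction P using MvPolynomial.induction_on with
  | C a => simp
  | add p q hp hq => rw [map_add, map_add, map_add, hp, hq]
  | mul_X p i hp => rw [map_mul, map_mul, map_mul, hp, aeval_X, eval_X]

omit [IsUltrametricDist L] [CharZero L] in
theorem prog_bound {m : ℕ} (R : MvPolynomial (Fin m) L) : ∃ (C : ℝ) (D : ℕ), 0 ≤ C ∧
    ∀ (v : Fin m → L) (M : ℝ), 1 ≤ M → (∀ i, ‖v i‖ ≤ M) → ‖eval v R‖ ≤ C * M ^ D := by
  induction R using MvPolynomial.induction_on with
  | C a => exact ⟨‖a‖, 0, norm_nonneg _, fun v M _ _ => by simp⟩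
  | add p q hp hq =>
    obtain ⟨C, D, hC, h⟩ := hp
    obtain ⟨C', D', hC', h'⟩ := hq
    refine ⟨C + C', D + D', add_nonneg hC hC', fun v M hM hv => ?_⟩
    rw [map_add]
    have h1 := h v M hM hv
    have h2 := h' v M hM hv
    have h3 : M ^ D ≤ M ^ (D + D') := pow_le_pow_right₀ hM (Nat.le_add_right _ _)
    have h4 : M ^ D' ≤ M ^ (D + D') := pow_le_pow_right₀ hM (Nat.le_add_left _ _)
    calc ‖eval v p + eval v q‖ ≤ ‖eval v p‖ + ‖eval v q‖ := norm_add_le _ _
      _ ≤ C * M ^ D + C' * M ^ D' := add_le_add h1 h2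
      _ ≤ C * M ^ (D + D') + C' * M ^ (D + D') :=
        add_le_add (mul_le_mul_of_nonneg_left h3 hC) (mul_le_mul_of_nonneg_left h4 hC')
      _ = (C + C') * M ^ (D + D') := by ring
  | mul_X p i hp =>
    obtain ⟨C, D, hC, h⟩ := hp
    refine ⟨C, D + 1, hC, fun v M hM hv => ?_⟩
    rw [map_mul, eval_X, norm_mul, pow_succ, ← mul_assoc]
    have hM0 : 0 ≤ M := zero_le_one.trans hM
    exact mul_le_mul (h v M hM hv) (hv i) (norm_nonneg _) (mul_nonneg hC (pow_nonneg hM0 _))

omit [IsUltrametricDist L] [CharZero L] in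
theorem prog_one_lt {U : ℕ → L} (hU : Sq U) (n : ℕ) : 1 < ‖U n‖ := by
  induction n with
  | zero => exact hU.one_lt
  | succ n ih =>
    rw [hU.succ, norm_pow]
    exact one_lt_pow₀ ih two_ne_zero

omit [IsUltrametricDist L] [CharZero L] in
theorem prog_strictMono {U : ℕ → L} (hU : Sq U) : StrictMono fun n => ‖U n‖ := by
  refine strictMono_nat_of_lt_succ fun n => ?_
  rw [hU.succ, norm_pow]
  exact lt_self_pow₀ (prog_one_lt hU n) one_lt_two

omit [IsUltrametricDist L] [CharZero L] in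
theorem prog_tendsto {U : ℕ → L} (hU : Sq U) :
    Filter.Tendsto (fun n => ‖U n‖) Filter.atTop Filter.atTop := by
  have h1 : ∀ n, ‖U 0‖ ^ n ≤ ‖U n‖ := by
    intro n
    induction n with
    | zero => simpa using (prog_one_lt hU 0).le
    | succ n ih =>
      rw [hU.succ, norm_pow, pow_succ, sq]
      exact mul_le_mul ih ((prog_strictMono hU).monotone (Nat.zero_le n)) (norm_nonneg _)
        (norm_nonneg _)
  exact Filter.tendsto_atTop_mono h1 (tendsto_pow_atTop_atTop_of_one_lt (prog_one_lt hU 0))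

omit [CharZero L] in
theorem prog_orb {x y z U : ℕ → L} {p : ℕ} (h : Orb x y z) (hU : Sq U)
    (hx : ∀ n, ‖x n‖ = ‖U n‖ ^ p) (n : ℕ) : ‖y n‖ ≤ ‖x n‖ ∧ ‖z n‖ ≤ ‖x n‖ := by
  have hx2 : ∀ n, ‖x (n + 1)‖ = ‖x n‖ ^ 2 := by
    intro n
    rw [hx, hx, hU.succ, norm_pow, ← pow_mul, ← pow_mul, mul_comm]
  have hx1 : ∀ n, 1 ≤ ‖x n‖ := fun n => by
    rw [hx]
    exact one_le_pow₀ (prog_one_lt hU n).le
  induction n with
  | zero => exact ⟨h.y_le, h.z_le⟩
  | succ n ih =>
    have h1 : ‖x n‖ ≤ ‖x n‖ ^ 2 := le_self_pow₀ (hx1 n) two_ne_zero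
    constructor
    · rw [h.y_succ, hx2]
      refine (IsUltrametricDist.norm_add_le_max _ _).trans (max_le ?_ (ih.2.trans h1))
      rw [norm_pow]
      exact pow_le_pow_left₀ (norm_nonneg _) ih.1 2
    · rw [h.z_succ, hx2]
      refine (IsUltrametricDist.norm_add_le_max _ _).trans (max_le ?_ h1)
      rw [norm_pow]
      exact pow_le_pow_left₀ (norm_nonneg _) ih.2 2

/-- the ideal of the polynomials which vanish at the points of the sequence `v` with index in
`T` -/
def progIdeal (v : ℕ → Fin 3 → L) (T : Set ℕ) : Ideal (MvPolynomial (Fin 3) L) where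
  carrier := {P | ∀ n ∈ T, eval (v n) P = 0}
  add_mem' := fun {a b} ha hb n hn => by
    rw [map_add, ha n hn, hb n hn, add_zero]
  zero_mem' := fun n _ => map_zero _
  smul_mem' := fun c a ha n hn => by
    rw [smul_eq_mul, map_mul, ha n hn, mul_zero]

omit [IsUltrametricDist L] [CharZero L] in
theorem prog_mem {v : ℕ → Fin 3 → L} {T : Set ℕ} {P : MvPolynomial (Fin 3) L} :
    P ∈ progIdeal v T ↔ ∀ n ∈ T, eval (v n) P = 0 := Iff.rfl

omit [IsUltrametricDist L] [CharZero L] in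
/-- an infinite subset with a prime ideal -/
theorem prog_prime (v : ℕ → Fin 3 → L) {S : Set ℕ} (hS : S.Infinite) :
    ∃ T ⊆ S, T.Infinite ∧ (progIdeal v T).IsPrime := by
  obtain ⟨J, ⟨T, hTS, hT, rfl⟩, hmax⟩ := set_has_maximal_iff_noetherian.mpr
    (inferInstance : IsNoetherian (MvPolynomial (Fin 3) L) (MvPolynomial (Fin 3) L))
    {J | ∃ T ⊆ S, T.Infinite ∧ J = progIdeal v T} ⟨_, S, subset_rfl, hS, rfl⟩
  refine ⟨T, hTS, hT, ?_, ?_⟩
  · rw [Ideal.ne_top_iff_one]
    intro h1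
    obtain ⟨n, hn⟩ := hT.nonempty
    have h2 := h1 n hn
    rw [map_one] at h2
    exact one_ne_zero h2
  · intro P Q hPQ
    have key : ∀ R : MvPolynomial (Fin 3) L, {n | n ∈ T ∧ eval (v n) R = 0}.Infinite →
        R ∈ progIdeal v T := by
      intro R hR
      have h1 : progIdeal v T ≤ progIdeal v {n | n ∈ T ∧ eval (v n) R = 0} :=
        fun P hP n hn => hP n hn.1
      have h2 := hmax _ ⟨{n | n ∈ T ∧ eval (v n) R = 0}, fun n hn => hTS hn.1, hR, rfl⟩
      have h3 : progIdeal v T = progIdeal v {n | n ∈ T ∧ eval (v n) R = 0} := by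
        by_contra h4
        exact h2 (lt_of_le_of_ne h1 h4)
      rw [h3]
      exact fun n hn => hn.2
    have h1 : T = {n | n ∈ T ∧ eval (v n) P = 0} ∪ {n | n ∈ T ∧ eval (v n) Q = 0} := by
      ext n
      constructor
      · intro hn
        have h2 := hPQ n hn
        rw [map_mul] at h2
        rcases mul_eq_zero.1 h2 with h3 | h3
        · exact Or.inl ⟨hn, h3⟩
        · exact Or.inr ⟨hn, h3⟩
      · rintro (h | h)
        · exact h.1
        · exact h.1
    rw [h1] at hT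
    rcases Set.infinite_union.1 hT with h2 | h2
    · exact Or.inl (key P h2)
    · exact Or.inr (key Q h2)

/-- pull back of a polynomial by the map -/
noncomputable def progPull : MvPolynomial (Fin 3) L →ₐ[L] MvPolynomial (Fin 3) L :=
  aeval ![X 0 ^ 2 + X 1, X 1 ^ 2 + X 2, X 2 ^ 2 + X 0]

omit [IsUltrametricDist L] [CharZero L] in
theorem prog_pull {x y z : ℕ → L} (h : Orb x y z) (P : MvPolynomial (Fin 3) L) (k n : ℕ) :
    eval ![x n, y n, z n] (progPull^[k] P) = eval ![x (n + k), y (n + k), z (n + k)] P := by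
  induction k generalizing n with
  | zero => rfl
  | succ k ih =>
    rw [Function.iterate_succ_apply']
    unfold progPull
    rw [prog_eval]
    have h1 : (fun i => eval ![x n, y n, z n]
        ((![X 0 ^ 2 + X 1, X 1 ^ 2 + X 2, X 2 ^ 2 + X 0] :
          Fin 3 → MvPolynomial (Fin 3) L) i)) = ![x (n + 1), y (n + 1), z (n + 1)] := by
      funext i
      fin_cases i
      · simp [h.x_succ]
      · simp [h.y_succ]
      · simp [h.z_succ]
    rw [h1]
    have h2 := ih (n + 1)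
    have h3 : n + 1 + k = n + (k + 1) := by ring
    rw [h3] at h2
    exact h2

theorem prog {x y z U : ℕ → L} {p N : ℕ} (hp : 0 < p) (hN : 0 < N) (h : Orb x y z) (hU : Sq U)
    (hx : ∀ n, ‖x n‖ = ‖U n‖ ^ p)
    (hflat : ∀ (P : MvPolynomial (Fin 3) L) (r : ℕ),
      {n | n % N = r ∧ eval ![x n, y n, z n] P = 0}.Infinite → ∀ k : ℕ,
        ∃ C : ℝ, ∀ n, n % N = r → ‖eval ![x n, y n, z n] P‖ * ‖U n‖ ^ k ≤ C)
    (S₀ : Set (MvPolynomial (Fin 3) L))
    (hy : Rel {n | ∀ f ∈ S₀, eval ![x n, y n, z n] f = 0} x y)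
    (hz : Rel {n | ∀ f ∈ S₀, eval ![x n, y n, z n] f = 0} x z) (r : ℕ)
    (hinf : {n | n % N = r ∧ ∀ f ∈ S₀, eval ![x n, y n, z n] f = 0}.Infinite) :
    ∃ n₀, n₀ % N = r ∧ ∀ j, ∀ f ∈ S₀,
      eval ![x (n₀ + N * j), y (n₀ + N * j), z (n₀ + N * j)] f = 0 := by
  obtain ⟨T, hTS, hT, hJ⟩ := prog_prime (fun n => ![x n, y n, z n]) hinf
  set J := progIdeal (fun n => ![x n, y n, z n]) T with hJdef
  have hxinj : Function.Injective x := by
    intro i j hij
    have h1 : ‖U i‖ ^ p = ‖U j‖ ^ p := by rw [← hx, ← hx, hij]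
    have h2 : ‖U i‖ = ‖U j‖ :=
      (pow_left_inj₀ (norm_nonneg _) (norm_nonneg _) hp.ne').1 h1
    exact (prog_strictMono hU).injective h2
  have hxtend : Filter.Tendsto (fun n => ‖x n‖) Filter.atTop Filter.atTop := by
    have h1 : (fun n => ‖x n‖) = fun n => ‖U n‖ ^ p := funext hx
    rw [h1]
    exact (Filter.tendsto_pow_atTop hp.ne').comp (prog_tendsto hU)
  have haev : ∀ (T₁ : Polynomial L) (n : ℕ), eval ![x n, y n, z n]
      (Polynomial.aeval (X 0 : MvPolynomial (Fin 3) L) T₁) = T₁.eval (x n) := by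
    intro T₁ n
    induction T₁ using Polynomial.induction_on' with
    | add a b ha hb => rw [map_add, map_add, Polynomial.eval_add, ha, hb]
    | monomial k a => simp [Polynomial.aeval_monomial, MvPolynomial.algebraMap_eq]
  have hxJ : ∀ T₁ : Polynomial L, T₁ ≠ 0 →
      Polynomial.aeval (X 0 : MvPolynomial (Fin 3) L) T₁ ∉ J := by
    intro T₁ hT₁ hmem
    refine hT₁ (Polynomial.eq_zero_of_infinite_isRoot _ ?_)
    refine (hT.image hxinj.injOn).mono ?_
    rintro _ ⟨n, hn, rfl⟩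
    have h1 := hmem n hn
    rw [haev] at h1
    exact h1
  obtain ⟨H₁, hH₁, h₁⟩ := hy
  obtain ⟨H₂, hH₂, h₂⟩ := hz
  have hH₁J : aeval ![(X 0 : MvPolynomial (Fin 3) L), X 1] H₁ ∈ J := by
    intro n hn
    show eval ![x n, y n, z n] _ = 0
    rw [prog_eval, ← h₁ n (hTS hn).2]
    congr 1
    congr 1
    funext i
    fin_cases i <;> simp
  have hH₂J : aeval ![(X 0 : MvPolynomial (Fin 3) L), X 2] H₂ ∈ J := by
    intro n hn
    show eval ![x n, y n, z n] _ = 0
    rw [prog_eval, ← h₂ n (hTS hn).2]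
    congr 1
    congr 1
    funext i
    fin_cases i <;> simp
  have claim : ∀ P ∈ J, progPull^[N] P ∈ J := by
    intro P hP
    by_contra hQ
    obtain ⟨T₁, R, hT₁, hTR⟩ := alg_dep hJ hxJ hH₁ hH₂ hH₁J hH₂J hQ
    obtain ⟨C, D, hC, hR⟩ := prog_bound R
    have hinf' : {n | n % N = r ∧ eval ![x n, y n, z n] P = 0}.Infinite :=
      hT.mono fun n hn => ⟨(hTS hn).1, hP n hn⟩
    obtain ⟨C', hC'⟩ := hflat P r hinf' (p * D + 1)
    -- lower bound
    obtain ⟨c, hc, n₁, hn₁⟩ : ∃ c : ℝ, 0 < c ∧ ∃ n₁ : ℕ, ∀ n, n₁ ≤ n → c ≤ ‖T₁.eval (x n)‖ := by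
      by_cases hd : 0 < T₁.degree
      · have h1 := Polynomial.tendsto_norm_atTop T₁ hd hxtend
        obtain ⟨n₁, hn₁⟩ := Filter.eventually_atTop.1 (h1.eventually_ge_atTop 1)
        exact ⟨1, one_pos, n₁, hn₁⟩
      · have h1 := Polynomial.eq_C_of_degree_le_zero (not_lt.1 hd)
        have h2 : T₁.coeff 0 ≠ 0 := by
          intro h3
          rw [h3, map_zero] at h1
          exact hT₁ h1
        refine ⟨‖T₁.coeff 0‖, norm_pos_iff.2 h2, 0, fun n _ => ?_⟩
        rw [h1, Polynomial.eval_C, Polynomial.coeff_C_zero]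
    obtain ⟨n₂, hn₂⟩ := Filter.eventually_atTop.1
      ((prog_tendsto hU).eventually_gt_atTop (C * C' / c))
    obtain ⟨n, hnT, hn⟩ := hT.exists_gt (max n₁ n₂)
    have hU1 := prog_one_lt hU n
    have e1 : T₁.eval (x n) = eval ![x n, y n, z n] (progPull^[N] P) *
        eval ![x n, y n, z n] R := by
      have h1 := hTR n hnT
      rw [map_sub, map_mul, haev] at h1
      exact sub_eq_zero.1 h1
    have e2 : ‖eval ![x n, y n, z n] R‖ ≤ C * ‖U n‖ ^ (p * D) := by
      rw [pow_mul, ← hx]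
      refine hR _ _ ?_ fun i => ?_
      · rw [hx]
        exact one_le_pow₀ hU1.le
      · have h3 := prog_orb h hU hx n
        fin_cases i
        · exact le_rfl
        · exact h3.1
        · exact h3.2
    have e3 : ‖eval ![x n, y n, z n] (progPull^[N] P)‖ * ‖U n‖ ^ (p * D + 1) ≤ C' := by
      rw [prog_pull h]
      refine le_trans ?_ (hC' (n + N) ?_)
      · refine mul_le_mul_of_nonneg_left ?_ (norm_nonneg _)
        exact pow_le_pow_left₀ (norm_nonneg _)
          ((prog_strictMono hU).monotone (Nat.le_add_right n N)) _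
      · rw [Nat.add_mod_right]
        exact (hTS hnT).1
    have e4 : c * ‖U n‖ ≤ C * C' := by
      calc c * ‖U n‖ ≤ ‖T₁.eval (x n)‖ * ‖U n‖ :=
            mul_le_mul_of_nonneg_right (hn₁ n ((le_max_left _ _).trans hn.le)) (norm_nonneg _)
        _ = ‖eval ![x n, y n, z n] (progPull^[N] P)‖ * ‖eval ![x n, y n, z n] R‖ * ‖U n‖ := by
            rw [e1, norm_mul]
        _ ≤ ‖eval ![x n, y n, z n] (progPull^[N] P)‖ * (C * ‖U n‖ ^ (p * D)) * ‖U n‖ := by
            gcongr
        _ = C * (‖eval ![x n, y n, z n] (progPull^[N] P)‖ * ‖U n‖ ^ (p * D + 1)) := by ring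
        _ ≤ C * C' := mul_le_mul_of_nonneg_left e3 hC
    have e5 := hn₂ n ((le_max_right _ _).trans hn.le)
    rw [div_lt_iff₀ hc] at e5
    linarith [mul_comm c ‖U n‖]
  have hSJ : ∀ f ∈ S₀, f ∈ J := fun f hf n hn => (hTS hn).2 f hf
  have hstab : ∀ j : ℕ, ∀ P ∈ J, ∀ n ∈ T, eval ![x (n + N * j), y (n + N * j), z (n + N * j)] P = 0 := by
    intro j
    induction j with
    | zero => exact fun P hP n hn => hP n hn
    | succ j ih =>
      intro P hP n hn
      have h1 := ih _ (claim P hP) n hn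
      rw [prog_pull h] at h1
      have h2 : n + N * j + N = n + N * (j + 1) := by ring
      rw [h2] at h1
      exact h1
  obtain ⟨n₀, hn₀⟩ := hT.nonempty
  exact ⟨n₀, (hTS hn₀).1, fun j f hf => hstab j f (hSJ f hf) n₀ hn₀⟩

end prog

end Pool.Agent.DMC
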