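import Pool.Agent.Lib.MP_e9abfe_ag.Main
import Pool.Agent.Lib.MP_e9abfe_ag_DMC.SesL
import Pool.Agent.Lib.MP_e9abfe_ag_DMC.AsyY
import Pool.Agent.Lib.MP_e9abfe_ag_DMC.Flat
import Pool.Agent.Lib.MP_e9abfe_ag_DMC.Prog
import Pool.Agent.Lib.MP_e9abfe_ag_DMC.Emb

/-!
# DMC module D13: the theorem
-/

set_option autoImplicit false

namespace Pool.Agent.DMC

open MvPolynomial
open Pool.Agent.MP_e9abfe (Phi Phi_iter_map progressions)

theorem Fin_Phi_apply {R : Type*} [CommRing R] (v : Fin 3 → R) (i : Fin 3) :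
    Phi v i = v i ^ 2 + v (i + 1) := by
  fin_cases i <;> rfl

/-- a finite set is a finite union of progressions -/
theorem Fin_finite {Z : Set ℕ} (h : Z.Finite) :
    ∃ F : Finset (ℕ × ℕ), Z = {m | ∃ q ∈ F, ∃ j : ℕ, m = q.1 + q.2 * j} := by
  refine progressions Z 0 1 one_pos fun n _ => Or.inl ?_
  refine Set.Finite.of_finite_image (f := fun t => n + 1 * t) (h.subset ?_) ?_
  · rintro m ⟨t, ht, rfl⟩
    exact ht
  · intro a _ b _ hab
    have : n + 1 * a = n + 1 * b := hab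
    omega

section field

variable {L : Type} [NormedField L] [IsUltrametricDist L] [CharZero L]

theorem Fin_norm_x {x y z U : ℕ → L} {p q s N : ℕ} {b c : ℕ → L}
    (h : Asy x y z U p q s N b c) (n : ℕ) : ‖x n‖ = ‖U n‖ ^ p := by
  obtain ⟨C, hC⟩ := h.hx
  obtain ⟨n₀, hn₀⟩ := h.sq.large (C + 1)
  have h1 := hC n₀
  have h2 := hn₀ n₀ le_rfl
  have hU := h.sq.one_lt_norm n₀
  have h3 : ‖x n₀ / U n₀ ^ p - 1‖ < 1 := by
    refine lt_of_le_of_lt h1 ?_
    rw [div_lt_one (by linarith)]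
    linarith
  have h4 : ‖x n₀ / U n₀ ^ p‖ = 1 := by
    have h5 : x n₀ / U n₀ ^ p = 1 + (x n₀ / U n₀ ^ p - 1) := by ring
    rw [h5, IsUltrametricDist.norm_add_eq_max_of_norm_ne_norm, norm_one, max_eq_left h3.le]
    rw [norm_one]
    exact h3.ne'
  rw [norm_div, norm_pow] at h4
  have h6 : ‖x n₀‖ = ‖U n₀‖ ^ p := by
    have : ‖U n₀‖ ^ p ≠ 0 := by positivity
    field_simp at h4
    exact h4
  rw [h.orb.norm_x, h.sq.norm, ← pow_mul, mul_comm, pow_mul] at h6
  have h7 : ‖x 0‖ = ‖U 0‖ ^ p :=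
    (pow_left_inj₀ (norm_nonneg _) (by positivity) (pow_pos two_pos n₀).ne').1 h6
  rw [h.orb.norm_x, h.sq.norm n, h7, ← pow_mul, ← pow_mul, mul_comm]

theorem Fin_main [CompleteSpace L] [IsAlgClosed L] (h2 : ‖(2 : L)‖ < 1) (β : Fin 3 → L)
    (hβ : ∃ i, 1 < ‖β i‖) (T : Set (MvPolynomial (Fin 3) L))
    (hrel : ∀ i j : Fin 3, i ≠ j → ∃ H : MvPolynomial (Fin 2) L, H ≠ 0 ∧ ∀ n,
      (∀ f ∈ T, eval (Phi^[n] β) f = 0) → eval ![Phi^[n] β i, Phi^[n] β j] H = 0) :
    ∃ F : Finset (ℕ × ℕ), {n : ℕ | ∀ f ∈ T, eval (Phi^[n] β) f = 0} =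
      {m | ∃ q ∈ F, ∃ j : ℕ, m = q.1 + q.2 * j} := by
  classical
  set S : Set ℕ := {n : ℕ | ∀ f ∈ T, eval (Phi^[n] β) f = 0} with hSdef
  by_cases hfin : S.Finite
  · exact Fin_finite hfin
  have hS : S.Infinite := hfin
  obtain ⟨i₀, hi₀⟩ := Finite.exists_max fun i => ‖β i‖
  have hone : 1 < ‖β i₀‖ := by
    obtain ⟨i, hi⟩ := hβ
    exact lt_of_lt_of_le hi (hi₀ i)
  have e1 : i₀ + 1 + 1 = i₀ + 2 := by fin_cases i₀ <;> rfl
  have e2 : i₀ + 2 + 1 = i₀ := by fin_cases i₀ <;> rfl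
  let x : ℕ → L := fun n => Phi^[n] β i₀
  let y : ℕ → L := fun n => Phi^[n] β (i₀ + 1)
  let z : ℕ → L := fun n => Phi^[n] β (i₀ + 2)
  have horb : Orb x y z :=
    { x_succ := fun n => by
        show Phi^[n + 1] β i₀ = _
        rw [Function.iterate_succ_apply', Fin_Phi_apply]
      y_succ := fun n => by
        show Phi^[n + 1] β (i₀ + 1) = _
        rw [Function.iterate_succ_apply', Fin_Phi_apply, e1]
      z_succ := fun n => by
        show Phi^[n + 1] β (i₀ + 2) = _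
        rw [Function.iterate_succ_apply', Fin_Phi_apply, e2]
      one_lt := hone
      y_le := hi₀ _
      z_le := hi₀ _ }
  have hne1 : i₀ ≠ i₀ + 1 := by fin_cases i₀ <;> decide
  have hne2 : i₀ ≠ i₀ + 2 := by fin_cases i₀ <;> decide
  have hy : Rel S x y := by
    obtain ⟨H, hH, hH'⟩ := hrel _ _ hne1
    exact ⟨H, hH, fun n hn => hH' n hn⟩
  have hz : Rel S x z := by
    obtain ⟨H, hH, hH'⟩ := hrel _ _ hne2
    exact ⟨H, hH, fun n hn => hH' n hn⟩
  obtain ⟨m, U, p, q, s, N, b, c, hA⟩ := exists_asy h2 horb hS hy hz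
  -- polynomials in the permuted coordinates
  let T' : Set (MvPolynomial (Fin 3) L) := (fun f => rename (fun j => j - i₀) f) '' T
  have hvec : ∀ n, (![x n, y n, z n] : Fin 3 → L) ∘ (fun j => j - i₀) = Phi^[n] β := by
    intro n
    funext j
    have h3 : ∀ i j : Fin 3, (![Phi^[n] β i, Phi^[n] β (i + 1), Phi^[n] β (i + 2)] : Fin 3 → L)
        (j - i) = Phi^[n] β j := by
      intro i j
      fin_cases i <;> fin_cases j <;> rfl
    exact h3 i₀ j
  have hmem : ∀ n, (∀ f ∈ T', eval ![x n, y n, z n] f = 0) ↔ n ∈ S := by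
    intro n
    constructor
    · intro h f hf
      have h3 := h _ ⟨f, hf, rfl⟩
      rw [eval_rename, hvec] at h3
      exact h3
    · rintro h _ ⟨f, hf, rfl⟩
      rw [eval_rename, hvec]
      exact h f hf
  have hN := hA.N_pos
  have hprog : ∀ r, {n | n % N = r ∧ n + m ∈ S}.Infinite →
      ∃ n₀, n₀ % N = r ∧ ∀ j, n₀ + N * j + m ∈ S := by
    intro r hr
    have hp : 0 < p := lt_of_lt_of_le hA.q_pos hA.q_le
    have hset : {n | ∀ f ∈ T', eval ![x (n + m), y (n + m), z (n + m)] f = 0} =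
        {n | n + m ∈ S} := by
      ext n
      exact hmem (n + m)
    obtain ⟨n₀, hn₀, hj⟩ := prog hp hN hA.orb hA.sq (Fin_norm_x hA)
      (fun P r hinf k => flat hA P r hinf k) T'
      (by rw [hset]; exact hy.shift m) (by rw [hset]; exact hz.shift m) r
      (by
        refine hr.mono ?_
        rintro n ⟨hn, hn'⟩
        exact ⟨hn, (hmem (n + m)).2 hn'⟩)
    refine ⟨n₀, hn₀, fun j => ?_⟩
    exact (hmem _).1 (hj j)
  -- a uniform bound
  have hchoose : ∀ r : ℕ, ∃ n₀ : ℕ, {n | n % N = r ∧ n + m ∈ S}.Infinite →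
      n₀ % N = r ∧ ∀ j, n₀ + N * j + m ∈ S := by
    intro r
    by_cases hr : {n | n % N = r ∧ n + m ∈ S}.Infinite
    · obtain ⟨n₀, hn₀⟩ := hprog r hr
      exact ⟨n₀, fun _ => hn₀⟩
    · exact ⟨0, fun h => absurd h hr⟩
  choose g hg using hchoose
  refine progressions S (m + ∑ r ∈ Finset.range N, g r) N hN fun n hn => ?_
  by_cases hinf : {t | n + N * t ∈ S}.Finite
  · exact Or.inl hinf
  · right
    obtain ⟨n', rfl⟩ : ∃ n', n = n' + m := ⟨n - m, by omega⟩
    set r := n' % N with hr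
    have hrN : r < N := Nat.mod_lt _ hN
    have hle : g r ≤ n' := by
      have h3 : g r ≤ ∑ r ∈ Finset.range N, g r :=
        Finset.single_le_sum (f := g) (fun _ _ => Nat.zero_le _) (Finset.mem_range.2 hrN)
      omega
    have hinf' : {n | n % N = r ∧ n + m ∈ S}.Infinite := by
      intro hf
      apply hinf
      refine Set.Finite.of_finite_image (f := fun t => n' + N * t) (hf.subset ?_) ?_
      · rintro k ⟨t, ht, rfl⟩
        refine ⟨by rw [Nat.add_mul_mod_self_left], ?_⟩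
        have h4 : n' + N * t + m = n' + m + N * t := by ring
        show n' + N * t + m ∈ S
        rw [h4]
        exact ht
      · intro a _ b _ hab
        have h4 : n' + N * a = n' + N * b := hab
        have h5 : N * a = N * b := by omega
        exact Nat.eq_of_mul_eq_mul_left hN h5
    obtain ⟨h3, h4⟩ := hg r hinf'
    obtain ⟨j₀, hj₀⟩ : ∃ j₀, n' = g r + N * j₀ := by
      refine ⟨(n' - g r) / N, ?_⟩
      have h5 : N ∣ n' - g r := (Nat.modEq_iff_dvd' hle).1 h3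
      rw [Nat.mul_div_cancel' h5]
      omega
    intro t
    have h6 : n' + m + N * t = g r + N * (j₀ + t) + m := by
      rw [hj₀]
      ring
    rw [h6]
    exact h4 _

end field

/-- points integral at a place above `2` -/
theorem Fin_integral (α : Fin 3 → ℂ) (hα : ∀ P : MvPolynomial (Fin 3) ℤ, 2 * aeval α P ≠ 1)
    (S : Set (MvPolynomial (Fin 3) ℂ)) :
    ∃ F : Finset (ℕ × ℕ),
      {n : ℕ | ∀ f ∈ S, eval (Phi^[n] α) f = 0}
        = {m : ℕ | ∃ p ∈ F, ∃ j : ℕ, m = p.1 + p.2 * j} := by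
  have haev : ∀ {K : Type} [Field K] (φ : MvPolynomial (Fin 3) ℤ →+* K)
      (P : MvPolynomial (Fin 3) ℤ), φ P = 0 → aeval (fun i => φ (X i)) P = 0 := by
    intro K _ φ P hP
    have h : ((aeval (fun i => φ (X i)) : MvPolynomial (Fin 3) ℤ →ₐ[ℤ] K) :
        MvPolynomial (Fin 3) ℤ →+* K) = φ := by
      apply MvPolynomial.ringHom_ext
      · intro r; simp
      · intro i; simp
    have h2 := congrArg (fun f : MvPolynomial (Fin 3) ℤ →+* K => f P) h
    exact h2.trans hP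
  let I : Ideal (MvPolynomial (Fin 3) ℤ) :=
    RingHom.ker (aeval α : MvPolynomial (Fin 3) ℤ →ₐ[ℤ] ℂ)
  have hne : Ideal.span {(2 : MvPolynomial (Fin 3) ℤ)} ⊔ I ≠ ⊤ := by
    rw [Ne, Ideal.eq_top_iff_one, Ideal.mem_span_singleton_sup]
    rintro ⟨P, Q, hQ, hPQ⟩
    have h1 := congrArg (aeval α : MvPolynomial (Fin 3) ℤ →ₐ[ℤ] ℂ) hPQ
    have hQ' : (aeval α : MvPolynomial (Fin 3) ℤ →ₐ[ℤ] ℂ) Q = 0 := hQ
    have h2 : (aeval α : MvPolynomial (Fin 3) ℤ →ₐ[ℤ] ℂ) 2 = 2 := map_ofNat _ 2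
    rw [map_add, map_mul, hQ', map_one, add_zero, h2] at h1
    exact hα P (by rw [mul_comm]; exact h1)
  obtain ⟨M, hM, hle⟩ := Ideal.exists_le_maximal _ hne
  let K := MvPolynomial (Fin 3) ℤ ⧸ M
  let _ : Field K := Ideal.Quotient.field M
  have h2M : (2 : MvPolynomial (Fin 3) ℤ) ∈ M :=
    hle (Ideal.mem_sup_left (Ideal.mem_span_singleton_self _))
  have h2K : (2 : K) = 0 := by
    have h3 : Ideal.Quotient.mk M (2 : MvPolynomial (Fin 3) ℤ) = 0 :=
      Ideal.Quotient.eq_zero_iff_mem.2 h2M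
    rwa [map_ofNat] at h3
  have hchar : CharP K 2 := by
    have h3 : ((2 : ℕ) : K) = 0 := by exact_mod_cast h2K
    exact (CharP.charP_iff_prime_eq_zero Nat.prime_two).2 h3
  let _ : Algebra (ZMod 2) K := ZMod.algebra K 2
  have hft : Algebra.FiniteType (ZMod 2) K := by
    have h3 : Algebra.FiniteType ℤ K :=
      Algebra.FiniteType.of_surjective (Ideal.Quotient.mkₐ ℤ M) (Ideal.Quotient.mkₐ_surjective ℤ M)
    exact Algebra.FiniteType.of_restrictScalars_finiteType ℤ (ZMod 2) K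
  have hmod : Module.Finite (ZMod 2) K := finite_of_finite_type_of_isJacobsonRing (ZMod 2) K
  have hfin : Finite K := Module.finite_of_finite (ZMod 2)
  refine Pool.Agent.MP_e9abfe.main_spec α K (fun i => Ideal.Quotient.mk M (X i)) ?_ 0 ?_ S
  · intro P hP
    exact haev (K := K) (Ideal.Quotient.mk M) P
      (Ideal.Quotient.eq_zero_iff_mem.2 (hle (Ideal.mem_sup_right hP)))
  · intro n _ h0
    have h8 : (8 : K) = 0 := by
      have : (8 : K) = 2 * 2 * 2 := by norm_num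
      rw [this, h2K]
      ring
    rw [h8, zero_mul, add_zero] at h0
    exact one_ne_zero h0

theorem Fin_two : ‖(2 : PadicComplex 2)‖ < 1 := by
  have h1 : (2 : PadicComplex 2) = (((2 : ℕ) : ℚ_[2]) : PadicComplex 2) := by
    show (2 : PadicComplex 2) = ((algebraMap ℚ_[2] (PadicAlgCl 2) ((2 : ℕ) : ℚ_[2]) :
      PadicAlgCl 2) : PadicComplex 2)
    rw [map_natCast, PadicComplex.coe_natCast]
    norm_num
  rw [h1, PadicComplex.norm_extends', Padic.norm_p]
  norm_num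

/-- values of integral polynomials at integral points -/
theorem Fin_le_one {L : Type} [NormedField L] [IsUltrametricDist L] (β : Fin 3 → L)
    (hβ : ∀ i, ‖β i‖ ≤ 1) (P : MvPolynomial (Fin 3) ℤ) : ‖aeval β P‖ ≤ 1 := by
  rw [aeval_def, eval₂_eq']
  refine IsUltrametricDist.norm_sum_le_of_forall_le_of_nonneg zero_le_one fun m _ => ?_
  rw [norm_mul, norm_prod]
  refine mul_le_one₀ ?_ (Finset.prod_nonneg fun _ _ => norm_nonneg _) ?_
  · rw [eq_intCast]
    exact IsUltrametricDist.norm_intCast_le_one L _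
  · refine Finset.prod_le_one (fun _ _ => norm_nonneg _) fun i _ => ?_
    rw [norm_pow]
    exact pow_le_one₀ (norm_nonneg _) (hβ i)

/-- points which are integral at no place above `2` are not integral in `L` -/
theorem Fin_big {K : Type} [Field K] {L : Type} [NormedField L] [IsUltrametricDist L]
    (h2 : ‖(2 : L)‖ < 1) (φ : K →+* L) (a : Fin 3 → K) (P : MvPolynomial (Fin 3) ℤ)
    (h1 : 2 * aeval a P = (1 : K)) : ∃ i, 1 < ‖φ (a i)‖ := by
  have h5 : 2 * aeval (fun i => φ (a i)) P = (1 : L) := by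
    have h3 : φ (aeval a P) = aeval (fun i => φ (a i)) P := comp_aeval_apply a φ.toIntAlgHom P
    rw [← h3, ← map_ofNat φ 2, ← map_mul, h1, map_one]
  by_contra hcon
  push Not at hcon
  have h3 := Fin_le_one (fun i => φ (a i)) hcon P
  have h4 : ‖(2 : L) * aeval (fun i => φ (a i)) P‖ < 1 := by
    rw [norm_mul]
    exact mul_lt_one_of_nonneg_of_lt_one_left (norm_nonneg _) h2 h3
  rw [h5, norm_one] at h4
  exact lt_irrefl _ h4

/-- **Dynamical Mordell-Lang for curves** -/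
theorem final (α : Fin 3 → ℂ) (S : Set (MvPolynomial (Fin 3) ℂ))
    (hdim : ∀ i j : Fin 3, i ≠ j → ∃ H : MvPolynomial (Fin 2) ℂ, H ≠ 0 ∧
      ∀ v : Fin 3 → ℂ, (∀ f ∈ S, eval v f = 0) → eval ![v i, v j] H = 0) :
    ∃ F : Finset (ℕ × ℕ),
      {n : ℕ | ∀ f ∈ S,
          eval ((fun v : Fin 3 → ℂ => ![v 0 ^ 2 + v 1, v 1 ^ 2 + v 2, v 2 ^ 2 + v 0])^[n] α) f = 0}
        = {m : ℕ | ∃ p ∈ F, ∃ j : ℕ, m = p.1 + p.2 * j} := by
  change ∃ F : Finset (ℕ × ℕ), {n : ℕ | ∀ f ∈ S, eval (Phi^[n] α) f = 0}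
        = {m : ℕ | ∃ p ∈ F, ∃ j : ℕ, m = p.1 + p.2 * j}
  by_cases hα : ∀ P : MvPolynomial (Fin 3) ℤ, 2 * aeval α P ≠ 1
  · exact Fin_integral α hα S
  push Not at hα
  obtain ⟨P, hP⟩ := hα
  obtain ⟨K, hK, ⟨φ⟩⟩ := exists_emb α
  let a : Fin 3 → K := fun i => ⟨α i, hK i⟩
  have haα : (fun i => algebraMap K ℂ (a i)) = α := rfl
  let β : Fin 3 → PadicComplex 2 := fun i => φ (a i)
  have h1 : 2 * aeval a P = (1 : K) := by
    apply (algebraMap K ℂ).injective
    have h2 : algebraMap K ℂ (aeval a P) = aeval α P := by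
      have h3 := comp_aeval_apply a (algebraMap K ℂ).toIntAlgHom P
      exact h3
    rw [map_mul, map_one, h2, map_ofNat]
    exact hP
  have hβ : ∃ i, 1 < ‖β i‖ := Fin_big Fin_two φ a P h1
  obtain ⟨T, hT⟩ := transfer φ S
  have hiter : ∀ n, Phi^[n] α = fun i => algebraMap K ℂ (Phi^[n] a i) := fun n =>
    Phi_iter_map (algebraMap K ℂ) n a
  have hiter' : ∀ n, Phi^[n] β = fun i => φ (Phi^[n] a i) := fun n => Phi_iter_map φ n a
  have hiff : ∀ n, (∀ f ∈ S, eval (Phi^[n] α) f = 0) ↔ ∀ g ∈ T, eval (Phi^[n] β) g = 0 := by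
    intro n
    rw [hiter, hiter']
    exact hT _
  have h5 := Fin_main Fin_two β hβ T (by
    intro i j hij
    obtain ⟨H, hH, hHv⟩ := hdim i j hij
    obtain ⟨H', hH', hHv'⟩ := transfer_ne φ hH
    refine ⟨H', hH', fun n hn => ?_⟩
    have h6 := hHv _ ((hiff n).2 hn)
    have h7 : (![Phi^[n] α i, Phi^[n] α j] : Fin 2 → ℂ) =
        fun k => algebraMap K ℂ ((![Phi^[n] a i, Phi^[n] a j] : Fin 2 → K) k) := by
      rw [hiter]
      funext k
      fin_cases k <;> rfl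
    have h8 : (![Phi^[n] β i, Phi^[n] β j] : Fin 2 → PadicComplex 2) =
        fun k => φ ((![Phi^[n] a i, Phi^[n] a j] : Fin 2 → K) k) := by
      rw [hiter']
      funext k
      fin_cases k <;> rfl
    rw [h7] at h6
    rw [h8]
    exact hHv' _ h6)
  obtain ⟨F, hF⟩ := h5
  refine ⟨F, ?_⟩
  rw [← hF]
  ext n
  exact hiff n

end Pool.Agent.DMC
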