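import Pool.Agent.Lib.MP_e9abfe_ag.Main

/-!
# Consequences of the theorem for curves for arbitrary closed sets
-/

set_option autoImplicit false

namespace Pool.Agent.DMC

open MvPolynomial
open Pool.Agent.MP_e9abfe (Phi progressions)

/-- eventually periodic -/
def EvPer (Z : Set ℕ) : Prop := ∃ N L : ℕ, 0 < L ∧ ∀ n, N ≤ n → (n ∈ Z ↔ n + L ∈ Z)

theorem gap_mul {Z : Set ℕ} {N L : ℕ} (h : ∀ n, N ≤ n → (n ∈ Z ↔ n + L ∈ Z)) (k n : ℕ)
    (hn : N ≤ n) : n ∈ Z ↔ n + L * k ∈ Z := by
  induction k with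
  | zero => simp
  | succ k ih =>
    rw [ih, h (n + L * k) (by omega)]
    have e : n + L * k + L = n + L * (k + 1) := by ring
    rw [e]

theorem gap_union {Z Z' : Set ℕ} (h : EvPer Z) (h' : EvPer Z') : EvPer (Z ∪ Z') := by
  obtain ⟨N, L, hL, h⟩ := h
  obtain ⟨N', L', hL', h'⟩ := h'
  refine ⟨max N N', L * L', Nat.mul_pos hL hL', fun n hn => ?_⟩
  have h1 := gap_mul h L' n ((le_max_left _ _).trans hn)
  have h2 := gap_mul h' L n ((le_max_right _ _).trans hn)
  rw [mul_comm L' L] at h2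
  rw [Set.mem_union, Set.mem_union, h1, h2]

theorem gap_single (a d : ℕ) : EvPer {m : ℕ | ∃ j : ℕ, m = a + d * j} := by
  rcases Nat.eq_zero_or_pos d with hd | hd
  · subst hd
    refine ⟨a + 1, 1, one_pos, fun n hn => ⟨?_, ?_⟩⟩
    · rintro ⟨j, hj⟩
      rw [zero_mul] at hj
      omega
    · rintro ⟨j, hj⟩
      rw [zero_mul] at hj
      omega
  · refine ⟨a, d, hd, fun n hn => ⟨?_, ?_⟩⟩
    · rintro ⟨j, hj⟩
      exact ⟨j + 1, by rw [hj]; ring⟩
    · rintro ⟨j, hj⟩
      rcases Nat.eq_zero_or_pos j with h0 | h0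
      · subst h0
        omega
      · refine ⟨j - 1, ?_⟩
        obtain ⟨i, rfl⟩ := Nat.exists_eq_add_of_lt h0
        have e : 0 + i + 1 - 1 = i := by omega
        rw [e]
        have e2 : d * (0 + i + 1) = d * i + d := by ring
        rw [e2] at hj
        omega

theorem gap_of_AP (F : Finset (ℕ × ℕ)) :
    EvPer {m : ℕ | ∃ p ∈ F, ∃ j : ℕ, m = p.1 + p.2 * j} := by
  classical
  induction F using Finset.induction_on with
  | empty => exact ⟨0, 1, one_pos, fun n _ => by simp⟩
  | insert p F _ ih =>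
    have h := gap_union (gap_single p.1 p.2) ih
    have e : {m : ℕ | ∃ q ∈ insert p F, ∃ j : ℕ, m = q.1 + q.2 * j} =
        {m : ℕ | ∃ j : ℕ, m = p.1 + p.2 * j} ∪ {m : ℕ | ∃ p ∈ F, ∃ j : ℕ, m = p.1 + p.2 * j} := by
      ext m
      simp only [Finset.exists_mem_insert, Set.mem_union, Set.mem_ofPred_eq]
    rw [e]
    exact h

theorem gap_to_AP {Z : Set ℕ} (h : EvPer Z) :
    ∃ F : Finset (ℕ × ℕ), Z = {m : ℕ | ∃ p ∈ F, ∃ j : ℕ, m = p.1 + p.2 * j} := by
  obtain ⟨N, L, hL, h⟩ := h
  apply progressions Z N L hL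
  intro n hn
  by_cases hZ : n ∈ Z
  · right
    exact fun t => (gap_mul h t n hn).1 hZ
  · left
    have e : {t | n + L * t ∈ Z} = ∅ := by
      ext t
      constructor
      · exact fun ht => hZ ((gap_mul h t n hn).2 ht)
      · exact fun ht => absurd ht (Set.notMem_empty t)
    rw [e]
    exact Set.finite_empty

/-- pull back by the map -/
noncomputable def gapPull : MvPolynomial (Fin 3) ℂ →ₐ[ℂ] MvPolynomial (Fin 3) ℂ :=
  aeval ![X 0 ^ 2 + X 1, X 1 ^ 2 + X 2, X 2 ^ 2 + X 0]

theorem gapPull_eval (v : Fin 3 → ℂ) (f : MvPolynomial (Fin 3) ℂ) :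
    eval v (gapPull f) = eval (Phi v) f := by
  have h : (eval v).comp (gapPull : MvPolynomial (Fin 3) ℂ →+* MvPolynomial (Fin 3) ℂ) =
      eval (Phi v) := by
    apply MvPolynomial.ringHom_ext
    · intro r
      simp [gapPull, MvPolynomial.algebraMap_eq]
    · intro i
      fin_cases i <;> simp [gapPull, Phi]
  exact DFunLike.congr_fun h f

theorem gapPull_iter (k : ℕ) (v : Fin 3 → ℂ) (f : MvPolynomial (Fin 3) ℂ) :
    eval v (gapPull^[k] f) = eval (Phi^[k] v) f := by
  induction k generalizing v with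
  | zero => rfl
  | succ k ih =>
    rw [Function.iterate_succ_apply', gapPull_eval, ih, Function.iterate_succ_apply]

/-- the return set -/
def ret (α : Fin 3 → ℂ) (S : Set (MvPolynomial (Fin 3) ℂ)) : Set ℕ :=
  {n | ∀ f ∈ S, eval (Phi^[n] α) f = 0}

/-- any two coordinates are dependent -/
def Dim1 (S : Set (MvPolynomial (Fin 3) ℂ)) : Prop :=
  ∀ i j : Fin 3, i ≠ j → ∃ H : MvPolynomial (Fin 2) ℂ, H ≠ 0 ∧
      ∀ v : Fin 3 → ℂ, (∀ f ∈ S, eval v f = 0) → eval ![v i, v j] H = 0

/-- the inclusion of the polynomials in two coordinates -/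
noncomputable def gapIota (i j : Fin 3) : MvPolynomial (Fin 2) ℂ →ₐ[ℂ] MvPolynomial (Fin 3) ℂ :=
  aeval ![X i, X j]

theorem gapIota_eval (i j : Fin 3) (v : Fin 3 → ℂ) (H : MvPolynomial (Fin 2) ℂ) :
    eval v (gapIota i j H) = eval ![v i, v j] H := by
  have h : (eval v).comp (gapIota i j : MvPolynomial (Fin 2) ℂ →+* MvPolynomial (Fin 3) ℂ) =
      eval ![v i, v j] := by
    apply MvPolynomial.ringHom_ext
    · intro r
      simp [gapIota, MvPolynomial.algebraMap_eq]
    · intro l
      fin_cases l <;> simp [gapIota]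
  exact DFunLike.congr_fun h H

/-- polynomials in three variables as polynomials in the third over those in the first two -/
noncomputable def gapTheta (i j : Fin 3) :
    MvPolynomial (Fin 3) ℂ →+* Polynomial (MvPolynomial (Fin 2) ℂ) :=
  eval₂Hom (Polynomial.C.comp C)
    (fun m => if m = i then Polynomial.C (X 0) else if m = j then Polynomial.C (X 1)
      else Polynomial.X)

/-- the way back -/
noncomputable def gapBack (i j l : Fin 3) :
    Polynomial (MvPolynomial (Fin 2) ℂ) →+* MvPolynomial (Fin 3) ℂ :=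
  Polynomial.eval₂RingHom (gapIota i j : MvPolynomial (Fin 2) ℂ →+* MvPolynomial (Fin 3) ℂ) (X l)

theorem gapTheta_inj {i j l : Fin 3} (hij : i ≠ j) (hcov : ∀ m : Fin 3, m = i ∨ m = j ∨ m = l)
    (g : MvPolynomial (Fin 3) ℂ) : gapBack i j l (gapTheta i j g) = g := by
  have h : (gapBack i j l).comp (gapTheta i j) = RingHom.id _ := by
    apply MvPolynomial.ringHom_ext
    · intro r
      simp [gapBack, gapTheta, gapIota, MvPolynomial.algebraMap_eq]
    · intro m
      rw [RingHom.comp_apply, gapTheta, eval₂Hom_X']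
      by_cases h1 : m = i
      · subst h1
        simp [gapBack, gapIota]
      · rw [if_neg h1]
        by_cases h2 : m = j
        · subst h2
          simp [gapBack, gapIota]
        · rw [if_neg h2]
          have h3 : m = l := ((hcov m).resolve_left h1).resolve_left h2
          subst h3
          simp [gapBack]
  exact DFunLike.congr_fun h g

theorem gap_alg_aux {D : Type} [CommRing D] [IsDomain D] (q : MvPolynomial (Fin 3) ℂ →+* D)
    [Algebra (MvPolynomial (Fin 2) ℂ) D] {i j l : Fin 3} (hij : i ≠ j)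
    (hcov : ∀ m : Fin 3, m = i ∨ m = j ∨ m = l)
    (halg : ∀ a : MvPolynomial (Fin 2) ℂ,
      algebraMap (MvPolynomial (Fin 2) ℂ) D a = q (gapIota i j a))
    {g : MvPolynomial (Fin 3) ℂ} (hg : g ≠ 0) (hqg : q g = 0) (f : MvPolynomial (Fin 3) ℂ) :
    IsAlgebraic (MvPolynomial (Fin 2) ℂ) (q f) := by
  have hl : IsAlgebraic (MvPolynomial (Fin 2) ℂ) (q (X l)) := by
    refine ⟨gapTheta i j g, ?_, ?_⟩
    · intro h
      have h1 := gapTheta_inj hij hcov g
      rw [h, map_zero] at h1
      exact hg h1.symm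
    · have h1 : ∀ p : Polynomial (MvPolynomial (Fin 2) ℂ),
          Polynomial.aeval (q (X l)) p = q (gapBack i j l p) := by
        intro p
        induction p using Polynomial.induction_on' with
        | add a b ha hb => rw [map_add, ha, hb, map_add, map_add]
        | monomial n a =>
          rw [Polynomial.aeval_monomial, halg, gapBack, Polynomial.coe_eval₂RingHom,
            Polynomial.eval₂_monomial, map_mul, map_pow]
          rfl
      rw [h1, gapTheta_inj hij hcov, hqg]
  have hX : ∀ m : Fin 3, IsAlgebraic (MvPolynomial (Fin 2) ℂ) (q (X m)) := by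
    intro m
    rcases hcov m with h | h | h
    · rw [h]
      have h1 : q (X i) = algebraMap (MvPolynomial (Fin 2) ℂ) D (X 0) := by
        rw [halg]
        simp [gapIota]
      rw [h1]
      exact isAlgebraic_algebraMap _
    · rw [h]
      have h1 : q (X j) = algebraMap (MvPolynomial (Fin 2) ℂ) D (X 1) := by
        rw [halg]
        simp [gapIota]
      rw [h1]
      exact isAlgebraic_algebraMap _
    · rw [h]
      exact hl
  induction f using MvPolynomial.induction_on with
  | C a =>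
    have h1 : q (C a) = algebraMap (MvPolynomial (Fin 2) ℂ) D (C a) := by
      rw [halg]
      simp [gapIota, MvPolynomial.algebraMap_eq]
    rw [h1]
    exact isAlgebraic_algebraMap _
  | add a b ha hb => rw [map_add]; exact ha.add hb
  | mul_X a m ha => rw [map_mul]; exact ha.mul (hX m)

/-- The quotient by a nonzero prime ideal, over the polynomials in two coordinates. -/
theorem gap_alg {P : Ideal (MvPolynomial (Fin 3) ℂ)} (hP : P.IsPrime) (h0 : P ≠ ⊥)
    {f : MvPolynomial (Fin 3) ℂ} (hf : f ∉ P) (i j : Fin 3) (hij : i ≠ j) :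
    ∃ H : MvPolynomial (Fin 2) ℂ, H ≠ 0 ∧
      ∀ v : Fin 3 → ℂ, (∀ g ∈ P, eval v g = 0) → eval v f = 0 → eval ![v i, v j] H = 0 := by
  classical
  by_cases hex : ∃ H : MvPolynomial (Fin 2) ℂ, H ≠ 0 ∧ gapIota i j H ∈ P
  · obtain ⟨H, hH, hHP⟩ := hex
    refine ⟨H, hH, fun v hv _ => ?_⟩
    rw [← gapIota_eval]
    exact hv _ hHP
  push Not at hex
  obtain ⟨g, hgP, hg⟩ := Submodule.exists_mem_ne_zero_of_ne_bot h0
  have hthird : ∀ i j : Fin 3, i ≠ j → ∃ l : Fin 3, ∀ m : Fin 3, m = i ∨ m = j ∨ m = l := by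
    decide
  obtain ⟨l, hcov⟩ := hthird i j hij
  let _ : Algebra (MvPolynomial (Fin 2) ℂ) (MvPolynomial (Fin 3) ℂ ⧸ P) :=
    ((Ideal.Quotient.mk P).comp
      (gapIota i j : MvPolynomial (Fin 2) ℂ →+* MvPolynomial (Fin 3) ℂ)).toAlgebra
  have halg : ∀ a : MvPolynomial (Fin 2) ℂ,
      algebraMap (MvPolynomial (Fin 2) ℂ) (MvPolynomial (Fin 3) ℂ ⧸ P) a =
        Ideal.Quotient.mk P (gapIota i j a) := fun a => rfl
  have h1 := gap_alg_aux (Ideal.Quotient.mk P) hij hcov halg hg
    (Ideal.Quotient.eq_zero_iff_mem.2 hgP) f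
  have h2 : Ideal.Quotient.mk P f ≠ 0 := fun h => hf (Ideal.Quotient.eq_zero_iff_mem.1 h)
  obtain ⟨H, hH, c, hc⟩ := h1.exists_nonzero_dvd (mem_nonZeroDivisors_of_ne_zero h2)
  obtain ⟨c, rfl⟩ := Ideal.Quotient.mk_surjective c
  refine ⟨H, hH, fun v hv hvf => ?_⟩
  rw [halg, ← map_mul, ← sub_eq_zero, ← map_sub, Ideal.Quotient.eq_zero_iff_mem] at hc
  have h3 := hv _ hc
  rw [map_sub, map_mul, hvf, zero_mul, sub_zero, gapIota_eval] at h3
  exact h3

/-- the first alternative: a set on a curve with an infinite progression -/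
theorem gap_curve (α : Fin 3 → ℂ)
    (hcur : ∀ S : Set (MvPolynomial (Fin 3) ℂ), Dim1 S → EvPer (ret α S))
    (S : Set (MvPolynomial (Fin 3) ℂ)) (hS : Dim1 S) (a d : ℕ) (hd : 0 < d)
    (had : ∀ j, a + d * j ∈ ret α S) (T : Set (MvPolynomial (Fin 3) ℂ)) :
    EvPer (ret α T) := by
  classical
  let Tr : ℕ → Set (MvPolynomial (Fin 3) ℂ) := fun r => S ∪ (fun g => gapPull^[r] g) '' T
  have h1 : ∀ r, Dim1 (Tr r) := by
    intro r i j hij
    obtain ⟨H, hH, h⟩ := hS i j hij
    exact ⟨H, hH, fun v hv => h v fun f hf => hv f (Or.inl hf)⟩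
  have h2 : ∀ r, EvPer (ret α (Tr r)) := fun r => hcur _ (h1 r)
  choose N L hL h3 using h2
  let M : ℕ := ∏ r ∈ Finset.range d, L r
  let B : ℕ := ∑ r ∈ Finset.range d, N r
  have hM : 0 < M := Finset.prod_pos fun r _ => hL r
  refine ⟨a + d + B, d * M, Nat.mul_pos hd hM, fun n hn => ?_⟩
  obtain ⟨j, r, hr, hn'⟩ : ∃ j r, r < d ∧ n = a + d * j + r := by
    refine ⟨(n - a) / d, (n - a) % d, Nat.mod_lt _ hd, ?_⟩
    have := Nat.div_add_mod (n - a) d
    omega
  have key : ∀ j', a + d * j' + r ∈ ret α T ↔ a + d * j' ∈ ret α (Tr r) := by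
    intro j'
    constructor
    · rintro h f (hf | ⟨g, hg, rfl⟩)
      · exact had j' f hf
      · show eval _ (gapPull^[r] g) = 0
        rw [gapPull_iter, ← Function.iterate_add_apply, add_comm r]
        exact h g hg
    · intro h g hg
      have h4 := h (gapPull^[r] g) (Or.inr ⟨g, hg, rfl⟩)
      rw [gapPull_iter, ← Function.iterate_add_apply, add_comm r] at h4
      exact h4
  have hNr : N r ≤ B := Finset.single_le_sum (f := N) (fun _ _ => Nat.zero_le _)
    (Finset.mem_range.2 hr)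
  obtain ⟨c, hc⟩ : L r ∣ M := Finset.dvd_prod_of_mem L (Finset.mem_range.2 hr)
  have h4 := gap_mul (h3 r) (c * d) (a + d * j) (by omega)
  have e1 : a + d * j + L r * (c * d) = a + d * (j + M) := by
    rw [← mul_assoc, ← hc]
    ring
  rw [e1, ← key, ← key] at h4
  rw [hn', h4]
  have e2 : a + d * j + r + d * M = a + d * (j + M) + r := by ring
  rw [e2]

/-- prime ideals -/
theorem gap_prime (α : Fin 3 → ℂ)
    (hcur : ∀ S : Set (MvPolynomial (Fin 3) ℂ), Dim1 S → EvPer (ret α S))
    {P : Ideal (MvPolynomial (Fin 3) ℂ)} (hP : P.IsPrime) :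
    EvPer (ret α (P : Set (MvPolynomial (Fin 3) ℂ))) ∨
      ∀ k, 0 < k → {n | n ∈ ret α (P : Set (MvPolynomial (Fin 3) ℂ)) ∧
        n + k ∈ ret α (P : Set (MvPolynomial (Fin 3) ℂ))}.Finite := by
  by_cases h0 : P = ⊥
  · left
    subst h0
    refine ⟨0, 1, one_pos, fun n _ => ?_⟩
    have h1 : ∀ m, m ∈ ret α ((⊥ : Ideal (MvPolynomial (Fin 3) ℂ)) :
        Set (MvPolynomial (Fin 3) ℂ)) := by
      intro m f hf
      have h2 : f = 0 := hf
      rw [h2, map_zero]
    exact ⟨fun _ => h1 _, fun _ => h1 _⟩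
  by_cases hper : ∃ k, 0 < k ∧ ∀ v : Fin 3 → ℂ, (∀ g ∈ P, eval v g = 0) →
      ∀ g ∈ P, eval (Phi^[k] v) g = 0
  · left
    obtain ⟨k, hk, h⟩ := hper
    have h1 : ∀ n, n ∈ ret α (P : Set (MvPolynomial (Fin 3) ℂ)) →
        n + k ∈ ret α (P : Set (MvPolynomial (Fin 3) ℂ)) := by
      intro n hn g hg
      rw [add_comm, Function.iterate_add_apply]
      exact h _ hn g hg
    -- an increasing property in every residue class
    have h2 : ∃ F : Finset (ℕ × ℕ), ret α (P : Set (MvPolynomial (Fin 3) ℂ)) =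
        {m : ℕ | ∃ p ∈ F, ∃ j : ℕ, m = p.1 + p.2 * j} := by
      have h3 : ∀ r, ∃ N, ∀ t, N ≤ t → (r + k * t ∈ ret α (P : Set (MvPolynomial (Fin 3) ℂ)) ↔
          r + k * N ∈ ret α (P : Set (MvPolynomial (Fin 3) ℂ))) := by
        intro r
        by_cases h4 : ∃ t, r + k * t ∈ ret α (P : Set (MvPolynomial (Fin 3) ℂ))
        · obtain ⟨t, ht⟩ := h4
          have h5 : ∀ s, r + k * (t + s) ∈ ret α (P : Set (MvPolynomial (Fin 3) ℂ)) := by
            intro s
            induction s with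
            | zero => exact ht
            | succ s ih =>
              have h6 := h1 _ ih
              have e : r + k * (t + s) + k = r + k * (t + (s + 1)) := by ring
              rw [e] at h6
              exact h6
          refine ⟨t, fun s hs => ?_⟩
          obtain ⟨u, rfl⟩ := Nat.exists_eq_add_of_le hs
          exact ⟨fun _ => ht, fun _ => h5 u⟩
        · push Not at h4
          exact ⟨0, fun t _ => ⟨fun h => absurd h (h4 t), fun h => absurd h (h4 0)⟩⟩
      choose N hN using h3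
      let B : ℕ := ∑ r ∈ Finset.range k, N r
      apply progressions _ (k * B + k) k hk
      intro n hn
      obtain ⟨r, t, hr, hn'⟩ : ∃ r t, r < k ∧ n = r + k * t :=
        ⟨n % k, n / k, Nat.mod_lt _ hk, (Nat.mod_add_div n k).symm⟩
      have hNr : N r ≤ B := Finset.single_le_sum (f := N) (fun _ _ => Nat.zero_le _)
        (Finset.mem_range.2 hr)
      have htB : B ≤ t := by
        by_contra hlt
        push Not at hlt
        have h7 : k * t + k ≤ k * B := by
          have : k * (t + 1) ≤ k * B := Nat.mul_le_mul_left k hlt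
          rw [mul_add, mul_one] at this
          exact this
        omega
      by_cases h8 : n ∈ ret α (P : Set (MvPolynomial (Fin 3) ℂ))
      · right
        intro s
        have h9 := (hN r t (hNr.trans htB)).1 (hn' ▸ h8)
        have h10 := (hN r (t + s) (by omega)).2 h9
        have e : r + k * (t + s) = n + k * s := by rw [hn']; ring
        rw [e] at h10
        exact h10
      · left
        have e0 : {s | n + k * s ∈ ret α (P : Set (MvPolynomial (Fin 3) ℂ))} = ∅ := by
          ext s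
          constructor
          · intro hs
            have hs' : n + k * s ∈ ret α (P : Set (MvPolynomial (Fin 3) ℂ)) := hs
            have e : r + k * (t + s) = n + k * s := by rw [hn']; ring
            rw [← e] at hs'
            have h9 := (hN r (t + s) (by omega)).1 hs'
            have h10 := (hN r t (hNr.trans htB)).2 h9
            exact absurd (hn' ▸ h10) h8
          · exact fun ht => absurd ht (Set.notMem_empty s)
        rw [e0]
        exact Set.finite_empty
    obtain ⟨F, hF⟩ := h2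
    rw [hF]
    exact gap_of_AP F
  push Not at hper
  by_cases hall : ∀ k, 0 < k → {n | n ∈ ret α (P : Set (MvPolynomial (Fin 3) ℂ)) ∧
        n + k ∈ ret α (P : Set (MvPolynomial (Fin 3) ℂ))}.Finite
  · right
    exact hall
  left
  push Not at hall
  obtain ⟨k, hk, hinf⟩ := hall
  obtain ⟨v, hv, g, hg, hgv⟩ := hper k hk
  let S : Set (MvPolynomial (Fin 3) ℂ) := P ∪ (fun g => gapPull^[k] g) '' P
  have hS : Dim1 S := by
    intro i j hij
    have hf : gapPull^[k] g ∉ P := by
      intro h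
      have h1 := hv _ h
      rw [gapPull_iter] at h1
      exact hgv h1
    obtain ⟨H, hH, h⟩ := gap_alg hP h0 hf i j hij
    refine ⟨H, hH, fun w hw => h w (fun q hq => hw q (Or.inl hq)) (hw _ (Or.inr ⟨g, hg, rfl⟩))⟩
  have hret : ret α S = {n | n ∈ ret α (P : Set (MvPolynomial (Fin 3) ℂ)) ∧
        n + k ∈ ret α (P : Set (MvPolynomial (Fin 3) ℂ))} := by
    ext n
    constructor
    · intro h
      refine ⟨fun f hf => h f (Or.inl hf), fun f hf => ?_⟩
      have h1 := h _ (Or.inr ⟨f, hf, rfl⟩)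
      have h2 : eval (Phi^[n] α) (gapPull^[k] f) = 0 := h1
      rw [gapPull_iter, ← Function.iterate_add_apply, add_comm k] at h2
      exact h2
    · rintro ⟨h1, h2⟩ f (hf | ⟨q, hq, rfl⟩)
      · exact h1 f hf
      · show eval _ (gapPull^[k] q) = 0
        rw [gapPull_iter, ← Function.iterate_add_apply, add_comm k]
        exact h2 q hq
  have hinf' : (ret α S).Infinite := by rw [hret]; exact hinf
  obtain ⟨N, L, hL, h⟩ := hcur S hS
  obtain ⟨a, ha, haN⟩ := hinf'.exists_gt N
  exact gap_curve α hcur S hS a L hL (fun j => (gap_mul h j a haN.le).1 ha) _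

/-- a finite union of progressions and of sets with gaps tending to infinity -/
def Good (Z : Set ℕ) : Prop :=
  ∃ (F : Finset (ℕ × ℕ)) (E : Finset (Set ℕ)),
    (∀ A ∈ E, ∀ k, 0 < k → {n | n ∈ A ∧ n + k ∈ A}.Finite) ∧
    Z = {m : ℕ | (∃ p ∈ F, ∃ j : ℕ, m = p.1 + p.2 * j) ∨ ∃ A ∈ E, m ∈ A}

theorem gap_good_union {Z Z' : Set ℕ} (h : Good Z) (h' : Good Z') : Good (Z ∪ Z') := by
  classical
  obtain ⟨F, E, hE, rfl⟩ := h
  obtain ⟨F', E', hE', rfl⟩ := h'
  refine ⟨F ∪ F', E ∪ E', ?_, ?_⟩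
  · intro A hA
    rcases Finset.mem_union.1 hA with h | h
    · exact hE A h
    · exact hE' A h
  · ext m
    simp only [Set.mem_union, Set.mem_ofPred_eq, Finset.mem_union]
    constructor
    · rintro ((⟨p, hp, h⟩ | ⟨A, hA, h⟩) | (⟨p, hp, h⟩ | ⟨A, hA, h⟩))
      · exact Or.inl ⟨p, Or.inl hp, h⟩
      · exact Or.inr ⟨A, Or.inl hA, h⟩
      · exact Or.inl ⟨p, Or.inr hp, h⟩
      · exact Or.inr ⟨A, Or.inr hA, h⟩
    · rintro (⟨p, hp | hp, h⟩ | ⟨A, hA | hA, h⟩)
      · exact Or.inl (Or.inl ⟨p, hp, h⟩)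
      · exact Or.inr (Or.inl ⟨p, hp, h⟩)
      · exact Or.inl (Or.inr ⟨A, hA, h⟩)
      · exact Or.inr (Or.inr ⟨A, hA, h⟩)

theorem gap_good_of {Z : Set ℕ} (h : EvPer Z ∨ ∀ k, 0 < k → {n | n ∈ Z ∧ n + k ∈ Z}.Finite) :
    Good Z := by
  classical
  rcases h with h | h
  · obtain ⟨F, hF⟩ := gap_to_AP h
    refine ⟨F, ∅, fun A hA => absurd hA (Finset.notMem_empty A), ?_⟩
    rw [hF]
    ext m
    simp
  · refine ⟨∅, {Z}, ?_, ?_⟩
    · intro A hA
      rw [Finset.mem_singleton.1 hA]
      exact h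
    · ext m
      simp

theorem gap_final (α : Fin 3 → ℂ)
    (hcur : ∀ S : Set (MvPolynomial (Fin 3) ℂ), Dim1 S → EvPer (ret α S))
    (S : Set (MvPolynomial (Fin 3) ℂ)) : Good (ret α S) := by
  classical
  let I : Ideal (MvPolynomial (Fin 3) ℂ) := Ideal.span S
  have hfin : I.minimalPrimes.Finite := Ideal.finite_minimalPrimes_of_isNoetherianRing _ I
  have h1 : ret α S = ⋃ P ∈ hfin.toFinset, ret α (P : Set (MvPolynomial (Fin 3) ℂ)) := by
    ext n
    simp only [Set.mem_iUnion]
    constructor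
    · intro hn
      have h2 : (RingHom.ker (eval (Phi^[n] α))).IsPrime := RingHom.ker_isPrime _
      have h3 : I ≤ RingHom.ker (eval (Phi^[n] α)) := by
        rw [Ideal.span_le]
        intro f hf
        exact hn f hf
      obtain ⟨P, hP, hPle⟩ := Ideal.exists_minimalPrimes_le h3
      exact ⟨P, hfin.mem_toFinset.2 hP, fun f hf => hPle hf⟩
    · rintro ⟨P, hP, hn⟩ f hf
      have h4 : P ∈ I.minimalPrimes := hfin.mem_toFinset.1 hP
      exact hn f (h4.1.2 (Ideal.subset_span hf))
  rw [h1]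
  have h5 : ∀ PS : Finset (Ideal (MvPolynomial (Fin 3) ℂ)), (∀ P ∈ PS, P.IsPrime) →
      Good (⋃ P ∈ PS, ret α (P : Set (MvPolynomial (Fin 3) ℂ))) := by
    intro PS
    induction PS using Finset.induction_on with
    | empty =>
      intro _
      refine ⟨∅, ∅, fun A hA => absurd hA (Finset.notMem_empty A), ?_⟩
      ext m
      simp
    | insert P PS _ ih =>
      intro hP
      rw [Finset.set_biUnion_insert]
      apply gap_good_union
      · exact gap_good_of (gap_prime α hcur (hP P (Finset.mem_insert_self _ _)))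
      · exact ih fun Q hQ => hP Q (Finset.mem_insert_of_mem hQ)
  apply h5
  intro P hP
  exact (hfin.mem_toFinset.1 hP).1.1

end Pool.Agent.DMC
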